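import Pool.Agent.SplG.Ap1

set_option autoImplicit false
set_option linter.all false

/-!
# Ap3: adding codes to a condition
-/

namespace Pool.Agent.SplG

open Cardinal Pool.Agent.SplK

variable {K : Type} [LinearOrder K] [Stp K]

theorem ext_codes (a : K) (u1 u2 : RR K) :
    ∃ u : RR K, (∀ c, a ≤ c → cod u c = (cod u1 c).or (cod u2 c)) ∧ ∀ w, cr a w u ≤ cr a w u1 := by
  classical
  obtain ⟨g, hg⟩ : ∃ g : K → Option (K × K), g = fun c => (u1.f.1 c).or ((u2.f.1 c).map (fun z => (z.1, (Stp.bt : K)))) :=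
    ⟨_, rfl⟩
  have hg0 : ∀ c, g c ≠ none → u1.f.1 c ≠ none ∨ u2.f.1 c ≠ none := by
    intro c hc
    by_contra h
    push Not at h
    apply hc
    rw [hg]
    simp [h.1, h.2]
  have hgb : ∃ b, ∀ c, g c ≠ none → c < b := by
    obtain ⟨b1, hb1⟩ := u1.f.2
    obtain ⟨b2, hb2⟩ := u2.f.2
    refine ⟨max b1 b2, fun c hc => ?_⟩
    rcases hg0 c hc with h | h
    · exact (hb1 c h).trans_le (le_max_left _ _)
    · exact (hb2 c h).trans_le (le_max_right _ _)
  have hok : Ok (⟨g, hgb⟩ : Fn K) := by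
    constructor
    · intro c hc
      obtain ⟨b1, h1, h2⟩ := u1.ok.1 c hc
      obtain ⟨b2, h3, h4⟩ := u2.ok.1 c hc
      refine ⟨max b1 b2, max_lt h1 h3, fun d hd hne => ?_⟩
      rcases hg0 d hne with h | h
      · exact (h2 d hd h).trans_le (le_max_left _ _)
      · exact (h4 d hd h).trans_le (le_max_right _ _)
    · intro c D t hct
      change g c = some (D, t) at hct
      rw [hg] at hct
      dsimp only at hct
      rcases h1 : u1.f.1 c with _ | ⟨D1, t1⟩
      · rw [h1, Option.none_or] at hct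
        rcases h2 : u2.f.1 c with _ | ⟨D2, t2⟩
        · rw [h2] at hct
          cases hct
        · rw [h2, Option.map_some] at hct
          obtain ⟨e1, e2⟩ := Prod.mk.inj (Option.some.inj hct)
          dsimp only at e1
          subst e1
          subst e2
          have h3 := (u2.ok.2 c _ _ h2).1
          exact ⟨h3, (val_iff.mp h3).bot⟩
      · rw [h1, Option.some_or] at hct
        rw [hct] at h1
        exact u1.ok.2 c D t h1
  refine ⟨⟨⟨g, hgb⟩, hok⟩, fun c _ => ?_, fun w => ?_⟩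
  · change (g c).map Prod.fst = ((u1.f.1 c).map Prod.fst).or ((u2.f.1 c).map Prod.fst)
    rw [hg]
    dsimp only
    rcases h1 : u1.f.1 c with _ | ⟨D1, t1⟩
    · rcases h2 : u2.f.1 c with _ | ⟨D2, t2⟩ <;> simp
    · simp
  · intro c D t hct
    by_cases hac : a ≤ c
    · rw [cr_f, ct_ge hac] at hct
      have h1 := u1.ok.2 c D t hct
      refine ⟨t, ?_, (val_iff.mp h1.1).refl _ (rs_mem (cr a w ⟨⟨g, hgb⟩, hok⟩).ok) t h1.2⟩
      rw [cr_f, ct_ge hac]
      change g c = _
      rw [hg]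
      dsimp only
      rw [hct, Option.some_or]
    · rw [cr_f, ct_lt (not_le.mp hac)] at hct
      refine ⟨t, by rw [cr_f, ct_lt (not_le.mp hac)]; exact hct, ?_⟩
      exact (val_iff.mp (w.ok.2 c D t hct).1).refl _ (rs_mem (cr a w ⟨⟨g, hgb⟩, hok⟩).ok) t (w.ok.2 c D t hct).2

end Pool.Agent.SplG
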