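import Pool.Agent.SplG.Kd
import Pool.Agent.SplK.Ar

set_option autoImplicit false
set_option linter.all false

/-!
# Sizes of the traces

`kx_pow`: if `Y` injects into the power set of `Z` then eventually the trace of `Y` injects into the power set of the trace of `Z`.
`kx_card`: if `#Y ≤ (2 ^ #K)⁺ⁿ` then eventually the trace of `Y` has size at most `(2 ^ #(Iio a_x))⁺ⁿ`.
-/

namespace Pool.Agent.SplG

open Cardinal Pool.Agent.SplK

variable {K : Type} [LinearOrder K] [Stp K] {Θ : Type} {W : Ultrafilter (Set Θ)}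

/-- A wellorder whose proper initial segments have size at most `c` has size at most `succ c`. -/
theorem cw_wo {S : Type} [LinearOrder S] [WellFoundedLT S] {c : Cardinal.{0}} (h : ∀ s : S, #(Set.Iio s) ≤ c) :
    #S ≤ Order.succ c := by
  by_contra hcon
  rw [not_le] at hcon
  have h1 : (Order.succ c).ord < Ordinal.type ((· < ·) : S → S → Prop) :=
    (Cardinal.ord_lt_ord.2 hcon).trans_le (Cardinal.ord_le_type _)
  obtain ⟨a, ha⟩ := Ordinal.typein_surj _ h1
  have h2 := Ordinal.card_typein (r := ((· < ·) : S → S → Prop)) a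
  rw [ha, Cardinal.card_ord] at h2
  have h3 : #(Set.Iio a) = Order.succ c := h2.symm
  have h4 := h a
  rw [h3] at h4
  exact absurd (Order.lt_succ c) (not_lt.2 h4)

/-- The same with an injection into a wellorder. -/
theorem cw_inj {A Z : Type} [LinearOrder Z] [WellFoundedLT Z] (e : A → Z) (he : Function.Injective e)
    {c : Cardinal.{0}} (h : ∀ a : A, #{b : A | e b < e a} ≤ c) : #A ≤ Order.succ c := by
  have h1 : #A = #(Set.range e) := (Cardinal.mk_range_eq e he).symm
  rw [h1]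
  apply cw_wo
  rintro ⟨_, a, rfl⟩
  refine le_trans ?_ (h a)
  refine Cardinal.mk_le_of_surjective (f := fun b : {b : A | e b < e a} =>
    (⟨⟨e b.1, b.1, rfl⟩, b.2⟩ : Set.Iio (⟨e a, a, rfl⟩ : Set.range e))) ?_
  rintro ⟨⟨_, b, rfl⟩, hb⟩
  exact ⟨⟨b, hb⟩, rfl⟩

/-- If `Y` injects into the power set of `Z`, its trace injects into the power set of the trace of `Z`. -/
theorem kx_pow (hW : NFU #K Θ W) {Y Z : Type} (g : Y → Θ) (hg : Function.Injective g) (h : Z → Θ)
    (hh : Function.Injective h) (e : Y → Set Z) (he : Function.Injective e) :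
    ∀ᶠ x : Set Θ in (W : Filter (Set Θ)), #{y | g y ∈ x} ≤ 2 ^ #{z | h z ∈ x} := by
  have h1 : ∀ᶠ x : Set Θ in (W : Filter (Set Θ)), ∀ y, g y ∈ x → ∀ y', g y' ∈ x → y ≠ y' →
      ∃ z, h z ∈ x ∧ ¬ (z ∈ e y ↔ z ∈ e y') := by
    refine nfu_diag hW g hg _ (fun y => ?_)
    refine nfu_diag hW g hg _ (fun y' => ?_)
    by_cases hyy : y = y'
    · exact Filter.Eventually.of_forall (fun x hne => absurd hyy hne)
    · have hz : ∃ z, ¬ (z ∈ e y ↔ z ∈ e y') := by
        by_contra hcon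
        push Not at hcon
        exact hyy (he (Set.ext hcon))
      obtain ⟨z, hz⟩ := hz
      exact (hW.fine (h z)).mono (fun x hx _ => ⟨z, hx, hz⟩)
  filter_upwards [h1] with x hx
  rw [← mk_set]
  refine mk_le_of_injective (f := fun y : {y | g y ∈ x} => ({z | z.1 ∈ e y.1} : Set {z | h z ∈ x})) ?_
  intro y y' hyy
  by_contra hne
  obtain ⟨z, hz, hz'⟩ := hx y.1 y.2 y'.1 y'.2 (fun h' => hne (Subtype.ext h'))
  apply hz'
  have h2 : (⟨z, hz⟩ : {z | h z ∈ x}) ∈ ({z | z.1 ∈ e y.1} : Set {z | h z ∈ x}) ↔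
      (⟨z, hz⟩ : {z | h z ∈ x}) ∈ ({z | z.1 ∈ e y'.1} : Set {z | h z ∈ x}) := by
    dsimp only at hyy
    rw [hyy]
  exact h2

theorem kx_card (hW : NFU #K Θ W) (k : K → Θ) (hk : Function.Injective k) (n : ℕ) {Y : Type} (g : Y → Θ)
    (hg : Function.Injective g) (hY : #Y ≤ pl (2 ^ #K) n) :
    ∀ᶠ x : Set Θ in (W : Filter (Set Θ)), #{y | g y ∈ x} ≤ pl (2 ^ #(Set.Iio (kx k x))) n := by
  induction n generalizing Y with
  | zero =>
    rw [pl_zero, ← mk_set] at hY
    obtain ⟨e⟩ := hY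
    filter_upwards [kx_pow hW g hg k hk e e.injective, kx_spec hW k hk] with x hx hspec
    rw [pl_zero]
    refine hx.trans (power_le_power_left two_ne_zero ?_)
    exact Cardinal.mk_le_of_injective (f := fun b : {b | k b ∈ x} => (⟨b.1, (hspec b.1).1 b.2⟩ : Set.Iio (kx k x)))
      (fun a b hab => Subtype.ext (congrArg (fun z : Set.Iio (kx k x) => z.1) hab))
  | succ n ih =>
    rw [pl_succ] at hY
    have hZ : #Y ≤ #(Order.succ (pl (2 ^ #K) n)).ord.ToType := by
      rw [Cardinal.mk_ord_toType]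
      exact hY
    obtain ⟨e⟩ := hZ
    have hseg : ∀ y : Y, #{y' : Y // e y' < e y} ≤ pl (2 ^ #K) n := by
      intro y
      have h1 : #{y' : Y // e y' < e y} ≤ #(Set.Iio (e y)) :=
        Cardinal.mk_le_of_injective (f := fun y' : {y' : Y // e y' < e y} => (⟨e y'.1, y'.2⟩ : Set.Iio (e y)))
          (fun a b hab => Subtype.ext (e.injective (congrArg Subtype.val hab)))
      have h2 : #(Set.Iio (e y)) < Order.succ (pl (2 ^ #K) n) := Cardinal.mk_Iio_ord_toType _
      exact Order.lt_succ_iff.1 (h1.trans_lt h2)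
    have h1 := nfu_diag hW g hg
      (fun y x => #{y' : {y' : Y // e y' < e y} | g y'.1 ∈ x} ≤ pl (2 ^ #(Set.Iio (kx k x))) n)
      (fun y => ih (fun y' : {y' : Y // e y' < e y} => g y'.1)
        (fun a b hab => Subtype.ext (hg hab)) (hseg y))
    filter_upwards [h1] with x hx
    rw [pl_succ]
    refine cw_inj (fun y : {y | g y ∈ x} => e y.1) (fun a b hab => Subtype.ext (e.injective hab)) ?_
    rintro ⟨y, hy⟩
    refine le_trans ?_ (hx y hy)
    refine Cardinal.mk_le_of_injective (f := fun b : {b : {y | g y ∈ x} | e b.1 < e y} =>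
      (⟨⟨b.1.1, b.2⟩, b.1.2⟩ : {y' : {y' : Y // e y' < e y} | g y'.1 ∈ x})) ?_
    intro a b hab
    have := congrArg (fun z => z.1.1) hab
    exact Subtype.ext (Subtype.ext this)

/-- A bound for `#x` which is smaller than the next active stage. -/
theorem kx_big (k : K → Θ) (hk : Function.Injective k) {x : Set Θ} (hspec : ∀ b : K, k b ∈ x ↔ b < kx k x)
    (hin : Inac (Set.Iio (kx k x))) (n : ℕ) (hx : #x ≤ 2 ^ pl (2 ^ #(Set.Iio (kx k x))) n) :
    Big (sx (kx k x)) #x ∧ ℵ₀ ≤ #x ∧ #(Cd (kx k x)) ≤ #x := by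
  have hle : #(Set.Iio (kx k x)) ≤ #x :=
    Cardinal.mk_le_of_injective (f := fun b : Set.Iio (kx k x) => (⟨k b.1, (hspec b.1).2 b.2⟩ : x))
      (fun a b hab => Subtype.ext (hk (congrArg Subtype.val hab)))
  refine ⟨?_, hin.unc.le.trans hle, (card_Cd_le _ hin).trans hle⟩
  intro c hc hci
  have hac : kx k x < c := sx_le_iff.1 hc
  have hlim : ∀ y < #(Set.Iio c), 2 ^ y < #(Set.Iio c) := fun y hy => (inac_card hci).isStrongPrelimit hy
  exact hx.trans_lt (hlim _ (pl_lt (hlim _ (iio_lt_iio hci hac)) hlim n))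

end Pool.Agent.SplG
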