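import Pool.Agent.SplG.RDefs

set_option autoImplicit false
set_option linter.all false

/-!
# The preparation: further definitions
-/

namespace Pool.Agent.SplG

open Cardinal Pool.Agent.SplK

variable {K : Type} [LinearOrder K] [Stp K]

/-! ### Successors -/

lemma exists_gt_K (a : K) : ∃ b, a < b := by
  have h := (Stp.inac (K := K))
  obtain ⟨b, hb⟩ := h.reg {a} (by
    rw [mk_singleton]
    exact one_lt_aleph0.trans h.unc)
  exact ⟨b, hb a rfl⟩

/-- The successor. -/
noncomputable def sx (a : K) : K := (wellFounded_lt (α := K)).min {b | a < b} (exists_gt_K a)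

lemma self_lt_sx (a : K) : a < sx a := (wellFounded_lt (α := K)).min_mem {b | a < b} (exists_gt_K a)

lemma lt_sx_iff {a b : K} : b < sx a ↔ b ≤ a := by
  constructor
  · intro h
    by_contra hab
    exact (wellFounded_lt (α := K)).not_lt_min {b | a < b} (not_le.mp hab) h
  · exact fun h => h.trans_lt (self_lt_sx a)

lemma sx_le_iff {a b : K} : sx a ≤ b ↔ a < b := by
  rw [← not_lt, lt_sx_iff, not_le]

open Classical in
/-- The function with the only value `(D, t)` at `a`. -/
noncomputable def pt (a D t : K) : Fn K := ⟨fun b => if b = a then some (D, t) else none, sx a, fun b hb => by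
  by_cases h : b = a
  · rw [h]; exact self_lt_sx a
  · simp [h] at hb⟩

@[simp] lemma pt_self (a D t : K) : (pt a D t).1 a = some (D, t) := by simp [pt]
lemma pt_ne {a b : K} (h : b ≠ a) (D t : K) : (pt a D t).1 b = none := by simp [pt, h]

lemma ok_pt {a D t : K} (h : Val a D) (ht : t ∈ und D) : Ok (pt a D t) := by
  constructor
  · intro c hc
    by_cases hac : a < c
    · obtain ⟨b, hb⟩ : ∃ b, a < b ∧ b < c := by
        have hi := hc
        obtain ⟨b, hb⟩ := hi.reg {⟨a, hac⟩} (by
          rw [mk_singleton]
          exact one_lt_aleph0.trans hi.unc)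
        exact ⟨b.1, hb _ rfl, b.2⟩
      refine ⟨b, hb.2, fun d _ hne => ?_⟩
      by_cases hd : d = a
      · rw [hd]; exact hb.1
      · exact (hne (pt_ne hd D t)).elim
    · refine ⟨Stp.bt, inac_bt hc, fun d hd hne => ?_⟩
      by_cases hd' : d = a
      · exact (hac (hd' ▸ hd)).elim
      · exact (hne (pt_ne hd' D t)).elim
  · intro b D' t' hb
    by_cases h' : b = a
    · rw [h', pt_self] at hb
      obtain ⟨rfl, rfl⟩ : D = D' ∧ t = t' := by simpa using hb
      rw [h']
      exact ⟨h, ht⟩
    · rw [pt_ne h'] at hb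
      cases hb

/-! ### The two-step iteration over the preparation -/

/-- The condition `w` below `a`, continued by `m`. -/
def tw {T : Type} (P : RPos (RR K) T) (a : K) (w : RR K) (m : RR K × T) : Star P := ⟨cr a w m.1, m.2⟩

/-- Below `a`. -/
def Bl (a : K) (w : RR K) : Prop := w.f ∈ Cd a

/-- All active stages from `a` on have size more than `μ`. -/
def Big (a : K) (μ : Cardinal.{0}) : Prop := ∀ c : K, a ≤ c → Inac (Set.Iio c) → μ < #(Set.Iio c)

/-! ### The reflection -/

open Classical in
/-- The least element of `K` whose image does not belong to `x`. -/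
noncomputable def kx {Θ : Type} (k : K → Θ) (x : Set Θ) : K :=
  if h : {a | k a ∉ x}.Nonempty then (wellFounded_lt (α := K)).min {a | k a ∉ x} h else Stp.bt

/-- The trace of `P` on the set `x` is coded by `D` as a name of a forcing notion at the stage `a`. -/
structure Rfl {T : Type} (P : RPos (RR K) T) (x : Set T) (a D : K) (c : T → K) : Prop where
  inj : ∀ t ∈ x, ∀ t' ∈ x, c t = c t' → t = t'
  top_mem : P.top ∈ x
  top : c P.top = Stp.bt
  und : und D = c '' x
  le : ∀ s : RR K, Bl a s → ∀ t' ∈ x, ∀ t ∈ x, (leD D s.f (c t') (c t) ↔ P.le s t' t)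
  val : Val a D

open Classical in
/-- The condition equal to `s` below `a`, with the value `(D, t)` at `a`, and undefined above. -/
noncomputable def ex (a D : K) (s : RR K) (t : K) : RR K :=
  if h : Ok (ct a s.f (pt a D t)) then ⟨ct a s.f (pt a D t), h⟩ else ⊤

lemma ex_f {a D t : K} (h : Val a D) (ht : t ∈ und D) (s : RR K) : (ex a D s t).f = ct a s.f (pt a D t) := by
  rw [ex, dif_pos (ok_ct s.ok (ok_pt h ht))]

end Pool.Agent.SplG
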