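import Pool.Agent.SplG.Sb
import Pool.Agent.SplG.Kx
import Pool.Agent.SplG.Cw

set_option autoImplicit false
set_option linter.all false

/-!
# Ap4: a splitting base
-/

namespace Pool.Agent.SplG

open Cardinal Pool.Agent.SplK

variable {K : Type} [LinearOrder K] [Stp K]

theorem ap4_lim {W : Ultrafilter (Set K)} (hW : NFU #K K W) (b0 : K) :
    ∃ a : K, b0 < a ∧ Inac (Set.Iio a) ∧ ∀ b < a, ∃ c, b < c ∧ c < a ∧ Inac (Set.Iio c) := by
  have h1 : ∀ b : K, ∀ᶠ x : Set K in (W : Filter (Set K)), ∃ c, b < c ∧ c < kx id x ∧ Inac (Set.Iio c) := by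
    intro b
    obtain ⟨x0, h2, h3⟩ := ((kx_large hW id Function.injective_id b).and (kx_inac hW id Function.injective_id)).exists
    exact (kx_large hW id Function.injective_id (kx id x0)).mono (fun x hx => ⟨kx id x0, h2, hx, h3⟩)
  obtain ⟨x, h2, h3, h4⟩ := ((kx_diag hW id Function.injective_id _ h1).and
    ((kx_large hW id Function.injective_id b0).and (kx_inac hW id Function.injective_id))).exists
  exact ⟨kx id x, h3, h4, h2⟩

theorem ap_base {W : Ultrafilter (Set K)} (hW : NFU #K K W) (r : RR K) :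
    ∃ r' ≤ r, ∃ a : K, Inac (Set.Iio a) ∧ #(BS a r') ≤ #(Set.Iio a) ∧
      ∀ w : BS a r', ∃ w0 w1 : BS a r', w0.1 ≤ w.1 ∧ w1.1 ≤ w.1 ∧ ∀ v, v ≤ w0.1 → ¬ v ≤ w1.1 := by
  obtain ⟨b0, hb0⟩ := r.f.2
  obtain ⟨a, hba, ha, hlim⟩ := ap4_lim hW b0
  have hra : r.f.1 a = none := by
    by_contra h
    exact absurd (hb0 a h) (not_lt.mpr hba.le)
  obtain ⟨D, hD, hund⟩ := exists_val a ha
  obtain ⟨r', hr', hDt, -⟩ := sb_set r hD hra
  refine ⟨r', hr', a, ha, ?_, ?_⟩
  · refine le_trans ?_ (card_Cd_le a ha)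
    refine mk_le_of_injective (f := fun w : BS a r' => (⟨(rr a w.1).f, rs_mem w.1.ok⟩ : Cd a)) ?_
    intro w w' h
    have h1 : rr a w.1 = rr a w'.1 := RR.ext (congrArg Subtype.val h)
    obtain ⟨t, ht, -, e1⟩ := sb_form hDt w
    obtain ⟨t', ht', -, e2⟩ := sb_form hDt w'
    rw [hund, Set.mem_singleton_iff] at ht ht'
    subst ht
    subst ht'
    apply Subtype.ext
    rw [e1, e2, h1]
  · intro w
    obtain ⟨b, hb, hb2⟩ := w.1.ok.1 a ha
    obtain ⟨c, hbc, hca, hc⟩ := hlim b hb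
    have hwc : w.1.f.1 c = none := by
      by_contra h
      exact absurd (hb2 c hca h) (not_lt.mpr hbc.le)
    obtain ⟨D0, D1, hD0, hD1, hne⟩ := exists_val_ne c hc
    have mk : ∀ D', Val c D' → ∃ v : BS a r', v.1 ≤ w.1 ∧ v.1.f.1 c = some (D', Stp.bt) := by
      intro D' hD'
      obtain ⟨v, hv, hv1, hv2⟩ := sb_set w.1 hD' hwc
      have hbl : Bl (sx a) v := by
        refine mem_Cd.mpr ⟨v.ok, Fn.ext (fun e => ?_)⟩
        by_cases he : e < sx a
        · rw [rs_lt he]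
        · rw [rs_ge (not_lt.mp he)]
          have hec : e ≠ c := by
            rintro rfl
            exact he (hca.trans (self_lt_sx a))
          rw [hv2 e hec]
          exact (cd_supp w.2.1 (not_lt.mp he)).symm
      exact ⟨⟨v, hbl, hv.trans w.2.2⟩, hv, hv1⟩
    obtain ⟨w0, h1, h2⟩ := mk D0 hD0
    obtain ⟨w1, h3, h4⟩ := mk D1 hD1
    refine ⟨w0, w1, h1, h3, fun v hv hv' => hne ?_⟩
    obtain ⟨t, e1, -⟩ := hv c D0 _ h2
    obtain ⟨t', e2, -⟩ := hv' c D1 _ h4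
    rw [e1] at e2
    exact (Prod.mk.inj (Option.some.inj e2)).1

end Pool.Agent.SplG
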