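import Pool.Agent.SplG.St
import Pool.Agent.SplK.Ch

set_option autoImplicit false
set_option linter.all false

/-!
# Module Dl (deciding many statements below a stage) difficulty 2

Let B := {w : RR K // Bl a w ∧ w ≤ rr a r0}. Apply `chain_lemma` to A := RR K × T, `le m' m := tw P a r0 m' ≤ tw P a r0 m`, index type J × B
(`#(J × B) ≤ μ * μ = μ`), `Pr (j, w) m := ∃ w', Bl a w' ∧ w' ≤ w ∧ tw P a w' m ∈ E j`.
* hcl: `star_lb` (a chain is directed: k = i or k = j; Big a #ι and #ι < #K from #ι ≤ μ).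
* hPr: if `tw P a w' m ∈ E j` and m' ≤ m then `tw P a w' m' ≤ tw P a w' m` by tw_mono (rr a w' ≤ rr a r0 since w' ≤ w ≤ rr a r0; for Bl a w' we have rr a w' = w'), so it is in E j (hEd).
* hstep: given m and (j, w): by density of E j there is z ≤ tw P a w m in E j. `tw_split`: w' := rr a z.r is Bl a, w' ≤ rr a w = w, z = tw P a w' (z.r, z.t), z ≤ tw P a w' m.
  `star_mix` with s = w', m, m' = (z.r, z.t): m'' with tw P a r0 m'' ≤ tw P a r0 m and tw P a w' m'' ≤ z, so it is in E j.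
* (rr a w = w for Bl a w: `cd_rs`.)
-/

namespace Pool.Agent.SplG

open Cardinal Pool.Agent.SplK

variable {K : Type} [LinearOrder K] [Stp K] {T : Type}

theorem dl_rr {a : K} {w : RR K} (h : Bl a w) : rr a w = w := RR.ext (cd_rs h)

theorem decide_lemma (P : RPos (RR K) T) (hP : P.Closed #K) (a : K) (r0 : RR K) (μ : Cardinal.{0}) (hμ : ℵ₀ ≤ μ)
    (hμa : Big a μ) (hμK : μ < #K) (hB : #{w : RR K // Bl a w ∧ w ≤ rr a r0} ≤ μ) (J : Type) (hJ : #J ≤ μ)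
    (E : J → Set (Star P)) (hE : ∀ j z, ∃ z' ≤ z, z' ∈ E j) (hEd : ∀ j, ∀ z ∈ E j, ∀ z' ≤ z, z' ∈ E j)
    (m : RR K × T) : ∃ m' : RR K × T, tw P a r0 m' ≤ tw P a r0 m ∧
      ∀ j, ∀ w : RR K, Bl a w → w ≤ rr a r0 → ∃ w' : RR K, Bl a w' ∧ w' ≤ w ∧ tw P a w' m' ∈ E j := by
  have hJB : #(J × {w : RR K // Bl a w ∧ w ≤ rr a r0}) ≤ μ := by
    rw [mk_prod, lift_id, lift_id]
    exact (mul_le_mul' hJ hB).trans (mul_eq_self hμ).le
  obtain ⟨m', hm', hall⟩ := chain_lemma (A := RR K × T)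
    (fun m' m => tw P a r0 m' ≤ tw P a r0 m) (fun m => le_rfl)
    (fun m m' m'' h1 h2 => le_trans h1 h2) μ hμ
    (fun ι f hι hch => by
      refine star_lb P hP a r0 (fun c hac hc => hι.trans_lt (hμa c hac hc)) (hι.trans_lt hμK) f ?_
      intro i j
      rcases hch i j with h | h
      · exact ⟨i, le_rfl, h⟩
      · exact ⟨j, h, le_rfl⟩)
    (J × {w : RR K // Bl a w ∧ w ≤ rr a r0}) hJB
    (fun jw m => ∃ w' : RR K, Bl a w' ∧ w' ≤ jw.2.1 ∧ tw P a w' m ∈ E jw.1)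
    (by
      rintro ⟨j, w, hw, hw2⟩ m m' ⟨w', h1, h2, h3⟩ hle
      refine ⟨w', h1, h2, hEd j _ h3 _ (tw_mono P hle ?_)⟩
      rw [dl_rr h1]
      exact le_trans h2 hw2)
    (by
      rintro ⟨j, w, hw, hw2⟩ m
      obtain ⟨z, hz, hzE⟩ := hE j (tw P a w m)
      obtain ⟨h1, h2, h3, h4⟩ := tw_split P hz
      obtain ⟨m'', h5, h6⟩ := star_mix P a (rr a z.r) m (z.r, z.t) (h3.ge.trans h4)
      refine ⟨m'', h5 r0, rr a z.r, h1, ?_, ?_⟩
      · rw [dl_rr hw] at h2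
        exact h2
      · exact hEd j _ hzE _ (le_trans h6 h3.ge)) m
  exact ⟨m', hm', fun j w hw hw2 => hall (j, ⟨w, hw, hw2⟩)⟩

end Pool.Agent.SplG
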