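import Pool.Agent.SplG.Ap2
import Pool.Agent.SplG.Ap3
import Pool.Agent.SplG.Ap4
import Pool.Agent.SplG.Dl
import Pool.Agent.SplK.Bf

set_option autoImplicit false
set_option linter.all false

/-!
# Ap5: the approximation property of the two-step iteration
-/

namespace Pool.Agent.SplG

open Cardinal Pool.Agent.SplK

variable {K : Type} [LinearOrder K] [Stp K] {T : Type}

theorem foq_mono {Q : Type} [Preorder Q] {S : Set Q} {E E' : Q} (h : FoQ S E) (h' : E' ≤ E) : FoQ S E' :=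
  fun E'' h'' => h E'' (h''.trans h')

theorem incq_mono {Q : Type} [Preorder Q] {S : Set Q} {E E' : Q} (h : IncQ S E) (h' : E' ≤ E) : IncQ S E' :=
  fun E'' h'' => h E'' (h''.trans h')

theorem foq_incq {Q : Type} [Preorder Q] {S : Set Q} {E : Q} (h : FoQ S E) (h' : IncQ S E) : False := by
  obtain ⟨E'', h1, h2⟩ := h E le_rfl
  exact h' E'' h1 h2

theorem incq_of_not {Q : Type} [Preorder Q] {S : Set Q} {E : Q} (h : ¬ FoQ S E) : ∃ E' ≤ E, IncQ S E' := by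
  unfold FoQ at h
  push Not at h
  exact h

theorem foq_of_not {Q : Type} [Preorder Q] {S : Set Q} {E : Q} (h : ¬ IncQ S E) : ∃ E' ≤ E, FoQ S E' := by
  unfold IncQ at h
  push Not at h
  obtain ⟨E', h1, C, h2, h3⟩ := h
  exact ⟨E', h1, fun E'' h4 => ⟨E'', le_rfl, C, h2, h4.trans h3⟩⟩

theorem ap_compat {u v : RR K} {i j : K} (hs : rr i u = rr j v) (hb : ∀ c, u.f.1 c ≠ none → c < j) :
    ∀ c D1 D2, cod u c = some D1 → cod v c = some D2 → D1 = D2 := by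
  intro c D1 D2 h1 h2
  obtain ⟨t1, h3⟩ := cod_eq h1
  obtain ⟨t2, h4⟩ := cod_eq h2
  have hcj : c < j := hb c (by rw [h3]; simp)
  have h5 : (rs j v.f).1 c = some (D2, t2) := by rw [rs_lt hcj]; exact h4
  have h6 : rs i u.f = rs j v.f := congrArg RR.f hs
  rw [← h6] at h5
  have hci : c < i := by
    by_contra hci
    rw [rs_ge (not_lt.mp hci)] at h5
    cases h5
  rw [rs_lt hci, h3] at h5
  exact (Prod.mk.inj (Option.some.inj h5)).1

theorem ap_two {a : K} {r' : RR K}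
    (hsplit : ∀ w : BS a r', ∃ w0 w1 : BS a r', w0.1 ≤ w.1 ∧ w1.1 ≤ w.1 ∧ ∀ v, v ≤ w0.1 → ¬ v ≤ w1.1)
    (w1 w2 : BS a r') : ∃ v1 v2 : BS a r', v1.1 ≤ w1.1 ∧ v2.1 ≤ w2.1 ∧ ∀ v, v ≤ v1.1 → ¬ v ≤ v2.1 := by
  obtain ⟨w20, w21, h1, h2, h3⟩ := hsplit w2
  by_cases h : ∀ v, v ≤ w1.1 → ¬ v ≤ w20.1
  · exact ⟨w1, w20, le_rfl, h1, h⟩
  · push Not at h
    obtain ⟨v, h4, h5⟩ := h
    have e1 : rr (sx a) v ≤ w1.1 := by
      have := rr_mono (sx a) h4
      rwa [dl_rr w1.2.1] at this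
    have e2 : rr (sx a) v ≤ w20.1 := by
      have := rr_mono (sx a) h5
      rwa [dl_rr w20.2.1] at this
    exact ⟨⟨rr (sx a) v, rs_mem v.ok, e1.trans w1.2.2⟩, w21, e1, h2, fun z hz => h3 z (hz.trans e2)⟩

theorem ap_c (P : RPos (RR K) T) {a : K} {r' : RR K}
    (hsplit : ∀ w : BS a r', ∃ w0 w1 : BS a r', w0.1 ≤ w.1 ∧ w1.1 ≤ w.1 ∧ ∀ v, v ≤ w0.1 → ¬ v ≤ w1.1)
    (X : K → Set (Star P)) (w : BS a r') (m : RR K × T)
    (hstar : ∀ m', tw P (sx a) r' m' ≤ tw P (sx a) r' m → ∀ w0 w1 : BS a r', w0.1 ≤ w.1 → w1.1 ≤ w.1 → ∀ x,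
      FoQ (X x) (tw P (sx a) w0.1 m') → IncQ (X x) (tw P (sx a) w1.1 m') → False)
    (y1 y2 : Star P) (h1 : y1 ≤ tw P (sx a) w.1 m) (h2 : y2 ≤ tw P (sx a) w.1 m)
    (hc : ∀ c D1 D2, cod y1.r c = some D1 → cod y2.r c = some D2 → D1 = D2)
    (x : K) (hx1 : FoQ (X x) y1) (hx2 : IncQ (X x) y2) : False := by
  obtain ⟨hb1, hw1, he1, hl1⟩ := tw_split P h1
  obtain ⟨hb2, hw2, he2, hl2⟩ := tw_split P h2
  have hww : rr (sx a) w.1 = w.1 := dl_rr w.2.1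
  rw [hww] at hw1 hw2
  obtain ⟨v1, v2, hv1, hv2, hv⟩ := ap_two hsplit ⟨rr (sx a) y1.r, hb1, hw1.trans w.2.2⟩
    ⟨rr (sx a) y2.r, hb2, hw2.trans w.2.2⟩
  dsimp only at hv1 hv2
  have hv1r : rr (sx a) v1.1 = v1.1 := dl_rr v1.2.1
  have hv2r : rr (sx a) v2.1 = v2.1 := dl_rr v2.2.1
  have hv1' : rr (sx a) v1.1 ≤ rr (sx a) (rr (sx a) y1.r) := rr_mono _ hv1
  have hv2' : rr (sx a) v2.1 ≤ rr (sx a) (rr (sx a) y2.r) := rr_mono _ hv2
  obtain ⟨U1, hU1, hU1'⟩ := ext_codes (sx a) y1.r y2.r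
  obtain ⟨U2, hU2, hU2'⟩ := ext_codes (sx a) y2.r y1.r
  obtain ⟨M, hM, hM'⟩ := ext_codes (sx a) m.1 U1
  have hU : ∀ c, sx a ≤ c → cod U2 c = cod U1 c := by
    intro c hac
    rw [hU1 c hac, hU2 c hac]
    rcases e1 : cod y1.r c with _ | D1
    · rcases e2 : cod y2.r c with _ | D2 <;> simp
    · rcases e2 : cod y2.r c with _ | D2
      · simp
      · simp [hc c D1 D2 e1 e2]
  have hMU : ∀ c, sx a ≤ c → cod M c = cod U1 c := by
    intro c hac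
    rw [hM c hac]
    rcases e1 : cod m.1 c with _ | D
    · simp
    · obtain ⟨t, ht⟩ := cod_eq e1
      obtain ⟨t', ht', -⟩ := h1.1 c D t (by
        change (cr (sx a) w.1 m.1).f.1 c = _
        rw [cr_f, ct_ge hac]
        exact ht)
      rw [hU1 c hac, cod_some ht']
      simp
  have hm1 : tw P (sx a) v1.1 (U1, y1.t) ≤ tw P (sx a) v1.1 (y1.r, y1.t) := ⟨hU1' v1.1, P.refl _ _⟩
  have hm2 : tw P (sx a) v2.1 (U2, y2.t) ≤ tw P (sx a) v2.1 (y2.r, y2.t) := ⟨hU2' v2.1, P.refl _ _⟩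
  have hy1 : tw P (sx a) v1.1 (y1.r, y1.t) ≤ y1 := (tw_base P hv1').trans he1.ge
  have hy2 : tw P (sx a) v2.1 (y2.r, y2.t) ≤ y2 := (tw_base P hv2').trans he2.ge
  have hn1 : tw P (sx a) v1.1 (y1.r, y1.t) ≤ tw P (sx a) v1.1 m := tw_mono P (he1.ge.trans hl1) hv1'
  have hn2 : tw P (sx a) v2.1 (y2.r, y2.t) ≤ tw P (sx a) v2.1 m := tw_mono P (he2.ge.trans hl2) hv2'
  obtain ⟨m', ha1, ha2, ha3, ha4⟩ := star_mix3 P (sx a) v1.1 (U1, y1.t) (M, m.2) m
    (fun c hac => (hMU c hac).symm) (hm1.trans hn1) (fun w => ⟨hM' w, P.refl _ _⟩)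
  obtain ⟨m'', hb1, hb2, hb3, hb4⟩ := star_mix3 P (sx a) v2.1 (U2, y2.t) m' m
    (fun c hac => (hU c hac).trans (ha1 c hac).symm) (hm2.trans hn2) ha4
  refine hstar m'' (hb4 r') v1 v2 (hv1.trans hw1) (hv2.trans hw2) x ?_ ?_
  · refine foq_mono hx1 (((hb3 v1.1 ?_).trans ha2).trans (hm1.trans hy1))
    rw [hv1r, hv2r]
    exact hv
  · exact incq_mono hx2 ((hb2.trans hm2).trans hy2)

theorem star_ap {W : Ultrafilter (Set K)} (hW : NFU #K K W) (P : RPos (RR K) T) (hP : P.Closed #K)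
    (X : K → Set (Star P)) (p : Star P)
    (hyp : ∀ b : K, ∀ q ≤ p, ∃ q' ≤ q, ∀ x < b, FoQ (X x) q' ∨ IncQ (X x) q') :
    ∃ q ≤ p, ∀ x, FoQ (X x) q ∨ IncQ (X x) q := by
  obtain ⟨r', hr', a, ha, hcard, hsplit⟩ := ap_base hW p.r
  have hp0 : tw P (sx a) r' (r', p.t) ≤ p := by
    constructor
    · change cr (sx a) r' r' ≤ p.r
      rw [cr_self]
      exact hr'
    · exact P.refl _ _
  have hμ : ℵ₀ ≤ #(Set.Iio a) := ha.unc.le
  have hμK : #(Set.Iio a) < #K := Stp.inac.seg a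
  have hbig : Big (sx a) #(Set.Iio a) := by
    intro c hac hc
    have hlt : a < c := sx_le_iff.mp hac
    have h1 := hc.seg ⟨a, hlt⟩
    refine lt_of_le_of_lt ?_ h1
    refine mk_le_of_injective (f := fun z : Set.Iio a => (⟨⟨z.1, z.2.trans hlt⟩, z.2⟩ : Set.Iio (⟨a, hlt⟩ : Set.Iio c))) ?_
    intro z z' h
    exact Subtype.ext (congrArg (fun u : Set.Iio (⟨a, hlt⟩ : Set.Iio c) => u.1.1) h)
  by_cases H : ∀ w : BS a r', ∀ m : RR K × T, tw P (sx a) r' m ≤ tw P (sx a) r' (r', p.t) →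
      ∃ m', tw P (sx a) r' m' ≤ tw P (sx a) r' m ∧ ∃ w0 w1 : BS a r', w0.1 ≤ w.1 ∧ w1.1 ≤ w.1 ∧ ∃ x,
        FoQ (X x) (tw P (sx a) w0.1 m') ∧ IncQ (X x) (tw P (sx a) w1.1 m')
  · obtain ⟨m, hm, hall⟩ := chain_lemma (A := {m : RR K × T // tw P (sx a) r' m ≤ tw P (sx a) r' (r', p.t)})
      (fun m' m => tw P (sx a) r' m'.1 ≤ tw P (sx a) r' m.1) (fun m => le_rfl)
      (fun m m' m'' h1 h2 => le_trans h1 h2) #(Set.Iio a) hμ
      (fun ι f hι hch => by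
        obtain ⟨m1, hm1⟩ := star_lb P hP (sx a) r' (ι := Option ι) (fun c hac hc => by
          refine lt_of_le_of_lt ?_ (hbig c hac hc)
          rw [mk_option]
          exact add_le_of_le hμ hι (one_le_aleph0.trans hμ)) (by
          refine lt_of_le_of_lt ?_ hμK
          rw [mk_option]
          exact add_le_of_le hμ hι (one_le_aleph0.trans hμ)) (fun o => o.elim (r', p.t) (fun i => (f i).1)) (by
          rintro (_ | i) (_ | j)
          · exact ⟨none, le_rfl, le_rfl⟩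
          · exact ⟨some j, (f j).2, le_rfl⟩
          · exact ⟨some i, le_rfl, (f i).2⟩
          · rcases hch i j with h | h
            · exact ⟨some i, le_rfl, h⟩
            · exact ⟨some j, h, le_rfl⟩)
        exact ⟨⟨m1, hm1 none⟩, fun i => hm1 (some i)⟩)
      (BS a r') hcard
      (fun w m => ∃ w0 w1 : BS a r', w0.1 ≤ w.1 ∧ w1.1 ≤ w.1 ∧ ∃ x,
        FoQ (X x) (tw P (sx a) w0.1 m.1) ∧ IncQ (X x) (tw P (sx a) w1.1 m.1))
      (by
        rintro w m m' ⟨w0, w1, h0, h1, x, h2, h3⟩ hle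
        refine ⟨w0, w1, h0, h1, x, foq_mono h2 (tw_mono P hle ?_), incq_mono h3 (tw_mono P hle ?_)⟩
        · rw [dl_rr w0.2.1]; exact w0.2.2
        · rw [dl_rr w1.2.1]; exact w1.2.2)
      (by
        rintro w ⟨m, hm⟩
        obtain ⟨m', hm', h⟩ := H w m hm
        exact ⟨⟨m', hm'.trans hm⟩, hm', h⟩)
      ⟨(r', p.t), le_rfl⟩
    choose w0 w1 h0 h1 xx hx0 hx1 using hall
    obtain ⟨b, hb⟩ := (Stp.inac (K := K)).reg (Set.range xx) (mk_range_le.trans_lt (hcard.trans_lt hμK))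
    obtain ⟨q, hq, hq'⟩ := hyp b (tw P (sx a) r' m.1) (m.2.trans hp0)
    obtain ⟨e1, e2, e3, e4⟩ := tw_split P hq
    obtain ⟨w, hw⟩ : ∃ w : BS a r', w.1 = rr (sx a) q.r := ⟨⟨rr (sx a) q.r, e1, e2⟩, rfl⟩
    rw [← hw] at e3 e4
    have key : ∀ v : BS a r', v.1 ≤ w.1 → tw P (sx a) v.1 (q.r, q.t) ≤ q ∧
        tw P (sx a) v.1 (q.r, q.t) ≤ tw P (sx a) v.1 m.1 := by
      intro v hv
      exact ⟨(tw_base P (rr_mono _ hv)).trans e3.ge, tw_mono P (e3.ge.trans e4) (rr_mono _ hv)⟩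
    rcases hq' (xx w) (hb _ ⟨w, rfl⟩) with h | h
    · exact (foq_incq (foq_mono h (key (w1 w) (h1 w)).1) (incq_mono (hx1 w) (key (w1 w) (h1 w)).2)).elim
    · exact (foq_incq (foq_mono (hx0 w) (key (w0 w) (h0 w)).2) (incq_mono h (key (w0 w) (h0 w)).1)).elim
  · push Not at H
    obtain ⟨w, m, hm, hstar⟩ := H
    have hstar' : ∀ m', tw P (sx a) r' m' ≤ tw P (sx a) r' m → ∀ w0 w1 : BS a r', w0.1 ≤ w.1 → w1.1 ≤ w.1 → ∀ x,
        FoQ (X x) (tw P (sx a) w0.1 m') → IncQ (X x) (tw P (sx a) w1.1 m') → False :=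
      fun m' h w0 w1 h0 h1 x hx0 hx1 => hstar m' h w0 w1 h0 h1 x hx0 hx1
    have hwp : tw P (sx a) w.1 m ≤ p := by
      refine ((tw_base P ?_).trans hm).trans hp0
      rw [dl_rr w.2.1]
      exact w.2.2
    by_contra hno
    push Not at hno
    have hz := fun γ : K => hyp γ (tw P (sx a) w.1 m) hwp
    choose z hz1 hz2 using hz
    have hx := fun γ : K => hno (z γ) ((hz1 γ).trans hwp)
    choose xx hxx1 hxx2 using hx
    have hy := fun γ : K => foq_of_not (hxx2 γ)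
    choose y hy1 hy2 using hy
    have hy' := fun γ : K => incq_of_not (hxx1 γ)
    choose y' hy'1 hy'2 using hy'
    obtain ⟨s, hs⟩ := cd_const hW id Function.injective_id (fun x => rr (kx id x) (y (kx id x)).r)
      (Filter.Eventually.of_forall fun x => rs_mem (y (kx id x)).r.ok)
    obtain ⟨s', hs'⟩ := cd_const hW id Function.injective_id (fun x => rr (kx id x) (y' (kx id x)).r)
      (Filter.Eventually.of_forall fun x => rs_mem (y' (kx id x)).r.ok)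
    have hun : ∀ b : K, ∃ i, b < i ∧ rr i (y i).r = s ∧ rr i (y' i).r = s' := by
      intro b
      obtain ⟨x, hx1, hx2, hx3⟩ := ((kx_large hW id Function.injective_id b).and (hs.and hs')).exists
      exact ⟨kx id x, hx1, hx2, hx3⟩
    obtain ⟨i, -, hi, hi'⟩ := hun Stp.bt
    obtain ⟨b1, hb1⟩ := (y i).r.f.2
    obtain ⟨b2, hb2⟩ := (y' i).r.f.2
    obtain ⟨j, hj0, hj, hj'⟩ := hun (max (max b1 b2) (xx i))
    have hxj : xx i < j := (le_max_right _ _).trans_lt hj0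
    have hb1j : b1 < j := ((le_max_left _ _).trans (le_max_left _ _)).trans_lt hj0
    have hb2j : b2 < j := ((le_max_right _ _).trans (le_max_left _ _)).trans_lt hj0
    have hc1 := ap_compat (hi.trans hj.symm) (fun c hc => (hb1 c hc).trans hb1j)
    have hc2 := ap_compat (hi'.trans hj'.symm) (fun c hc => (hb2 c hc).trans hb2j)
    rcases hz2 j (xx i) hxj with h | h
    · exact ap_c P hsplit X w m hstar' (y' j) (y' i) ((hy'1 j).trans (hz1 j)) ((hy'1 i).trans (hz1 i))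
        (fun c D1 D2 e1 e2 => (hc2 c D2 D1 e2 e1).symm) (xx i) (foq_mono h (hy'1 j)) (hy'2 i)
    · exact ap_c P hsplit X w m hstar' (y i) (y j) ((hy1 i).trans (hz1 i)) ((hy1 j).trans (hz1 j))
        (fun c D1 D2 e1 e2 => hc1 c D1 D2 e1 e2) (xx i) (hy2 i) (incq_mono h (hy1 j))

end Pool.Agent.SplG
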