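import Pool.Agent.SplG.Kd

set_option autoImplicit false
set_option linter.all false

/-!
# Module Cc (the chain condition of the preparation) difficulty 2

Here Θ = K, k = id, `hW : NFU #K K W`. Suppose A is an antichain with `#K ≤ #A`. Take an injective function `e : K → RR K` with values in A.
For x put a_x := kx id x, r_x := e a_x. Eventually `rr a_x r_x` is below a_x (`rs_mem`), so by `cd_const` there is s with
`rr a_x (e a_x) = s` eventually. The set {a : K | rr a (e a) = s} is unbounded in K (for each b, eventually b < a_x: `kx_large`).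
Take a in it with ..., and then a' > a in it which also bounds the support of e a (`(e a).f.2`). Put z := cr a' (e a) (e a')
(equal to e a below a', to e a' from a' on). z ≤ e a: for b in the support of e a we have b < a', so z has the same value (D, t) at b and
`leD D (rs b z) t t` (refl: `rs b z ∈ Cd b`). z ≤ e a': for b ≥ a' same value; for b < a' with (e a').f b = some (D, t): as rr a' (e a') = s =
rr a (e a), the value at b of e a' is s.f b = (rs a (e a).f) b, so b < a and (e a).f b = some (D, t), and z has the value (D, t) at b. So e a and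
e a' are compatible; a ≠ a' and e injective contradict the antichain property.
-/

namespace Pool.Agent.SplG

open Cardinal Pool.Agent.SplK

variable {K : Type} [LinearOrder K] [Stp K]

theorem rr_cc {W : Ultrafilter (Set K)} (hW : NFU #K K W) (A : Set (RR K))
    (hA : ∀ p ∈ A, ∀ q ∈ A, p ≠ q → ¬ ∃ z, z ≤ p ∧ z ≤ q) : #A < #K := by
  classical
  by_contra hc
  rw [not_lt] at hc
  obtain ⟨e0⟩ : Nonempty (K ↪ A) := hc
  set e : K → RR K := fun a => (e0 a).1 with he
  have heA : ∀ a, e a ∈ A := fun a => (e0 a).2
  have hinj : Function.Injective e := fun a b hab => e0.injective (Subtype.ext hab)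
  obtain ⟨s, hs⟩ := cd_const hW id Function.injective_id (fun x => rr (kx id x) (e (kx id x)))
    (Filter.Eventually.of_forall fun x => rs_mem (e (kx id x)).ok)
  have hun : ∀ b : K, ∃ a, b < a ∧ rr a (e a) = s := by
    intro b
    obtain ⟨x, hx, hx'⟩ := ((kx_large hW id Function.injective_id b).and hs).exists
    exact ⟨kx id x, hx, hx'⟩
  obtain ⟨a, -, ha⟩ := hun Stp.bt
  obtain ⟨b0, hb0⟩ := (e a).f.2
  obtain ⟨a', ha'1, ha'⟩ := hun (max a b0)
  have haa : a < a' := (le_max_left _ _).trans_lt ha'1
  have hba : b0 < a' := (le_max_right _ _).trans_lt ha'1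
  refine hA (e a) (heA a) (e a') (heA a') (fun h => haa.ne (hinj h)) ⟨cr a' (e a) (e a'), ?_, ?_⟩
  · intro b D t hb
    have hlt : b < a' := (hb0 b (by rw [hb]; exact Option.some_ne_none _)).trans hba
    have hv := (e a).ok.2 b D t hb
    refine ⟨t, ?_, (val_iff.mp hv.1).refl _ (rs_mem (cr a' (e a) (e a')).ok) t hv.2⟩
    rw [cr_f, ct_lt hlt]
    exact hb
  · intro b D t hb
    have hv := (e a').ok.2 b D t hb
    refine ⟨t, ?_, (val_iff.mp hv.1).refl _ (rs_mem (cr a' (e a) (e a')).ok) t hv.2⟩
    rw [cr_f]
    by_cases hlt : b < a'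
    · rw [ct_lt hlt]
      have h1 : (rs a' (e a').f).1 b = some (D, t) := by rw [rs_lt hlt]; exact hb
      have h2 : rs a' (e a').f = rs a (e a).f := congrArg RR.f (ha'.trans ha.symm)
      rw [h2] at h1
      by_cases hlt2 : b < a
      · rwa [rs_lt hlt2] at h1
      · rw [rs_ge (not_lt.mp hlt2)] at h1
        cases h1
    · rw [ct_ge (not_lt.mp hlt)]
      exact hb

end Pool.Agent.SplG
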