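import Pool.Agent.SplG.Ex

set_option autoImplicit false
set_option linter.all false

/-!
# Module Qm (the master condition) difficulty 3

Let V := h.val : Val a D, `und D = c '' x`, `c P.top = bt`. Put r0 := ex a D ⊤ bt. For t ∈ x let `b t := {r : RR K | r ≤ ex a D ⊤ (c t)}` (down closed) and, by
P.mix (b t) t P.top, choose τ t with τ t ≡ t at conditions in b t, and τ t ≡ P.top at conditions without extension in b t (≡ : P.le both ways).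
Claim: `P.Dir (fun t : x => τ t) r0`. Let t1 t2 ∈ x, r' ≤ r0. Choose r1 ≤ r' which is in b t1 or has no extension in b t1 (if no extension of r' is in b t1 take r1 = r', else
take r1 ∈ b t1); then r2 ≤ r1 which is in b t2 or has no extension in b t2. (Both properties pass to extensions.) Cases:
 - r2 ∈ b t1 and r2 ∈ b t2: as r2 ≤ ex a D ⊤ (c t1), r2 has a value (D, y) at a with y ∈ und D, y = c t3, t3 ∈ x, and `leD D (rr a r2).f (c t3) (c t1)`, also for t2.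
   By h.le (for s = rr a r2, Bl a: `rs_mem`): P.le (rr a r2) t3 t1 and t2; by mono (r2 ≤ rr a r2: `leF_rs_self`) at r2. And r2 ∈ b t3 (`le_ex_of`, leD refl), so τ t3 ≡ t3 at r2:
   take k = t3: τ t3 ≤ t3 ≤ t1 ≤ τ t1 at r2, same for t2.
 - r2 ∈ b t1, no extension in b t2: τ t2 ≡ top at r2: k = t1. Symmetric case k = t2. - none: τ t1 ≡ τ t2 ≡ top at r2: k = t1.
P.Closed #K (index type x, #x < #K) gives q with P.le r0 q (τ t) for all t ∈ x. For s with Bl a s and t ∈ x: ex a D s (c t) ≤ r0 and ∈ b t (`ex_le_iff`, le_top), so by mono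
q ≤ τ t ≤ t at ex a D s (c t).
-/

namespace Pool.Agent.SplG

open Cardinal Pool.Agent.SplK

variable {K : Type} [LinearOrder K] [Stp K] {T : Type}

theorem qm_dec (C : Set (RR K)) (r : RR K) : ∃ r' ≤ r, r' ∈ C ∨ ∀ r'' ≤ r', r'' ∉ C := by
  by_cases h : ∃ r' ≤ r, r' ∈ C
  · obtain ⟨r', h1, h2⟩ := h
    exact ⟨r', h1, Or.inl h2⟩
  · push Not at h
    exact ⟨r, le_rfl, Or.inr h⟩

/-- Two conditions of the generic at the stage `a` have a common extension in the trace. -/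
theorem qm_both (P : RPos (RR K) T) {x : Set T} {a D : K} {c : T → K} (h : Rfl P x a D c)
    {r : RR K} {t1 t2 : T} (ht1 : t1 ∈ x) (ht2 : t2 ∈ x) (h1 : r ≤ ex a D ⊤ (c t1)) (h2 : r ≤ ex a D ⊤ (c t2)) :
    ∃ t3 ∈ x, r ≤ ex a D ⊤ (c t3) ∧ P.le r t3 t1 ∧ P.le r t3 t2 := by
  have hc : ∀ t ∈ x, c t ∈ und D := fun t ht => by rw [h.und]; exact ⟨t, ht, rfl⟩
  obtain ⟨y, hy1, hy2⟩ := h1 a D (c t1) (ex_at h.val (hc t1 ht1) ⊤)
  obtain ⟨y', hy1', hy2'⟩ := h2 a D (c t2) (ex_at h.val (hc t2 ht2) ⊤)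
  have hyy : y' = y := by
    rw [hy1] at hy1'
    simp only [Option.some.injEq, Prod.mk.injEq, true_and] at hy1'
    exact hy1'.symm
  subst hyy
  have hyu : y' ∈ und D := (r.ok.2 a D y' hy1).2
  have hyx := hyu
  rw [h.und] at hyx
  obtain ⟨t3, ht3, rfl⟩ := hyx
  have hb : Bl a (rr a r) := rs_mem r.ok
  have hle : r ≤ rr a r := leF_rs_self a r.ok
  refine ⟨t3, ht3, ?_, ?_, ?_⟩
  · refine le_ex_of h.val hyu ⊤ r hy1 ?_ ?_
    · show leF _ (rs a emp)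
      rw [rs_emp]
      exact leF_emp _
    · exact (val_iff.mp h.val).refl _ (rs_mem r.ok) _ hyu
  · exact P.mono _ _ _ _ hle ((h.le (rr a r) hb t3 ht3 t1 ht1).mp hy2)
  · exact P.mono _ _ _ _ hle ((h.le (rr a r) hb t3 ht3 t2 ht2).mp hy2')

theorem master (P : RPos (RR K) T) (hP : P.Closed #K) {x : Set T} {a D : K} {c : T → K} (h : Rfl P x a D c)
    (hx : #x < #K) : ∃ q : T, ∀ s : RR K, Bl a s → ∀ t ∈ x, P.le (ex a D s (c t)) q t := by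
  have hc : ∀ t ∈ x, c t ∈ und D := fun t ht => by rw [h.und]; exact ⟨t, ht, rfl⟩
  have hV := val_iff.mp h.val
  have hdown : ∀ t : T, ∀ r ∈ {r : RR K | r ≤ ex a D ⊤ (c t)}, ∀ r' ≤ r, r' ∈ {r : RR K | r ≤ ex a D ⊤ (c t)} :=
    fun t r hr r' hr' => le_trans hr' hr
  choose τ hτ1 hτ2 using fun t : T => P.mix {r : RR K | r ≤ ex a D ⊤ (c t)} (hdown t) t P.top
  have hdir : P.Dir (fun t : x => τ t) (ex a D ⊤ Stp.bt) := by
    rintro ⟨t1, ht1⟩ ⟨t2, ht2⟩ r' hr'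
    obtain ⟨r1, hr1, hd1⟩ := qm_dec {r : RR K | r ≤ ex a D ⊤ (c t1)} r'
    obtain ⟨r2, hr2, hd2⟩ := qm_dec {r : RR K | r ≤ ex a D ⊤ (c t2)} r1
    have hd1' : r2 ∈ {r : RR K | r ≤ ex a D ⊤ (c t1)} ∨ ∀ r'' ≤ r2, r'' ∉ {r : RR K | r ≤ ex a D ⊤ (c t1)} := by
      rcases hd1 with hd1 | hd1
      · exact Or.inl (hdown t1 _ hd1 _ hr2)
      · exact Or.inr (fun r'' hr'' => hd1 r'' (hr''.trans hr2))
    refine ⟨r2, hr2.trans hr1, ?_⟩
    rcases hd1' with hA | hA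
    · rcases hd2 with hB | hB
      · obtain ⟨t3, ht3, h3, h31, h32⟩ := qm_both P h ht1 ht2 hA hB
        refine ⟨⟨t3, ht3⟩, ?_, ?_⟩
        · exact P.trans _ _ _ _ (hτ1 t3 r2 h3).1 (P.trans _ _ _ _ h31 (hτ1 t1 r2 hA).2)
        · exact P.trans _ _ _ _ (hτ1 t3 r2 h3).1 (P.trans _ _ _ _ h32 (hτ1 t2 r2 hB).2)
      · refine ⟨⟨t1, ht1⟩, P.refl _ _, ?_⟩
        exact P.trans _ _ _ _ (P.le_top _ _) (hτ2 t2 r2 hB).2
    · refine ⟨⟨t2, ht2⟩, ?_, P.refl _ _⟩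
      exact P.trans _ _ _ _ (P.le_top _ _) (hτ2 t1 r2 hA).2
  obtain ⟨q, hq⟩ := hP x (fun t : x => τ t) (ex a D ⊤ Stp.bt) hx hdir
  refine ⟨q, fun s hs t ht => ?_⟩
  have hsr : rs a s.f = s.f := cd_rs hs
  have htop : rr a s ≤ rr a (⊤ : RR K) := by
    show leF _ (rs a emp)
    rw [rs_emp]
    exact leF_emp _
  have hmem : (rr a s).f ∈ Cd a := rs_mem s.ok
  have h1 : ex a D s (c t) ≤ ex a D ⊤ Stp.bt :=
    (ex_le_iff h.val hV.bot (hc t ht) ⊤ s).mpr ⟨htop, hV.le_top _ hmem _ (hc t ht)⟩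
  have h2 : ex a D s (c t) ≤ ex a D ⊤ (c t) :=
    (ex_le_iff h.val (hc t ht) (hc t ht) ⊤ s).mpr ⟨htop, hV.refl _ hmem _ (hc t ht)⟩
  exact P.trans _ _ _ _ (P.mono _ _ _ _ h1 (hq ⟨t, ht⟩)) (hτ1 t _ h2).1

end Pool.Agent.SplG
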