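import Pool.Agent.SplG.Cw
import Pool.Agent.SplG.TrDefs

set_option autoImplicit false
set_option linter.all false

/-!
# Module RvA (the codes of the traces) difficulty 2

a_x := kx k x, x_T := {t | g t ∈ x}. Eventually: P.top ∈ x_T (fine), `#x_T ≤ pl #(Iio a_x) n` (`kx_card`), `#x < #K` (small) so `#x_T < #K`, Inac (Iio a_x), `#(Cd a_x) < #K`.
Fix such an x. Let l : K be the point with `#(Iio l) = #x_T`: there is l with `#x_T ≤ #(Iio l)` (`exists_seg`), take the least such l; then every proper initial segment of Iio l has size < #x_T, so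
`#(Iio l) ≤ #x_T` (as wellorder its type is ≤ (#x_T).ord). So there is a bijection x_T → Iio l (`Cardinal.eq`); composing with a transposition of Iio l (bt ∈ Iio l because x_T is nonempty) we may assume that P.top goes to bt.
Extend to c : T → K. Let S := {z | ∃ s0, Bl a_x s0 ∧ s0.f = z.1 ∧ ∃ y' ∈ x_T, ∃ y ∈ x_T, c y' = z.2.1 ∧ c y = z.2.2 ∧ P.le s0 y' y}: S is a subset of Cd a_x ×ˢ Iio l ×ˢ Iio l, so #S < #K (product of three infinite-or-finite
cardinals < #K). D := Stp.dec.symm ⟨S, _⟩.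
-/

namespace Pool.Agent.SplG

open Cardinal Pool.Agent.SplK

variable {K : Type} [LinearOrder K] [Stp K] {Θ : Type} {W : Ultrafilter (Set Θ)} {T : Type}

theorem rva_seg {X : Type} (hX : #X < #K) : ∃ l : K, #(Set.Iio l) = #X := by
  have hwf : WellFounded (fun a b : K => a < b) := wellFounded_lt
  have hne : {b : K | #X ≤ #(Set.Iio b)}.Nonempty := exists_seg Stp.inac hX
  refine ⟨hwf.min _ hne, le_antisymm ?_ (hwf.min_mem _ hne)⟩
  set l := hwf.min _ hne with hl
  by_contra hlt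
  rw [not_le] at hlt
  have h1 : (#X).ord < Ordinal.type (fun a b : Set.Iio l => a < b) := by
    refine lt_of_le_of_ne ?_ ?_
    · rw [Cardinal.ord_le, Ordinal.card_type]
      exact hlt.le
    · intro h
      have h2 := congrArg Ordinal.card h
      rw [Cardinal.card_ord, Ordinal.card_type] at h2
      exact hlt.ne h2
  obtain ⟨e, he⟩ := Ordinal.typein_surj (fun a b : Set.Iio l => a < b) h1
  have h3 : #{b : Set.Iio l // b < e} = #X := by
    have h4 := Ordinal.card_typein (r := fun a b : Set.Iio l => a < b) e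
    rw [he, Cardinal.card_ord] at h4
    exact h4.symm
  have h5 : #(Set.Iio e.1) = #{b : Set.Iio l // b < e} := by
    refine Cardinal.mk_congr ⟨fun b => ⟨⟨b.1, lt_trans b.2 e.2⟩, b.2⟩, fun b => ⟨b.1.1, b.2⟩,
      fun b => rfl, fun b => rfl⟩
  exact hwf.not_lt_min {b : K | #X ≤ #(Set.Iio b)} (h3.symm.trans h5.symm).le e.2

theorem exists_code (hW : NFU #K Θ W) (k : K → Θ) (hk : Function.Injective k) (g : T → Θ) (hg : Function.Injective g)
    (P : RPos (RR K) T) {n : ℕ} (hT : #T ≤ pl (2 ^ #K) n) :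
    ∀ᶠ x : Set Θ in (W : Filter (Set Θ)), ∃ (D : K) (c : T → K), IsCode P {t | g t ∈ x} (kx k x) D c := by
  classical
  filter_upwards [hW.fine (g P.top), hW.small, kx_card hW k hk n g hg hT] with x htop hsm hcard
  set X : Set T := {t | g t ∈ x} with hX
  have hXx : #X < #K := by
    refine lt_of_le_of_lt ?_ hsm
    exact mk_le_of_injective (f := fun t : X => (⟨g t.1, t.2⟩ : x)) (fun t t' h =>
      Subtype.ext (hg (congrArg Subtype.val h)))
  obtain ⟨l, hl⟩ := rva_seg hXx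
  obtain ⟨e⟩ := Cardinal.eq.1 hl.symm
  have hbt : Stp.bt < l := (Stp.bt_le (e ⟨P.top, htop⟩).1).trans_lt (e ⟨P.top, htop⟩).2
  let e' : X ≃ Set.Iio l := e.trans (Equiv.swap (e ⟨P.top, htop⟩) ⟨Stp.bt, hbt⟩)
  have he' : e' ⟨P.top, htop⟩ = ⟨Stp.bt, hbt⟩ := Equiv.swap_apply_left _ _
  let c : T → K := fun t => if h : t ∈ X then (e' ⟨t, h⟩).1 else Stp.bt
  have hc : ∀ t (h : t ∈ X), c t = (e' ⟨t, h⟩).1 := fun t h => dif_pos h
  have hcim : c '' X = Set.Iio l := by
    ext b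
    constructor
    · rintro ⟨t, ht, rfl⟩
      rw [hc t ht]
      exact (e' ⟨t, ht⟩).2
    · intro hb
      refine ⟨(e'.symm ⟨b, hb⟩).1, (e'.symm ⟨b, hb⟩).2, ?_⟩
      rw [hc _ (e'.symm ⟨b, hb⟩).2, Subtype.coe_eta, e'.apply_symm_apply]
  let S : Set (Fn K × K × K) := {z | ∃ s0 : RR K, Bl (kx k x) s0 ∧ s0.f = z.1 ∧ ∃ y' ∈ X, ∃ y ∈ X,
    c y' = z.2.1 ∧ c y = z.2.2 ∧ P.le s0 y' y}
  have hκ : ℵ₀ ≤ #K := (Stp.inac (K := K)).unc.le
  have hS : #S < #K := by
    have h1 : S ⊆ (Cd (kx k x)) ×ˢ ((Set.Iio l) ×ˢ (Set.Iio l)) := by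
      rintro ⟨z1, z2, z3⟩ ⟨s0, h1, h2, y', hy', y, hy, h3, h4, -⟩
      refine ⟨?_, ?_, ?_⟩
      · show z1 ∈ Cd (kx k x)
        rw [← show s0.f = z1 from h2]
        exact h1
      · show z2 ∈ Set.Iio l
        rw [← hcim]
        exact ⟨y', hy', h3⟩
      · show z3 ∈ Set.Iio l
        rw [← hcim]
        exact ⟨y, hy, h4⟩
    refine (mk_le_mk_of_subset h1).trans_lt ?_
    have hl2 : #(Set.Iio l) < #K := (Stp.inac (K := K)).seg l
    have h2 : #((Cd (kx k x)) ×ˢ ((Set.Iio l) ×ˢ (Set.Iio l)) : Set (Fn K × K × K)) =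
        #(Cd (kx k x)) * (#(Set.Iio l) * #(Set.Iio l)) := by
      rw [mk_setProd, mk_setProd]
    rw [h2]
    exact mul_lt_of_lt hκ (card_Cd_lt _) (mul_lt_of_lt hκ hl2 hl2)
  refine ⟨Stp.dec.symm ⟨S, hS⟩, c, ?_, htop, ?_, ⟨l, hcim, n, hl.le.trans hcard⟩, ?_⟩
  · intro t ht t' ht' h
    rw [hc t ht, hc t' ht'] at h
    exact congrArg Subtype.val (e'.injective (Subtype.ext h))
  · rw [hc _ htop, he']
  · intro s t' t
    unfold leD
    rw [Equiv.apply_symm_apply]
    exact Iff.rfl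

end Pool.Agent.SplG
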