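import Pool.Agent.SplG.Kd
import Pool.Agent.SplG.TrDefs

set_option autoImplicit false
set_option linter.all false

/-!
# Module TrB (mixing reflects) difficulty 3

a_x := kx k x, x_T := {t | g t ∈ x}. Suppose not: eventually there are b_x : Set (RR K) (elements below a_x, downward closed among the conditions below a_x), t_x, t'_x ∈ x_T
without a mixture in x_T. By `nfu_const` t_x = t, t'_x = t' eventually. Let b := {s | eventually s ∈ b_x}. b is downward closed in RR K: if s ∈ b, s' ≤ s then eventually s ∈ b_x and Bl a_x s'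
(`cd_large`), so s' ∈ b_x. Let t'' be a mixture given by P.mix b t t'. Claim: eventually t'' ∈ x_T (fine) and t'' is a mixture for b_x.
(i) eventually for all s ∈ b_x: P.le s t'' t ∧ P.le s t t''. By `cd_inter` eventually every s ∈ b_x (it is below a_x) is in b; then P.mix gives it.
(ii) eventually for all s with Bl a_x s and without extension in b_x (below a_x): P.le s t'' t' ∧ P.le s t' t''. By `cd_diag` it is enough to show this for fixed s. If s has no extension in b, the second part of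
P.mix gives the conclusion. If s' ≤ s, s' ∈ b then eventually s' ∈ b_x and Bl a_x s', so the hypothesis (no extension in b_x) fails eventually.
-/

namespace Pool.Agent.SplG

open Cardinal Pool.Agent.SplK

variable {K : Type} [LinearOrder K] [Stp K] {Θ : Type} {W : Ultrafilter (Set Θ)} {T : Type}

theorem tr_mix (hW : NFU #K Θ W) (k : K → Θ) (hk : Function.Injective k) (g : T → Θ) (hg : Function.Injective g)
    (P : RPos (RR K) T) : ∀ᶠ x : Set Θ in (W : Filter (Set Θ)), TrMix P {t | g t ∈ x} (kx k x) := by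
  by_contra hcon
  rw [← Ultrafilter.eventually_not] at hcon
  have hne : Nonempty T := ⟨P.top⟩
  have key : ∀ x : Set Θ, ¬ TrMix P {t | g t ∈ x} (kx k x) → ∃ (b : Set (RR K)) (t t' : T),
      (∀ s ∈ b, Bl (kx k x) s) ∧ (∀ s ∈ b, ∀ s', Bl (kx k x) s' → s' ≤ s → s' ∈ b) ∧ g t ∈ x ∧ g t' ∈ x ∧
      ∀ t'', g t'' ∈ x → ¬ ((∀ s ∈ b, P.le s t'' t ∧ P.le s t t'') ∧
        ∀ s, Bl (kx k x) s → (∀ s', Bl (kx k x) s' → s' ≤ s → s' ∉ b) → P.le s t'' t' ∧ P.le s t' t'') := by
    intro x hx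
    by_contra hno
    apply hx
    intro b hb1 hb2 t ht t' ht'
    by_contra hno2
    exact hno ⟨b, t, t', hb1, hb2, ht, ht', fun t'' ht'' hm => hno2 ⟨t'', ht'', hm⟩⟩
  choose! b t t' hb using key
  obtain ⟨t0, ht0⟩ := nfu_const hW g hg t (hcon.mono fun x hx => (hb x hx).2.2.1)
  obtain ⟨t0', ht0'⟩ := nfu_const hW g hg t' (hcon.mono fun x hx => (hb x hx).2.2.2.1)
  have hdown : ∀ s ∈ {s : RR K | ∀ᶠ x : Set Θ in (W : Filter (Set Θ)), s ∈ b x}, ∀ s' ≤ s,
      s' ∈ {s : RR K | ∀ᶠ x : Set Θ in (W : Filter (Set Θ)), s ∈ b x} := by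
    intro s hs s' hs'
    simp only [Set.mem_setOf_eq] at hs ⊢
    filter_upwards [hs, hcon, cd_large hW k hk s'] with x h1 h2 h3
    exact (hb x h2).2.1 s h1 s' h3 hs'
  obtain ⟨t'', h1, h2⟩ := P.mix {s : RR K | ∀ᶠ x : Set Θ in (W : Filter (Set Θ)), s ∈ b x} hdown t0 t0'
  have hneg : ∀ᶠ x : Set Θ in (W : Filter (Set Θ)), ∀ s, Bl (kx k x) s →
      (∀ s', Bl (kx k x) s' → s' ≤ s → s' ∉ b x) → P.le s t'' t0' ∧ P.le s t0' t'' := by
    refine cd_diag hW k hk (fun s x => (∀ s', Bl (kx k x) s' → s' ≤ s → s' ∉ b x) →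
      P.le s t'' t0' ∧ P.le s t0' t'') ?_
    intro s
    by_cases hs : ∀ s' ≤ s, s' ∉ {s : RR K | ∀ᶠ x : Set Θ in (W : Filter (Set Θ)), s ∈ b x}
    · exact Filter.Eventually.of_forall (fun x _ => h2 s hs)
    · push Not at hs
      obtain ⟨s', hs', hb'⟩ := hs
      simp only [Set.mem_setOf_eq] at hb'
      filter_upwards [hb', cd_large hW k hk s'] with x h3 h4 h5
      exact (h5 s' h4 hs' h3).elim
  have hpos := cd_inter hW k hk b
  obtain ⟨x, hx1, hx2, hx3, hx4, hx5, hx6⟩ :=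
    (hcon.and (ht0.and (ht0'.and (hneg.and (hpos.and (hW.fine (g t'')))))) ).exists
  have hbx := hb x hx1
  apply hbx.2.2.2.2 t'' hx6
  rw [hx2, hx3]
  exact ⟨fun s hs => h1 s ((hx5 s (hbx.1 s hs)).mp hs), hx4⟩

end Pool.Agent.SplG
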