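import Pool.Agent.SplK.Bf

set_option autoImplicit false
set_option linter.all false

/-!
# The properties of the preparation (without GCH)
-/

namespace Pool.Agent.SplG

open Cardinal Pool.Agent.SplK

/-- All antichains of `A` have size at most `#K`. -/
def CCK (K A : Type) [Preorder A] : Prop :=
  ∀ S : Set A, (∀ p ∈ S, ∀ q ∈ S, (∃ z, z ≤ p ∧ z ≤ q) → p = q) → #S ≤ #K

/-- The properties of the preparatory forcing `R`. -/
structure Prep (K : Type) [LinearOrder K] (R : Type) [Preorder R] [OrderTop R] : Prop where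
  card : #R ≤ #K
  cc : ∀ A : Set R, (∀ p ∈ A, ∀ q ∈ A, p ≠ q → ¬ ∃ z, z ≤ p ∧ z ≤ q) → #A < #K
  meas : ∀ (n : ℕ) (T : Type) (P : RPos R T), P.Closed #K → CCK K (Star P) → #T ≤ pl (2 ^ #K) n →
    ∃ μ, BMeas K (Star P) μ
  reg : ∀ (T : Type) (P : RPos R T), P.Closed #K → ∀ (b : K) (f : K → K → Set (Star P)) (p : Star P),
    ∃ q ≤ p, ∃ c : K, ∀ a < b, ∀ d, ∀ E ≤ q, BelQ (f a d) E → ∃ E' ≤ E, ∃ d' < c, BelQ (f a d') E'
  pw : ∃ F : K → Cardinal.{0}, (∀ b, F b < #K) ∧ (∀ b, Inac (Set.Iio b) → F b = 2 ^ #(Set.Iio b)) ∧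
    ∀ (T : Type) (P : RPos R T), P.Closed #K → ∀ (b : K) (p : Star P),
      ∃ q ≤ p, ∃ m : ℕ, ∃ z : (pl (F b) m).ord.ToType → K → Set (Star P), ∀ X : K → Set (Star P),
        ∀ q' ≤ q, ∃ q'' ≤ q', ∃ i, ∀ a < b, ∀ E ≤ q'', (FoQ (X a) E ↔ FoQ (z i a) E)
  ap : ∀ (T : Type) (P : RPos R T), P.Closed #K → ∀ (X : K → Set (Star P)) (p : Star P),
    (∀ b : K, ∀ q ≤ p, ∃ q' ≤ q, ∀ x < b, FoQ (X x) q' ∨ IncQ (X x) q') →
    ∃ q ≤ p, ∀ x, FoQ (X x) q ∨ IncQ (X x) q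

end Pool.Agent.SplG
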