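import Pool.Agent.SplG.Kd
import Pool.Agent.SplG.TrDefs
import Pool.Agent.SplG.PrepDefs

set_option autoImplicit false
set_option linter.all false

/-!
# The chain condition reflects

Suppose that for almost all `x` there is an antichain `A_x` of the trace with more than `#(Iio a_x)` elements. `A = {z | eventually z ∈ A_x}` is an
antichain of the two-step iteration, so `#A ≤ #K`. By normality eventually `A_x = A ∩ (trace)`, and with an injection `e : A → K` eventually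
`e z < a_x` for all `z ∈ A ∩ (trace)`.
-/

namespace Pool.Agent.SplG

open Cardinal Pool.Agent.SplK

variable {K : Type} [LinearOrder K] [Stp K] {Θ : Type} {W : Ultrafilter (Set Θ)} {T : Type}

/-- Normality for pairs. -/
theorem trD_diag (hW : NFU #K Θ W) (k : K → Θ) (hk : Function.Injective k) (g : T → Θ) (hg : Function.Injective g)
    (p : RR K × T → Set Θ → Prop) (h : ∀ z, ∀ᶠ x : Set Θ in (W : Filter (Set Θ)), p z x) :
    ∀ᶠ x : Set Θ in (W : Filter (Set Θ)), ∀ z : RR K × T, Bl (kx k x) z.1 → g z.2 ∈ x → p z x := by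
  have h1 := cd_diag hW k hk (fun s x => ∀ t, g t ∈ x → p (s, t) x)
    (fun s => nfu_diag hW g hg _ (fun t => h (s, t)))
  filter_upwards [h1] with x hx z hz1 hz2
  exact hx z.1 hz1 z.2 hz2

theorem tr_cc (hW : NFU #K Θ W) (k : K → Θ) (hk : Function.Injective k) (g : T → Θ) (hg : Function.Injective g)
    (P : RPos (RR K) T) (hcc : CCK K (Star P)) :
    ∀ᶠ x : Set Θ in (W : Filter (Set Θ)), TrCc P {t | g t ∈ x} (kx k x) := by
  classical
  by_contra hcon
  rw [← Ultrafilter.eventually_not] at hcon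
  have key : ∀ x : Set Θ, ∃ A : Set (RR K × T), ¬ TrCc P {t | g t ∈ x} (kx k x) →
      (∀ z ∈ A, Bl (kx k x) z.1 ∧ g z.2 ∈ x) ∧
      (∀ z ∈ A, ∀ y ∈ A, (∃ s, Bl (kx k x) s ∧ ∃ t, g t ∈ x ∧ s ≤ z.1 ∧ s ≤ y.1 ∧ P.le s t z.2 ∧ P.le s t y.2) →
        z = y) ∧ ¬ #A ≤ #(Set.Iio (kx k x)) := by
    intro x
    by_cases hx : TrCc P {t | g t ∈ x} (kx k x)
    · exact ⟨∅, fun h => absurd hx h⟩
    · unfold TrCc at hx
      push Not at hx
      obtain ⟨A, h1, h2, h3⟩ := hx
      refine ⟨A, fun _ => ⟨h1, fun z hz y hy h => h2 z hz y hy ?_, not_le.mpr h3⟩⟩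
      obtain ⟨s, hs, t, ht, h4⟩ := h
      exact ⟨s, hs, t, ht, h4⟩
  choose A hA using key
  obtain ⟨B, hB⟩ : ∃ B : Set (RR K × T), B = {z | ∀ᶠ x : Set Θ in (W : Filter (Set Θ)), z ∈ A x} := ⟨_, rfl⟩
  have hBcard : #B ≤ #K := by
    have h1 := hcc ((fun z : RR K × T => (⟨z.1, z.2⟩ : Star P)) '' B) (by
      rintro _ ⟨z, hz, rfl⟩ _ ⟨y, hy, rfl⟩ ⟨u, hu1, hu2⟩
      rw [hB] at hz hy
      obtain ⟨x, hx1, hx2, hx3, hx4, hx5⟩ :=
        (hcon.and ((hz : ∀ᶠ x : Set Θ in (W : Filter (Set Θ)), z ∈ A x).and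
          ((hy : ∀ᶠ x : Set Θ in (W : Filter (Set Θ)), y ∈ A x).and
          ((cd_large hW k hk u.r).and (hW.fine (g u.t)))))).exists
      have h2 := (hA x hx1).2.1 z hx2 y hx3 ⟨u.r, hx4, u.t, hx5, hu1.1, hu2.1, hu1.2, hu2.2⟩
      rw [h2])
    have hinj : Function.Injective (fun z : RR K × T => (⟨z.1, z.2⟩ : Star P)) := by
      intro z y h
      have e1 : z.1 = y.1 := congrArg Star.r h
      have e2 : z.2 = y.2 := congrArg Star.t h
      exact Prod.ext e1 e2
    rwa [mk_image_eq hinj] at h1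
  obtain ⟨e⟩ := hBcard
  have h1 := trD_diag hW k hk g hg (fun z x => (z ∈ A x → z ∈ B) ∧ ∀ h : z ∈ B, e ⟨z, h⟩ < kx k x) (fun z => by
    refine Filter.Eventually.and ?_ ?_
    · by_cases h : z ∈ B
      · exact Filter.Eventually.of_forall (fun x _ => h)
      · have h2 : ¬ ∀ᶠ x : Set Θ in (W : Filter (Set Θ)), z ∈ A x := by
          intro h3
          apply h
          rw [hB]
          exact h3
        exact (Ultrafilter.eventually_not.mpr h2).mono (fun x hx h3 => (hx h3).elim)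
    · by_cases h : z ∈ B
      · exact (kx_large hW k hk (e ⟨z, h⟩)).mono (fun x hx _ => hx)
      · exact Filter.Eventually.of_forall (fun x h' => absurd h' h))
  obtain ⟨x, hx1, hx2⟩ := (hcon.and h1).exists
  obtain ⟨h3, -, h4⟩ := hA x hx1
  apply h4
  refine mk_le_of_injective (f := fun z : A x => (⟨e ⟨z.1, (hx2 z.1 (h3 z.1 z.2).1 (h3 z.1 z.2).2).1 z.2⟩,
    (hx2 z.1 (h3 z.1 z.2).1 (h3 z.1 z.2).2).2 _⟩ : Set.Iio (kx k x))) ?_
  intro z y h
  have h5 := e.injective (congrArg (fun w : Set.Iio (kx k x) => w.1) h)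
  exact Subtype.ext (congrArg (fun w : B => w.1) h5)

end Pool.Agent.SplG
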