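import Pool.Agent.SplG.MuA
import Pool.Agent.SplG.Mx
import Pool.Agent.SplG.TrA
import Pool.Agent.SplG.TrB
import Pool.Agent.SplG.TrC
import Pool.Agent.SplG.TrD
import Pool.Agent.SplG.RvA
import Pool.Agent.SplG.RvC

set_option autoImplicit false
set_option linter.all false

/-!
# Property (H)

`Θ := K ⊕ T ⊕ (K × Star P) ⊕ (K → Set (Star P))`.
-/

namespace Pool.Agent.SplG

open Cardinal Pool.Agent.SplK

/-- `κ` is supercompact. -/
def SCpt (κ : Cardinal.{0}) : Prop := ∀ Θ : Type, ∃ W : Ultrafilter (Set Θ), NFU κ Θ W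

variable {K : Type} [LinearOrder K] [Stp K] {T : Type}

theorem mub_star (n : ℕ) (P : RPos (RR K) T) (hT : #T ≤ pl (2 ^ #K) n) : #(K × Star P) ≤ pl (2 ^ #K) n := by
  have hκ : ℵ₀ ≤ #K := (Stp.inac (K := K)).unc.le
  have hκ2 : ℵ₀ ≤ 2 ^ #K := hκ.trans (cantor _).le
  have hK : #K ≤ pl (2 ^ #K) n := (cantor _).le.trans (le_pl _ _)
  have h1 : #(Star P) ≤ #(RR K × T) := by
    refine mk_le_of_injective (f := fun z : Star P => (z.r, z.t)) ?_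
    rintro ⟨r, t⟩ ⟨r', t'⟩ h
    have e1 : r = r' := congrArg Prod.fst h
    have e2 : t = t' := congrArg Prod.snd h
    rw [e1, e2]
  have h2 : #(Star P) ≤ pl (2 ^ #K) n := by
    refine h1.trans ?_
    rw [mk_prod, lift_id, lift_id]
    exact mul_le_pl hκ2 (card_RR_le.trans hK) hT
  rw [mk_prod, lift_id, lift_id]
  exact mul_le_pl hκ2 hK h2

theorem mub_x {A B C D : Type} (x : Set (A ⊕ B ⊕ C ⊕ D)) (μ : Cardinal.{0}) (hμ : ℵ₀ ≤ μ)
    (h1 : #{a | (Sum.inl a : A ⊕ B ⊕ C ⊕ D) ∈ x} ≤ μ)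
    (h2 : #{a | (Sum.inr (Sum.inl a) : A ⊕ B ⊕ C ⊕ D) ∈ x} ≤ μ)
    (h3 : #{a | (Sum.inr (Sum.inr (Sum.inl a)) : A ⊕ B ⊕ C ⊕ D) ∈ x} ≤ μ)
    (h4 : #{a | (Sum.inr (Sum.inr (Sum.inr a)) : A ⊕ B ⊕ C ⊕ D) ∈ x} ≤ μ) : #x ≤ μ := by
  have hsub : x ⊆ (Sum.inl '' {a | (Sum.inl a : A ⊕ B ⊕ C ⊕ D) ∈ x}) ∪
      (((fun a => Sum.inr (Sum.inl a)) '' {a | (Sum.inr (Sum.inl a) : A ⊕ B ⊕ C ⊕ D) ∈ x}) ∪
      (((fun a => Sum.inr (Sum.inr (Sum.inl a))) '' {a | (Sum.inr (Sum.inr (Sum.inl a)) : A ⊕ B ⊕ C ⊕ D) ∈ x}) ∪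
      ((fun a => Sum.inr (Sum.inr (Sum.inr a))) '' {a | (Sum.inr (Sum.inr (Sum.inr a)) : A ⊕ B ⊕ C ⊕ D) ∈ x}))) := by
    rintro (a | a | a | a) ha
    · exact Or.inl ⟨a, ha, rfl⟩
    · exact Or.inr (Or.inl ⟨a, ha, rfl⟩)
    · exact Or.inr (Or.inr (Or.inl ⟨a, ha, rfl⟩))
    · exact Or.inr (Or.inr (Or.inr ⟨a, ha, rfl⟩))
  refine (mk_le_mk_of_subset hsub).trans ?_
  have hu : ∀ S S' : Set (A ⊕ B ⊕ C ⊕ D), #S ≤ μ → #S' ≤ μ → #(S ∪ S' : Set (A ⊕ B ⊕ C ⊕ D)) ≤ μ := fun S S' h h' =>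
    (mk_union_le S S').trans (add_le_of_le hμ h h')
  exact hu _ _ (mk_image_le.trans h1) (hu _ _ (mk_image_le.trans h2) (hu _ _ (mk_image_le.trans h3)
    (mk_image_le.trans h4)))

/-- Property (H): `K` stays measurable after the preparation followed by a small closed forcing. -/
theorem meas (hsc : SCpt #K) (n : ℕ) (P : RPos (RR K) T) (hP : P.Closed #K) (hcc : CCK K (Star P))
    (hT : #T ≤ pl (2 ^ #K) n) : ∃ μ, BMeas K (Star P) μ := by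
  obtain ⟨W, hW⟩ := hsc (K ⊕ T ⊕ (K × Star P) ⊕ (K → Set (Star P)))
  have hk : Function.Injective (Sum.inl : K → K ⊕ T ⊕ (K × Star P) ⊕ (K → Set (Star P))) := Sum.inl_injective
  have hgi : Function.Injective (fun t : T => (Sum.inr (Sum.inl t) : K ⊕ T ⊕ (K × Star P) ⊕ (K → Set (Star P)))) :=
    fun t t' h => Sum.inl_injective (Sum.inr_injective h)
  have hzi : Function.Injective (fun t : K × Star P =>
      (Sum.inr (Sum.inr (Sum.inl t)) : K ⊕ T ⊕ (K × Star P) ⊕ (K → Set (Star P)))) :=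
    fun t t' h => Sum.inl_injective (Sum.inr_injective (Sum.inr_injective h))
  have hj : Function.Injective (fun Z : K → Set (Star P) =>
      (Sum.inr (Sum.inr (Sum.inr Z)) : K ⊕ T ⊕ (K × Star P) ⊕ (K → Set (Star P)))) :=
    fun t t' h => Sum.inr_injective (Sum.inr_injective (Sum.inr_injective h))
  have he : Function.Injective (fun (Z : K → Set (Star P)) => ({y | y.2 ∈ Z y.1} : Set (K × Star P))) := by
    intro Z Z' h
    funext a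
    ext y
    have h1 : (a, y) ∈ ({y | y.2 ∈ Z y.1} : Set (K × Star P)) ↔ (a, y) ∈ ({y | y.2 ∈ Z' y.1} : Set (K × Star P)) := by
      dsimp only at h
      rw [h]
    exact h1
  refine bmeas_of_mdata hW Sum.inl hk (fun t : T => Sum.inr (Sum.inl t)) hgi P
    (fun Z => Sum.inr (Sum.inr (Sum.inr Z))) hj ?_
  filter_upwards [kx_inac hW Sum.inl hk, tr_den hW Sum.inl hk _ hgi P, tr_mix hW Sum.inl hk _ hgi P,
    tr_clo hW Sum.inl hk _ hgi P hP, exists_code hW Sum.inl hk _ hgi P hT, hW.small,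
    kx_spec hW Sum.inl hk, tr_cc hW Sum.inl hk _ hgi P hcc, kx_card hW Sum.inl hk n _ hgi hT,
    kx_card hW Sum.inl hk n _ hzi (mub_star n P hT), kx_pow hW _ hj _ hzi _ he] with x h1 h2 h3 h4 h5 h6 h7 h8 h9 h10 h11
  obtain ⟨D, c, hcode⟩ := h5
  have hR := rfl_of_code P hcode h1 h2 h3 h4 h8
  have hinf : ℵ₀ ≤ #(Set.Iio (kx Sum.inl x)) := h1.unc.le
  have hb : pl (2 ^ #(Set.Iio (kx Sum.inl x))) n ≤ 2 ^ pl (2 ^ #(Set.Iio (kx Sum.inl x))) n := (cantor _).le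
  have hb0 : #(Set.Iio (kx Sum.inl x)) ≤ pl (2 ^ #(Set.Iio (kx Sum.inl x))) n := (cantor _).le.trans (le_pl _ _)
  have hx : #x ≤ 2 ^ pl (2 ^ #(Set.Iio (kx Sum.inl x))) n := by
    refine mub_x x _ (hinf.trans (hb0.trans hb)) ?_ (h9.trans hb) (h10.trans hb) ?_
    · refine le_trans ?_ (hb0.trans hb)
      exact mk_le_of_injective (f := fun a : {a | (Sum.inl a : K ⊕ T ⊕ (K × Star P) ⊕ (K → Set (Star P))) ∈ x} =>
        (⟨a.1, (h7 a.1).1 a.2⟩ : Set.Iio (kx Sum.inl x)))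
        (fun a b hab => Subtype.ext (congrArg (fun z : Set.Iio (kx Sum.inl x) => z.1) hab))
    · exact h11.trans (power_le_power_left two_ne_zero h10)
  obtain ⟨h12, h13, h14⟩ := kx_big Sum.inl hk h7 h1 n hx
  obtain ⟨m, hm⟩ := exists_mdata P hP
    {Z | (Sum.inr (Sum.inr (Sum.inr Z)) : K ⊕ T ⊕ (K × Star P) ⊕ (K → Set (Star P))) ∈ x} hR
    #x h13 h6 h12
    (mk_le_of_injective (f := fun t : {t : T | (Sum.inr (Sum.inl t) : K ⊕ T ⊕ (K × Star P) ⊕ (K → Set (Star P))) ∈ x} =>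
      (⟨_, t.2⟩ : x)) (fun t t' h => Subtype.ext (hgi (congrArg Subtype.val h))))
    (mk_le_of_injective (f := fun t : {Z : K → Set (Star P) |
      (Sum.inr (Sum.inr (Sum.inr Z)) : K ⊕ T ⊕ (K × Star P) ⊕ (K → Set (Star P))) ∈ x} =>
      (⟨_, t.2⟩ : x)) (fun t t' h => Subtype.ext (hj (congrArg Subtype.val h)))) h14
  exact ⟨D, c, m, hm⟩

end Pool.Agent.SplG
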