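import Pool.Agent.SplK.Ar

set_option autoImplicit false
set_option linter.all false

/-!
# The formula of Hausdorff
-/

namespace Pool.Agent.SplG

open Cardinal Pool.Agent.SplK

theorem hf_bdd (δ : Cardinal.{0}) (hδ : δ.IsRegular) (S : Set δ.ord.ToType) (hS : #S < δ) :
    ∃ ζ, ∀ x ∈ S, x < ζ := by
  rw [← not_isCofinal_iff]
  intro h
  have h1 := Order.cof_le h
  rw [Ordinal.cof_toType, hδ.cof_ord] at h1
  exact absurd hS (not_lt.mpr h1)

theorem hf_succ {κ c : Cardinal.{0}} (hκ : ℵ₀ ≤ κ) (hc : κ ≤ c) (h : c ^ κ ≤ c) :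
    Order.succ c ^ κ ≤ Order.succ c := by
  have hc0 : ℵ₀ ≤ c := hκ.trans hc
  have hreg := Cardinal.isRegular_succ hc0
  have hbd : ∀ f : κ.out → (Order.succ c).ord.ToType, ∃ x, ∀ z, f z < x := by
    intro f
    obtain ⟨x, hx⟩ := hf_bdd _ hreg (Set.range f) (by
      refine mk_range_le.trans_lt ?_
      rw [mk_out]
      exact hc.trans_lt (Order.lt_succ c))
    exact ⟨x, fun z => hx _ ⟨z, rfl⟩⟩
  choose b hb using hbd
  have h1 : #(κ.out → (Order.succ c).ord.ToType) ≤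
      #(Σ x : (Order.succ c).ord.ToType, (κ.out → Set.Iio x)) := by
    refine mk_le_of_injective (f := fun f => ⟨b f, fun z => ⟨f z, hb f z⟩⟩) ?_
    intro f g hfg
    obtain ⟨h2, h3⟩ := Sigma.mk.inj_iff.mp hfg
    have h4 : ∀ (x y : (Order.succ c).ord.ToType) (u : κ.out → Set.Iio x) (v : κ.out → Set.Iio y), x = y → HEq u v →
        ∀ z, (u z).1 = (v z).1 := by
      rintro x y u v rfl huv z
      rw [eq_of_heq huv]
    funext z
    exact h4 _ _ _ _ h2 h3 z
  have h2 : #(κ.out → (Order.succ c).ord.ToType) = Order.succ c ^ κ := by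
    rw [← power_def, mk_out, mk_ord_toType]
  rw [← h2]
  refine h1.trans ?_
  rw [mk_sigma]
  refine (sum_le_sum _ (fun _ => c) (fun x => ?_)).trans ?_
  · rw [← power_def, mk_out]
    refine le_trans (power_le_power_right ?_) h
    exact Order.lt_succ_iff.1 (Cardinal.mk_Iio_ord_toType _)
  · rw [sum_const', mk_ord_toType]
    exact (mul_le_mul' le_rfl (Order.le_succ c)).trans (mul_eq_self (hc0.trans (Order.le_succ c))).le

/-- `((2 ^ κ)⁺ⁿ) ^ κ = (2 ^ κ)⁺ⁿ`. -/
theorem hf_pl {κ : Cardinal.{0}} (hκ : ℵ₀ ≤ κ) (n : ℕ) : pl (2 ^ κ) n ^ κ ≤ pl (2 ^ κ) n := by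
  induction n with
  | zero =>
    rw [pl_zero, ← power_mul, mul_eq_self hκ]
  | succ n ih =>
    rw [pl_succ]
    exact hf_succ hκ ((cantor _).le.trans (le_pl _ _)) ih

end Pool.Agent.SplG
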