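import Pool.Agent.SplG.RDefs2

set_option autoImplicit false
set_option linter.all false

/-!
# Module Ex (conditions up to an active stage) difficulty 2

`ex a D s t` (RDefs2; `ex_f`): equal to s below a, value (D, t) at a, undefined above. Assume `Val a D` and t, t' ∈ und D.
* `rr_ex`: `rr a (ex a D s t) = rr a s`. `ex_bl`: the support is ≤ a, so below `sx a`.
* `ex_le_iff`: use `leF_split` at a; the part from a on has only the value at a; the context is `rs a (ex a D s' t').f = rs a s'.f`.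
* `ex_surj`: w below sx a, w ≤ ex a D ⊤ bt: at a the latter has the value (D, bt), so w.f a = some (D, t), t ∈ und D (w is Ok) and w = ex a D w t
  (below a equal, at a equal, above a: none by `cd_supp`, `sx_le_iff`).
* `cr_ex_le`: if Bl a s then `cr (sx a) (ex a D s t) u ≤ s`: at b in the support of s, b < a (`cd_supp`), the value is that of s: refl.
-/

namespace Pool.Agent.SplG

open Cardinal Pool.Agent.SplK

variable {K : Type} [LinearOrder K] [Stp K]

theorem rr_ex {a D t : K} (hV : Val a D) (ht : t ∈ und D) (s : RR K) : rr a (ex a D s t) = rr a s := by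
  apply RR.ext
  rw [rr_f, rr_f, ex_f hV ht, rs_ct le_rfl]

theorem ex_at {a D t : K} (hV : Val a D) (ht : t ∈ und D) (s : RR K) : (ex a D s t).f.1 a = some (D, t) := by
  rw [ex_f hV ht, ct_ge le_rfl, pt_self]

theorem ex_bl {a D t : K} (hV : Val a D) (ht : t ∈ und D) (s : RR K) : Bl (sx a) (ex a D s t) := by
  show (ex a D s t).f ∈ Cd (sx a)
  rw [mem_Cd]
  refine ⟨(ex a D s t).ok, ?_⟩
  apply Fn.ext
  intro b
  by_cases hb : b < sx a
  · rw [rs_lt hb]
  · have hb' := sx_le_iff.mp (not_lt.mp hb)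
    rw [rs_ge (not_lt.mp hb), ex_f hV ht, ct_ge hb'.le, pt_ne hb'.ne']

theorem ex_aux_rs {a D t : K} (hV : Val a D) (ht : t ∈ und D) (s : RR K) :
    rs a (ex a D s t).f = rs a s.f := by
  rw [ex_f hV ht, rs_ct le_rfl]

theorem ex_aux_gt {a D t b : K} (hV : Val a D) (ht : t ∈ und D) (s : RR K) (hb : a < b) :
    (ex a D s t).f.1 b = none := by
  rw [ex_f hV ht, ct_ge hb.le, pt_ne hb.ne']

/-- A condition with the value `(D, t)` at `a` is below `ex a D s t` if it is below `s` below `a`. -/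
theorem le_ex_of {a D t t' : K} (hV : Val a D) (ht : t ∈ und D) (s w : RR K) (hw : w.f.1 a = some (D, t'))
    (hs : rr a w ≤ rr a s) (hl : leD D (rr a w).f t' t) : w ≤ ex a D s t := by
  show leF w.f (ex a D s t).f
  rw [leF_split (a := a)]
  constructor
  · rw [ex_aux_rs hV ht]
    exact hs
  · intro b hb D₁ t₁ h1
    rcases hb.eq_or_lt with rfl | hb
    · rw [ex_at hV ht] at h1
      obtain ⟨rfl, rfl⟩ : D = D₁ ∧ t = t₁ := by simpa using h1
      exact ⟨t', hw, hl⟩
    · rw [ex_aux_gt hV ht s hb] at h1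
      cases h1

theorem ex_le_iff {a D t t' : K} (hV : Val a D) (ht : t ∈ und D) (ht' : t' ∈ und D) (s s' : RR K) :
    ex a D s' t' ≤ ex a D s t ↔ rr a s' ≤ rr a s ∧ leD D (rr a s').f t' t := by
  constructor
  · intro h
    have h0 : leF (ex a D s' t').f (ex a D s t).f := h
    rw [leF_split (a := a)] at h0
    obtain ⟨h1, h2⟩ := h0
    rw [ex_aux_rs hV ht, ex_aux_rs hV ht'] at h1
    refine ⟨h1, ?_⟩
    obtain ⟨t₁, h3, h4⟩ := h2 a le_rfl D t (ex_at hV ht s)
    rw [ex_at hV ht'] at h3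
    have h5 : t' = t₁ := by simpa using h3
    subst h5
    rw [ex_aux_rs hV ht'] at h4
    exact h4
  · rintro ⟨h1, h2⟩
    refine le_ex_of hV ht s _ (ex_at hV ht' s') ?_ ?_
    · rw [rr_ex hV ht']
      exact h1
    · rw [rr_ex hV ht']
      exact h2

theorem ex_surj {a D : K} (hV : Val a D) {w : RR K} (hw : Bl (sx a) w) (h : w ≤ ex a D ⊤ Stp.bt) :
    ∃ t ∈ und D, w = ex a D (rr a w) t := by
  have hb : (Stp.bt : K) ∈ und D := (val_iff.mp hV).bot
  obtain ⟨t, ht1, ht2⟩ := h a D Stp.bt (ex_at hV hb ⊤)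
  have htD : t ∈ und D := (w.ok.2 a D t ht1).2
  refine ⟨t, htD, ?_⟩
  apply RR.ext
  apply Fn.ext
  intro b
  rcases lt_trichotomy b a with hba | rfl | hba
  · rw [ex_f hV htD, ct_lt hba, rr_f, rs_lt hba]
  · rw [ex_at hV htD, ht1]
  · rw [ex_aux_gt hV htD _ hba]
    exact cd_supp hw (sx_le_iff.mpr hba)

theorem cr_ex_le {a D t : K} (hV : Val a D) (ht : t ∈ und D) {s : RR K} (hs : Bl a s) (u : RR K) :
    cr (sx a) (ex a D s t) u ≤ s := by
  show leF (ct (sx a) (ex a D s t).f u.f) s.f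
  rw [leF_split (a := a)]
  constructor
  · rw [rs_ct (self_lt_sx a).le, ex_aux_rs hV ht]
    exact leF_refl (ok_rs s.ok)
  · intro b hb D₁ t₁ h1
    rw [cd_supp hs hb] at h1
    cases h1

end Pool.Agent.SplG
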