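import Pool.Agent.SplG.Sz

set_option autoImplicit false
set_option linter.all false

/-!
# Trivial forcing notions have codes
-/

namespace Pool.Agent.SplG

open Cardinal Pool.Agent.SplK

variable {K : Type} [LinearOrder K] [Stp K]

theorem exists_val2 (a : K) (ha : Inac (Set.Iio a)) (l : K) (hl0 : Stp.bt < l) (hl : #(Set.Iio l) ≤ #(Set.Iio a)) :
    ∃ D, Val a D ∧ und D = Set.Iio l := by
  have hinf : ℵ₀ ≤ #(Set.Iio a) := ha.unc.le
  have hcard : #({z : Fn K × K × K | z.1 ∈ Cd a ∧ z.2.1 < l ∧ z.2.2 < l} : Set (Fn K × K × K)) < #K := by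
    refine lt_of_le_of_lt ?_ (Stp.inac.seg a)
    have h1 : #({z : Fn K × K × K | z.1 ∈ Cd a ∧ z.2.1 < l ∧ z.2.2 < l} : Set (Fn K × K × K)) ≤
        #(Cd a × Set.Iio l × Set.Iio l) := by
      refine mk_le_of_injective (f := fun z => ((⟨z.1.1, z.2.1⟩ : Cd a), (⟨z.1.2.1, z.2.2.1⟩ : Set.Iio l),
        (⟨z.1.2.2, z.2.2.2⟩ : Set.Iio l))) ?_
      rintro ⟨⟨s, t', t⟩, h1, h2, h3⟩ ⟨⟨s2, t2', t2⟩, h4, h5, h6⟩ h
      simp only [Prod.mk.injEq, Subtype.mk.injEq] at h ⊢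
      first
        | exact ⟨h.1, congrArg Subtype.val h.2.1, congrArg Subtype.val h.2.2⟩
        | exact ⟨h.1, h.2.1, h.2.2⟩
    refine h1.trans ?_
    rw [mk_prod, mk_prod]
    simp only [lift_id]
    exact (mul_le_mul' (card_Cd_le a ha) ((mul_le_mul' hl hl).trans (mul_eq_self hinf).le)).trans (mul_eq_self hinf).le
  obtain ⟨D, hD⟩ : ∃ D : K, D = Stp.dec.symm ⟨{z : Fn K × K × K | z.1 ∈ Cd a ∧ z.2.1 < l ∧ z.2.2 < l}, hcard⟩ := ⟨_, rfl⟩
  have hle : ∀ (s : Fn K) (t' t : K), leD D s t' t ↔ s ∈ Cd a ∧ t' < l ∧ t < l := by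
    intro s t' t
    unfold leD
    rw [hD, Equiv.apply_symm_apply]
    exact Iff.rfl
  have hund : und D = Set.Iio l := by
    ext t
    constructor
    · intro h
      exact ((hle _ _ _).mp h).2.1
    · intro h
      exact (hle _ _ _).mpr ⟨emp_mem a, h, h⟩
  have hmem : ∀ {t : K}, t ∈ und D ↔ t < l := by
    intro t
    rw [hund, Set.mem_Iio]
  refine ⟨D, val_iff.mpr ?_, hund⟩
  refine ⟨ha, ⟨l, hund, 0, ?_⟩, ?_, ?_, ?_, ?_, ?_, ?_, ?_, ?_, ?_, ?_⟩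
  · rw [pl_zero]
    exact hl.trans (cantor _).le
  · exact hmem.mpr hl0
  · intro s t' t h
    obtain ⟨h1, h2, h3⟩ := (hle _ _ _).mp h
    exact ⟨h1, hmem.mpr h2, hmem.mpr h3⟩
  · intro s hs t ht
    exact (hle _ _ _).mpr ⟨hs, hmem.mp ht, hmem.mp ht⟩
  · intro s t1 t2 t3 h1 h2
    exact (hle _ _ _).mpr ⟨((hle _ _ _).mp h1).1, ((hle _ _ _).mp h1).2.1, ((hle _ _ _).mp h2).2.2⟩
  · intro s hs t ht
    exact (hle _ _ _).mpr ⟨hs, hmem.mp ht, hl0⟩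
  · intro s hs s' hs' _ t' t h
    exact (hle _ _ _).mpr ⟨hs', ((hle _ _ _).mp h).2⟩
  · intro s hs t' ht' t ht _
    exact (hle _ _ _).mpr ⟨hs, hmem.mp ht', hmem.mp ht⟩
  · intro b hb _ t ht t' ht'
    refine ⟨Stp.bt, hmem.mpr hl0, fun s hs => ?_, fun s hs _ => ?_⟩
    · exact ⟨(hle _ _ _).mpr ⟨hb hs, hl0, hmem.mp ht⟩, (hle _ _ _).mpr ⟨hb hs, hmem.mp ht, hl0⟩⟩
    · exact ⟨(hle _ _ _).mpr ⟨hs, hl0, hmem.mp ht'⟩, (hle _ _ _).mpr ⟨hs, hmem.mp ht', hl0⟩⟩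
  · intro ι f s hs _ hf _
    exact ⟨Stp.bt, hmem.mpr hl0, fun i => (hle _ _ _).mpr ⟨hs, hl0, hmem.mp (hf i)⟩⟩
  · intro A hA _
    have h1 : #A ≤ #(Cd a × Set.Iio l) := by
      refine mk_le_of_injective (f := fun z : A => ((⟨z.1.1, (hA z.1 z.2).1⟩ : Cd a),
        (⟨z.1.2, hmem.mp (hA z.1 z.2).2⟩ : Set.Iio l))) ?_
      rintro ⟨⟨s, t⟩, h1⟩ ⟨⟨s2, t2⟩, h2⟩ h
      simp only [Prod.mk.injEq, Subtype.mk.injEq] at h ⊢
      first
        | exact ⟨h.1, congrArg Subtype.val h.2⟩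
        | exact ⟨h.1, h.2⟩
    refine h1.trans ?_
    rw [mk_prod]
    simp only [lift_id]
    exact (mul_le_mul' (card_Cd_le a ha) hl).trans (mul_eq_self hinf).le

theorem tv_one : Set.Iio (sx (Stp.bt : K)) = {Stp.bt} := by
  ext t
  rw [Set.mem_singleton_iff, Set.mem_Iio, lt_sx_iff]
  exact ⟨fun h => le_antisymm h (Stp.bt_le t), fun h => by rw [h]⟩

theorem tv_two : Set.Iio (sx (sx (Stp.bt : K))) = {Stp.bt, sx Stp.bt} := by
  ext t
  rw [Set.mem_insert_iff, Set.mem_singleton_iff, Set.mem_Iio, lt_sx_iff]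
  constructor
  · intro h
    rcases h.lt_or_eq with h1 | h1
    · left
      have h2 : t ∈ Set.Iio (sx (Stp.bt : K)) := h1
      rwa [tv_one] at h2
    · exact Or.inr h1
  · rintro (h | h)
    · rw [h]; exact (self_lt_sx _).le
    · rw [h]

/-- The trivial forcing notion. -/
theorem exists_val (a : K) (ha : Inac (Set.Iio a)) : ∃ D, Val a D ∧ und D = {Stp.bt} := by
  obtain ⟨D, h1, h2⟩ := exists_val2 a ha (sx Stp.bt) (self_lt_sx _) (by
    rw [tv_one, mk_singleton]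
    exact (one_lt_aleph0.trans ha.unc).le)
  exact ⟨D, h1, h2.trans tv_one⟩

/-- Two different codes. -/
theorem exists_val_ne (a : K) (ha : Inac (Set.Iio a)) : ∃ D D', Val a D ∧ Val a D' ∧ D ≠ D' := by
  obtain ⟨D, h1, h2⟩ := exists_val a ha
  obtain ⟨D', h3, h4⟩ := exists_val2 a ha (sx (sx Stp.bt)) ((self_lt_sx _).trans (self_lt_sx _)) (by
    rw [tv_two]
    refine (mk_insert_le).trans ?_
    rw [mk_singleton]
    exact ((add_lt_aleph0 one_lt_aleph0 one_lt_aleph0).trans ha.unc).le)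
  refine ⟨D, D', h1, h3, fun h => ?_⟩
  rw [← h, tv_two, h2] at h4
  have h5 : sx (Stp.bt : K) ∈ ({Stp.bt} : Set K) := by
    rw [h4]
    exact Or.inr rfl
  rw [Set.mem_singleton_iff] at h5
  exact absurd (self_lt_sx (Stp.bt : K)) (by rw [h5]; exact lt_irrefl _)

end Pool.Agent.SplG
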