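import Pool.Agent.SplK.Ar
import Pool.Agent.SplG.Tv
import Pool.Agent.SplG.Ex

set_option autoImplicit false
set_option linter.all false

/-!
# The conditions up to an inaccessible stage
-/

namespace Pool.Agent.SplG

open Cardinal Pool.Agent.SplK

variable {K : Type} [LinearOrder K] [Stp K]

/-- The conditions up to the stage `b` which are below `r`. -/
abbrev BS (b : K) (r : RR K) : Type := {w : RR K // Bl (sx b) w ∧ w ≤ rr (sx b) r}

/-- The support of a condition up to the stage `b` consists of active stages. -/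
theorem sb_act {b : K} {w : RR K} (h : Bl (sx b) w) {c : K} (hc : w.f.1 c ≠ none) : c ≤ b ∧ Inac (Set.Iio c) := by
  obtain ⟨⟨D, t⟩, hDt⟩ := Option.ne_none_iff_exists'.mp hc
  obtain ⟨h1, h2, -⟩ := h.2 c D t hDt
  exact ⟨lt_sx_iff.mp h1, (val_iff.mp h2).act⟩

/-- Extending a condition to have a given value at a free stage. -/
theorem sb_set (r : RR K) {c D : K} (hD : Val c D) (h : r.f.1 c = none) :
    ∃ r' ≤ r, r'.f.1 c = some (D, Stp.bt) ∧ ∀ a, a ≠ c → r'.f.1 a = r.f.1 a := by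
  have hbt := (val_iff.mp hD).bot
  have hok : Ok (ct (sx c) (ct c r.f (pt c D Stp.bt)) r.f) := ok_ct (ok_ct r.ok (ok_pt hD hbt)) r.ok
  have hval : (ct (sx c) (ct c r.f (pt c D Stp.bt)) r.f).1 c = some (D, Stp.bt) := by
    rw [ct_lt (self_lt_sx c), ct_ge le_rfl, pt_self]
  have hoff : ∀ a, a ≠ c → (ct (sx c) (ct c r.f (pt c D Stp.bt)) r.f).1 a = r.f.1 a := by
    intro a ha
    rcases lt_or_gt_of_ne ha with h1 | h1
    · rw [ct_lt (h1.trans (self_lt_sx c)), ct_lt h1]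
    · rw [ct_ge (sx_le_iff.mpr h1)]
  refine ⟨⟨_, hok⟩, ?_, hval, hoff⟩
  rw [rr_le]
  intro a D' t hat
  have ha : a ≠ c := by
    rintro rfl
    rw [h] at hat
    cases hat
  refine ⟨t, (hoff a ha).trans hat, ?_⟩
  obtain ⟨h1, h2⟩ := r.ok.2 a D' t hat
  exact (val_iff.mp h1).refl _ (rs_mem hok) t h2

/-- Extending a condition to have a value at an active stage. -/
theorem sb_ext (r : RR K) {c : K} (hc : Inac (Set.Iio c)) : ∃ r' ≤ r, ∃ D t, r'.f.1 c = some (D, t) := by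
  by_cases h : r.f.1 c = none
  · obtain ⟨D, hD, -⟩ := exists_val c hc
    obtain ⟨r', h1, h2, -⟩ := sb_set r hD h
    exact ⟨r', h1, D, Stp.bt, h2⟩
  · obtain ⟨⟨D, t⟩, hDt⟩ := Option.ne_none_iff_exists'.mp h
    exact ⟨r, le_rfl, D, t, hDt⟩

/-- The form of the conditions up to the stage `b`. -/
theorem sb_form {b D t : K} {r : RR K} (h : r.f.1 b = some (D, t)) (w : BS b r) :
    ∃ t' ∈ und D, w.1.f.1 b = some (D, t') ∧ w.1 = ex b D (rr b w.1) t' := by
  have h1 : (rr (sx b) r).f.1 b = some (D, t) := by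
    rw [rr_f, rs_lt (self_lt_sx b)]
    exact h
  obtain ⟨t', h2, -⟩ := w.2.2 b D t h1
  have hV : Val b D := (r.ok.2 b D t h).1
  have h3 : w.1 ≤ ex b D ⊤ Stp.bt := by
    refine le_ex_of hV (val_iff.mp hV).bot ⊤ w.1 h2 ?_ ?_
    · rw [rr_le, rr_f, rr_f, top_f, rs_emp]
      exact leF_emp _
    · exact (val_iff.mp hV).le_top _ (rs_mem w.1.ok) _ (w.1.ok.2 b D t' h2).2
  obtain ⟨t'', h4, h5⟩ := ex_surj hV w.2.1 h3
  have h6 : t'' = t' := by
    have h7 := ex_at hV h4 (rr b w.1)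
    rw [← h5, h2] at h7
    exact (congrArg (fun o : K × K => o.2) (Option.some.inj h7)).symm
  subst h6
  exact ⟨t'', h4, h2, h5⟩

theorem card_base (b : K) (hb : Inac (Set.Iio b)) (r : RR K) : ∃ r' ≤ r, ∃ n : ℕ,
    #(BS b r') ≤ pl (2 ^ #(Set.Iio b)) n ∧
    ∀ A : Set (BS b r'), (∀ w ∈ A, ∀ w' ∈ A, (∃ v : BS b r', v.1 ≤ w.1 ∧ v.1 ≤ w'.1) → w = w') →
      #A ≤ #(Set.Iio b) := by
  have hinf : ℵ₀ ≤ 2 ^ #(Set.Iio b) := hb.unc.le.trans (cantor _).le
  obtain ⟨r', hr', D, t, hDt⟩ := sb_ext r hb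
  have hV : Val b D := (r'.ok.2 b D t hDt).1
  have V := val_iff.mp hV
  obtain ⟨l, hl, n, hn⟩ := V.siz
  have hex := sb_form hDt
  choose φ hφ1 hφ2 hφ3 using hex
  obtain ⟨ψ, hψ⟩ : ∃ ψ : BS b r' → Fn K × K, ∀ w, ψ w = ((rr b w.1).f, φ w) := ⟨_, fun w => rfl⟩
  have hψinj : Function.Injective ψ := by
    intro w w' h
    rw [hψ, hψ] at h
    have h1 : rr b w.1 = rr b w'.1 := RR.ext (congrArg Prod.fst h)
    have h2 : φ w = φ w' := congrArg Prod.snd h
    apply Subtype.ext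
    rw [hφ3 w, hφ3 w', h1, h2]
  refine ⟨r', hr', n, ?_, ?_⟩
  · have hinj : #(BS b r') ≤ #(Cd b × und D) := by
      refine mk_le_of_injective (f := fun w => ((⟨(rr b w.1).f, rs_mem w.1.ok⟩ : Cd b), (⟨φ w, hφ1 w⟩ : und D))) ?_
      intro w w' h
      apply hψinj
      rw [hψ, hψ]
      have h1 : (rr b w.1).f = (rr b w'.1).f := congrArg Subtype.val (congrArg Prod.fst h)
      have h2 : φ w = φ w' := congrArg Subtype.val (congrArg Prod.snd h)
      rw [h1, h2]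
    refine hinj.trans ?_
    rw [mk_prod]
    simp only [lift_id]
    refine mul_le_pl hinf ((card_Cd_le b hb).trans ((cantor _).le.trans (le_pl _ _))) ?_
    rw [hl]
    exact hn
  · intro A hA
    have h1 := V.cc (ψ '' A) (by
      rintro _ ⟨w, hw, rfl⟩
      rw [hψ]
      exact ⟨rs_mem w.1.ok, hφ1 w⟩) (by
      rintro _ ⟨w, hw, rfl⟩ _ ⟨w', hw', rfl⟩ ⟨s, hs, τ, hτ, e1, e2, e3, e4⟩
      rw [hψ] at e1 e3
      rw [hψ] at e2 e4
      have hsok : Ok s := cd_ok hs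
      have hbl : Bl b (⟨s, hsok⟩ : RR K) := hs
      have hss : rr b (⟨s, hsok⟩ : RR K) = ⟨s, hsok⟩ := RR.ext (cd_rs hs)
      have hle : ∀ (v : BS b r'), leF s (rr b v.1).f → leD D s τ (φ v) → ex b D ⟨s, hsok⟩ τ ≤ v.1 := by
        intro v h1 h2
        rw [hφ3 v, ex_le_iff hV (hφ1 v) hτ]
        rw [hss]
        refine ⟨?_, h2⟩
        have h3 : rr b (rr b v.1) = rr b v.1 := RR.ext (rs_rs le_rfl _)
        rw [h3]
        exact h1
      have h2 := hle w e1 e3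
      have h3 := hle w' e2 e4
      have h4 := hA w hw w' hw' ⟨⟨ex b D ⟨s, hsok⟩ τ, ex_bl hV hτ _, h2.trans w.2.2⟩, h2, h3⟩
      rw [h4])
    rwa [mk_image_eq hψinj] at h1

end Pool.Agent.SplG
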