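import Pool.Agent.SplG.Dl
import Pool.Agent.SplG.Sb
import Pool.Agent.SplG.Hf
import Pool.Agent.SplK.Bf

set_option autoImplicit false
set_option linter.all false

/-!
# Names of subsets of the elements of `K`
-/

namespace Pool.Agent.SplG

open Cardinal Pool.Agent.SplK

variable {K : Type} [LinearOrder K] [Stp K] {T : Type}

theorem pw_fo_mono {Q : Type} [Preorder Q] {S : Set Q} {E E' : Q} (h : FoQ S E) (hE : E' ≤ E) : FoQ S E' :=
  fun F hF => h F (hF.trans hE)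

theorem pw_inc_mono {Q : Type} [Preorder Q] {S : Set Q} {E E' : Q} (h : IncQ S E) (hE : E' ≤ E) : IncQ S E' :=
  fun F hF => h F (hF.trans hE)

theorem pw_bl {a : K} {w : RR K} (h : Bl a w) : rr a w = w := RR.ext (cd_rs h)

theorem pw_sx_lt {b c : K} (hc : sx b ≤ c) (h : Inac (Set.Iio c)) : sx b < c := by
  have hbc : b < c := sx_le_iff.mp hc
  obtain ⟨d, hd⟩ := h.reg {⟨b, hbc⟩} (by
    rw [mk_singleton]
    exact one_lt_aleph0.trans h.unc)
  have h1 : b < d.1 := hd _ rfl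
  exact (sx_le_iff.mpr h1).trans_lt d.2

/-- A bound for the number of conditions up to a stage. -/
noncomputable def pwm (b : K) : Cardinal.{0} := max (max ℵ₀ #(Set.Iio b)) #(Cd (sx b))

theorem pwm_lt (b : K) {θ : Cardinal.{0}} (hθ : θ.IsInaccessible) (h : #(Set.Iio b) < θ)
    (hC : #(Cd (sx b)) < θ) : pwm b < θ := max_lt (max_lt hθ.aleph0_lt h) hC

theorem pwm_inf (b : K) : ℵ₀ ≤ pwm b := (le_max_left _ _).trans (le_max_left _ _)

theorem pwm_K (b : K) : pwm b < #K := pwm_lt b (inac_card Stp.inac) (Stp.inac.seg b) (card_Cd_lt _)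

theorem pwm_big (b : K) : Big (sx b) (pwm b) := by
  intro c hc hi
  have h1 := pw_sx_lt hc hi
  exact pwm_lt b (inac_card hi) (iio_lt_iio hi (sx_le_iff.mp hc))
    (card_Cd_lt' (inac_card hi) _ (iio_lt_iio hi h1))

theorem pwm_bs (b : K) (r : RR K) : #(BS b r) ≤ pwm b := by
  refine le_trans ?_ (le_max_right _ _)
  refine mk_le_of_injective (f := fun w => (⟨w.1.f, w.2.1⟩ : Cd (sx b))) ?_
  intro w w' h
  apply Subtype.ext
  apply RR.ext
  exact congrArg Subtype.val h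

theorem pwm_iio (b : K) : #(Set.Iio b) ≤ pwm b := (le_max_right _ _).trans (le_max_left _ _)

/-- The family `σ` contains a dense subset of every family of open sets. -/
def PwS (b : K) (r : RR K) {I : Type} (σ : I → Set.Iio b → Set (BS b r)) : Prop :=
  ∀ Y : Set.Iio b → Set (BS b r), (∀ α, ∀ w ∈ Y α, ∀ v : BS b r, v.1 ≤ w.1 → v ∈ Y α) →
    ∃ i, (∀ α, σ i α ⊆ Y α) ∧ ∀ α, ∀ w ∈ Y α, ∃ v ∈ σ i α, ∃ u : BS b r, u.1 ≤ w.1 ∧ u.1 ≤ v.1

theorem pw_gen (P : RPos (RR K) T) (hP : P.Closed #K) (b : K) (r' : RR K) (t0 : T) {I : Type}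
    (σ : I → Set.Iio b → Set (BS b r')) (hσ : PwS b r' σ) (X : K → Set (Star P)) (q' : Star P)
    (hq' : q' ≤ (⟨r', t0⟩ : Star P)) : ∃ q'' ≤ q', ∃ i, ∀ a < b, ∀ E ≤ q'', (FoQ (X a) E ↔
      FoQ {E : Star P | ∃ h : a < b, ∃ w : BS b r', w ∈ σ i ⟨a, h⟩ ∧ E.r ≤ w.1} E) := by
  classical
  obtain ⟨m', hm1, hm2⟩ := decide_lemma P hP (sx b) q'.r _
    (pwm_inf b) (pwm_big b) (pwm_K b) (pwm_bs b q'.r) (Set.Iio b) (pwm_iio b)
    (fun α => {z | FoQ (X α.1) z ∨ IncQ (X α.1) z}) (fun α z => by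
      by_cases h : FoQ (X α.1) z
      · exact ⟨z, le_rfl, Or.inl h⟩
      · unfold FoQ at h
        push Not at h
        obtain ⟨z', hz', h1⟩ := h
        exact ⟨z', hz', Or.inr h1⟩)
    (fun α z hz z' hz' => hz.elim (fun h => Or.inl (pw_fo_mono h hz')) (fun h => Or.inr (pw_inc_mono h hz')))
    (q'.r, q'.t)
  have e0 : tw P (sx b) q'.r (q'.r, q'.t) = q' := by
    obtain ⟨r, t⟩ := q'
    have e : cr (sx b) r r = r := RR.ext (ct_self _ _)
    unfold tw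
    dsimp only
    rw [e]
  rw [e0] at hm1
  have hq'r : rr (sx b) q'.r ≤ rr (sx b) r' := leF_rs hq'.1
  obtain ⟨i, hi1, hi2⟩ := hσ (fun α => {w | w.1 ≤ rr (sx b) q'.r ∧ FoQ (X α.1) (tw P (sx b) w.1 m')}) (by
    rintro α w ⟨hw1, hw2⟩ v hv
    refine ⟨hv.trans hw1, pw_fo_mono hw2 (tw_base P ?_)⟩
    rw [pw_bl v.2.1, pw_bl w.2.1]
    exact hv)
  refine ⟨tw P (sx b) q'.r m', hm1, i, fun α hα E hE => ?_⟩
  have key : ∀ E0 ≤ tw P (sx b) q'.r m', ∃ w', Bl (sx b) w' ∧ w' ≤ rr (sx b) q'.r ∧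
      tw P (sx b) w' m' ∈ {z | FoQ (X α) z ∨ IncQ (X α) z} ∧ w' ≤ rr (sx b) E0.r ∧
      tw P (sx b) w' (E0.r, E0.t) ≤ tw P (sx b) w' m' := by
    intro E0 hE0
    obtain ⟨h1, h2, h3, h4⟩ := tw_split P hE0
    obtain ⟨w', h5, h6, h7⟩ := hm2 ⟨α, hα⟩ (rr (sx b) E0.r) h1 h2
    have h8 : rr (sx b) w' ≤ rr (sx b) (rr (sx b) E0.r) := by
      rw [pw_bl h5, pw_bl h1]
      exact h6
    exact ⟨w', h5, h6.trans h2, h7, h6, tw_mono P ((le_of_eq h3.symm).trans h4) h8⟩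
  have hr : ∀ u : RR K, Bl (sx b) u → ∀ E0 : Star P, (tw P (sx b) u (E0.r, E0.t)).r ≤ u := by
    intro u hu E0
    have h9 := leF_rs_self (sx b) (ok_ct (a := sx b) u.ok E0.r.ok)
    rw [rs_ct le_rfl, cd_rs hu] at h9
    exact h9
  constructor
  · intro hF E' hE'
    obtain ⟨w', h1, h2, h3, h4, h5⟩ := key E' (hE'.trans hE)
    have hlow : ∀ u : RR K, Bl (sx b) u → u ≤ w' → tw P (sx b) u (E'.r, E'.t) ≤ E' := by
      intro u hu huw
      have h6 : tw P (sx b) u (E'.r, E'.t) ≤ tw P (sx b) (rr (sx b) E'.r) (E'.r, E'.t) := by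
        refine tw_base P ?_
        have hbl : Bl (sx b) (rr (sx b) E'.r) := rs_mem E'.r.ok
        rw [pw_bl hu, pw_bl hbl]
        exact huw.trans h4
      obtain ⟨-, -, h7, -⟩ := tw_split P (hE'.trans hE)
      rwa [← h7] at h6
    have h6 : (⟨w', h1, h2.trans hq'r⟩ : BS b r') ∈
        {w : BS b r' | w.1 ≤ rr (sx b) q'.r ∧ FoQ (X α) (tw P (sx b) w.1 m')} := by
      refine ⟨h2, ?_⟩
      rcases h3 with h3 | h3
      · exact h3
      · obtain ⟨E'', h7, h8⟩ := hF _ ((hlow w' h1 le_rfl).trans hE')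
        exact absurd h8 (h3 E'' (h7.trans h5))
    obtain ⟨v, hv, u, hu1, hu2⟩ := hi2 ⟨α, hα⟩ _ h6
    exact ⟨tw P (sx b) u.1 (E'.r, E'.t), hlow u.1 u.2.1 hu1, _, ⟨hα, v, hv, (hr u.1 u.2.1 E').trans hu2⟩, le_rfl⟩
  · intro hF E' hE'
    obtain ⟨E0, h1, C, ⟨_, w, hw, h2⟩, h3⟩ := hF E' hE'
    have hw' := hi1 ⟨α, hα⟩ hw
    have h4 : E0 ≤ tw P (sx b) q'.r m' := h1.trans (hE'.trans hE)
    obtain ⟨h5, h6, h7, h8⟩ := tw_split P h4
    have h9 : E0.r ≤ w.1 := le_trans h3.1 h2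
    have h10 : rr (sx b) (rr (sx b) E0.r) ≤ rr (sx b) w.1 := by
      rw [pw_bl h5]
      exact leF_rs h9
    have h11 : FoQ (X α) E0 := pw_fo_mono hw'.2 (h8.trans (tw_base P h10))
    obtain ⟨E'', h12, h13⟩ := h11 E0 le_rfl
    exact ⟨E'', h12.trans h1, h13⟩

/-- All families. -/
theorem pws_all (b : K) (r : RR K) : ∃ σ : ((2 : Cardinal.{0}) ^ pwm b).ord.ToType → Set.Iio b → Set (BS b r), PwS b r σ := by
  have h1 : #(Set.Iio b → Set (BS b r)) ≤ #(((2 : Cardinal.{0}) ^ pwm b).ord.ToType) := by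
    rw [mk_ord_toType, ← power_def, mk_set, ← power_mul]
    refine power_le_power_left two_ne_zero ?_
    exact (mul_le_mul' (pwm_bs b r) (pwm_iio b)).trans (mul_eq_self (pwm_inf b)).le
  obtain ⟨e⟩ := Cardinal.le_def _ _ |>.mp h1
  refine ⟨Function.invFun e, fun Y hY => ?_⟩
  obtain ⟨i, hi⟩ := Function.invFun_surjective e.injective Y
  refine ⟨i, fun α => by rw [hi], fun α w hw => ⟨w, by rw [hi]; exact hw, w, le_rfl, le_rfl⟩⟩

/-- A maximal antichain. -/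
theorem pws_anti {B : Type} (le : B → B → Prop) (hr : ∀ w, le w w) (ht : ∀ u v w, le u v → le v w → le u w)
    (Y : Set B) (hY : ∀ w ∈ Y, ∀ v, le v w → v ∈ Y) :
    ∃ A ⊆ Y, (∀ w ∈ A, ∀ w' ∈ A, (∃ v, le v w ∧ le v w') → w = w') ∧ ∀ w ∈ Y, ∃ v ∈ A, ∃ u, le u w ∧ le u v := by
  obtain ⟨A, hA⟩ : ∃ A, Maximal (fun A : Set B => A ⊆ Y ∧ ∀ w ∈ A, ∀ w' ∈ A, (∃ v, le v w ∧ le v w') → w = w') A := by
    apply zorn_subset
    intro c hc hchain
    refine ⟨⋃₀ c, ⟨?_, ?_⟩, fun s hs => Set.subset_sUnion_of_mem hs⟩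
    · rintro u ⟨a, ha, hua⟩
      exact (hc ha).1 hua
    · rintro u ⟨a, ha, hua⟩ v ⟨b, hb, hvb⟩ huv
      rcases hchain.total ha hb with hab | hab
      · exact (hc hb).2 u (hab hua) v hvb huv
      · exact (hc ha).2 u hua v (hab hvb) huv
  refine ⟨A, hA.prop.1, hA.prop.2, fun w hw => ?_⟩
  by_contra hcon
  push Not at hcon
  have h1 : insert w A ⊆ A := by
    apply hA.le_of_ge _ (Set.subset_insert w A)
    refine ⟨Set.insert_subset hw hA.prop.1, ?_⟩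
    rintro u (rfl | hu) v (rfl | hv) ⟨z, hz1, hz2⟩
    · rfl
    · exact absurd hz2 (hcon v hv z hz1)
    · exact absurd hz1 (hcon u hu z hz2)
    · exact hA.prop.2 u hu v hv ⟨z, hz1, hz2⟩
  exact hcon w (h1 (Set.mem_insert w A)) w (hr w) (hr w)

/-- Families of small sets, under the chain condition. -/
theorem pws_cc (b : K) (hb : Inac (Set.Iio b)) (r : RR K) (n : ℕ) (hn : #(BS b r) ≤ pl (2 ^ #(Set.Iio b)) n)
    (hcc : ∀ A : Set (BS b r), (∀ w ∈ A, ∀ w' ∈ A, (∃ v : BS b r, v.1 ≤ w.1 ∧ v.1 ≤ w'.1) → w = w') →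
      #A ≤ #(Set.Iio b)) :
    ∃ σ : (pl (2 ^ #(Set.Iio b)) n).ord.ToType → Set.Iio b → Set (BS b r), PwS b r σ := by
  classical
  have hθ : ℵ₀ ≤ #(Set.Iio b) := hb.unc.le
  have hinf : ℵ₀ ≤ pl (2 ^ #(Set.Iio b)) n := hθ.trans ((cantor _).le.trans (le_pl _ _))
  have h1 : #(Set.Iio b × Set.Iio b → Option (BS b r)) ≤ #((pl (2 ^ #(Set.Iio b)) n).ord.ToType) := by
    rw [mk_ord_toType, ← power_def, mk_option, mk_prod, lift_id, mul_eq_self hθ]
    refine le_trans (power_le_power_right ?_) (hf_pl hθ n)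
    exact add_le_of_le hinf hn (one_lt_aleph0.le.trans hinf)
  obtain ⟨e⟩ := Cardinal.le_def _ _ |>.mp h1
  refine ⟨fun i α => {v | ∃ β, Function.invFun e i (α, β) = some v}, fun Y hY => ?_⟩
  have h2 : ∀ α, ∃ A ⊆ Y α, (∀ w ∈ A, ∀ w' ∈ A, (∃ v : BS b r, v.1 ≤ w.1 ∧ v.1 ≤ w'.1) → w = w') ∧
      ∀ w ∈ Y α, ∃ v ∈ A, ∃ u : BS b r, u.1 ≤ w.1 ∧ u.1 ≤ v.1 := fun α =>
    pws_anti (fun v w : BS b r => v.1 ≤ w.1) (fun w => le_rfl) (fun u v w h h' => le_trans h h') (Y α) (hY α)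
  choose A hA1 hA2 hA3 using h2
  have h3 : ∀ α, ∃ f : Set.Iio b → Option (BS b r), ∀ v, (∃ β, f β = some v) ↔ v ∈ A α := by
    intro α
    obtain ⟨g⟩ := hcc (A α) (hA2 α)
    refine ⟨fun β => if h : ∃ v : A α, g v = β then some h.choose.1 else none, fun v => ?_⟩
    constructor
    · rintro ⟨β, hβ⟩
      dsimp only at hβ
      by_cases h : ∃ v : A α, g v = β
      · rw [dif_pos h] at hβ
        rw [← Option.some.inj hβ]
        exact h.choose.2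
      · rw [dif_neg h] at hβ
        cases hβ
    · intro hv
      have h : ∃ v' : A α, g v' = g ⟨v, hv⟩ := ⟨⟨v, hv⟩, rfl⟩
      refine ⟨g ⟨v, hv⟩, ?_⟩
      dsimp only
      rw [dif_pos h]
      have h4 := g.injective h.choose_spec
      rw [h4]
  choose f hf using h3
  obtain ⟨i, hi⟩ := Function.invFun_surjective e.injective (fun z : Set.Iio b × Set.Iio b => f z.1 z.2)
  have hi' : ∀ α, {v | ∃ β, Function.invFun e i (α, β) = some v} = A α := by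
    intro α
    ext v
    rw [← hf α v, hi]
    exact Iff.rfl
  refine ⟨i, fun α => ?_, fun α w hw => ?_⟩
  · show {v | ∃ β, Function.invFun e i (α, β) = some v} ⊆ Y α
    rw [hi' α]
    exact hA1 α
  · obtain ⟨v, hv, u, hu⟩ := hA3 α w hw
    refine ⟨v, ?_, u, hu⟩
    show v ∈ {v | ∃ β, Function.invFun e i (α, β) = some v}
    rw [hi' α]
    exact hv

open Classical in
/-- The bound for the power set of `b`. -/
noncomputable def FF (b : K) : Cardinal.{0} := if Inac (Set.Iio b) then 2 ^ #(Set.Iio b) else 2 ^ pwm b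

theorem FF_lt (b : K) : FF b < #K := by
  unfold FF
  have hθ := inac_card (Stp.inac (K := K))
  split
  · exact hθ.isStrongLimit.two_power_lt (Stp.inac.seg b)
  · exact hθ.isStrongLimit.two_power_lt (pwm_K b)

theorem FF_inac (b : K) (h : Inac (Set.Iio b)) : FF b = 2 ^ #(Set.Iio b) := by rw [FF, if_pos h]

theorem star_pw (P : RPos (RR K) T) (hP : P.Closed #K) (b : K) (p : Star P) :
    ∃ q ≤ p, ∃ m : ℕ, ∃ z : (pl (FF b) m).ord.ToType → K → Set (Star P), ∀ X : K → Set (Star P),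
      ∀ q' ≤ q, ∃ q'' ≤ q', ∃ i, ∀ a < b, ∀ E ≤ q'', (FoQ (X a) E ↔ FoQ (z i a) E) := by
  have key : ∃ q ≤ p, ∃ m : ℕ, ∃ σ : (pl (FF b) m).ord.ToType → Set.Iio b → Set (BS b q.r), PwS b q.r σ := by
    by_cases hb : Inac (Set.Iio b)
    · obtain ⟨r', hr', n, h1, h2⟩ := card_base b hb p.r
      obtain ⟨σ, hσ⟩ := pws_cc b hb r' n h1 h2
      refine ⟨⟨r', p.t⟩, ⟨hr', P.refl _ _⟩, n, ?_⟩
      rw [FF_inac b hb]
      exact ⟨σ, hσ⟩
    · obtain ⟨σ, hσ⟩ := pws_all b p.r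
      refine ⟨p, le_rfl, 0, ?_⟩
      rw [pl_zero, FF, if_neg hb]
      exact ⟨σ, hσ⟩
  obtain ⟨q, hq, m, σ, hσ⟩ := key
  refine ⟨q, hq, m, _, fun X q' hq' => pw_gen P hP b q.r q.t σ hσ X q' hq'⟩

end Pool.Agent.SplG
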