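import Pool.Agent.SplK.Ic
import Pool.Agent.SplG.RDefs2

set_option autoImplicit false
set_option linter.all false

/-!
# Sizes of the sets of conditions
-/

namespace Pool.Agent.SplG

open Cardinal Pool.Agent.SplK

variable {K : Type} [LinearOrder K] [Stp K]

/-- The possible values at the stage `b`. -/
def Xv (b : K) : Set (K × K) := {z | Val b z.1 ∧ z.2 ∈ und z.1}

theorem card_RR_le : #(RR K) ≤ #K := by
  have h1 : ∀ z : Fn K × K × K, #({z} : Set (Fn K × K × K)) < #K := fun z => by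
    rw [mk_singleton]
    exact one_lt_aleph0.trans (Stp.inac (K := K)).unc
  refine mk_le_of_injective (f := fun r : RR K => (Stp.dec (K := K)).symm ⟨{(r.f, Stp.bt, Stp.bt)}, h1 _⟩) ?_
  intro r r' h
  have h2 := (Stp.dec (K := K)).symm.injective h
  have h3 := congrArg Subtype.val h2
  dsimp only at h3
  rw [Set.singleton_eq_singleton_iff] at h3
  exact RR.ext (congrArg Prod.fst h3)

/-- A wellorder with small proper initial segments is small. -/
theorem sz_wo (L : Set K) (hL : ∀ l ∈ L, ∀ k < l, k ∈ L) {y : Cardinal.{0}} (hy : ∀ l ∈ L, #(Set.Iio l) ≤ y) :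
    #L ≤ Order.succ y := by
  by_contra hc
  rw [not_le] at hc
  have h1 : (Order.succ y).ord < Ordinal.type ((· < ·) : L → L → Prop) := by
    rw [← not_le]
    intro h
    have h2 := Ordinal.card_le_card h
    rw [Ordinal.card_type, card_ord] at h2
    exact absurd hc (not_lt.mpr h2)
  obtain ⟨a, ha⟩ := Ordinal.typein_surj ((· < ·) : L → L → Prop) h1
  have h2 : #{z : L // z < a} = Order.succ y := by
    rw [← Ordinal.card_typein, ha, card_ord]
  have h3 : #{z : L // z < a} ≤ #(Set.Iio a.1) :=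
    mk_le_of_injective (f := fun z => (⟨z.1.1, z.2⟩ : Set.Iio a.1)) (fun z z' h => by
      have := congrArg Subtype.val h
      exact Subtype.ext (Subtype.ext this))
  rw [h2] at h3
  exact absurd (h3.trans (hy a.1 a.2)) (not_le.mpr (Order.lt_succ y))

/-- A valid function takes possible values. -/
theorem sz_opt {f : Fn K} (h : Ok f) (c : K) : ∃ o : Option (Xv c), Option.map Subtype.val o = f.1 c := by
  cases hc : f.1 c with
  | none => exact ⟨none, rfl⟩
  | some z =>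
    obtain ⟨D, t⟩ := z
    exact ⟨some ⟨(D, t), h.2 c D t hc⟩, rfl⟩

theorem card_Xv_lt {θ : Cardinal.{0}} (hθ : θ.IsInaccessible) {b : K} (hb : #(Set.Iio b) < θ) (hC : #(Cd b) < θ) :
    #(Xv b) < θ := by
  obtain ⟨y, hy, hpl⟩ := inac_pl_bdd hθ (hθ.isStrongLimit.two_power_lt hb)
  obtain ⟨L, hLd⟩ : ∃ L : Set K, L = {l | #(Set.Iio l) ≤ y} := ⟨_, rfl⟩
  have hmem : ∀ l, l ∈ L ↔ #(Set.Iio l) ≤ y := fun l => by rw [hLd]; exact Iff.rfl
  have hmono : ∀ k l : K, k < l → #(Set.Iio k) ≤ #(Set.Iio l) := fun k l h =>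
    mk_le_mk_of_subset (Set.Iio_subset_Iio h.le)
  have hL1 : #L ≤ Order.succ y :=
    sz_wo L (fun l hl k hk => (hmem k).mpr ((hmono k l hk).trans ((hmem l).mp hl))) (fun l hl => (hmem l).mp hl)
  have hL : #L < θ := hL1.trans_lt (hθ.isSuccLimit.succ_lt hy)
  have hund : ∀ D, Val b D → und D ⊆ L := by
    intro D hD t ht
    obtain ⟨l, hl, n, hn⟩ := (val_iff.mp hD).siz
    rw [hl] at ht
    exact (hmem t).mpr ((hmono t l ht).trans (hn.trans (hpl n)))
  have hinj : #(Xv b) ≤ #(Set (Cd b × L × L) × L) := by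
    refine mk_le_of_injective (f := fun z : Xv b =>
      (({w : Cd b × L × L | (w.1.1, w.2.1.1, w.2.2.1) ∈ (Stp.dec z.1.1).1} : Set (Cd b × L × L)),
        (⟨z.1.2, hund z.1.1 z.2.1 z.2.2⟩ : L))) ?_
    intro z z' h
    have h1 := congrArg Prod.fst h
    have h2 := congrArg Prod.snd h
    have h3 : z.1.2 = z'.1.2 := congrArg Subtype.val h2
    have h4 : ∀ D D', Val b D → Val b D' →
        ({w : Cd b × L × L | (w.1.1, w.2.1.1, w.2.2.1) ∈ (Stp.dec D).1} : Set (Cd b × L × L)) =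
        {w : Cd b × L × L | (w.1.1, w.2.1.1, w.2.2.1) ∈ (Stp.dec D').1} →
        ∀ w, w ∈ (Stp.dec D).1 → w ∈ (Stp.dec D').1 := by
      intro D D' hD hD' he w hw
      obtain ⟨s, t', t⟩ := w
      obtain ⟨a1, a2, a3⟩ := (val_iff.mp hD).sub s t' t hw
      have h5 : ((⟨s, a1⟩, ⟨t', hund D hD a2⟩, ⟨t, hund D hD a3⟩) : Cd b × L × L) ∈
          {w : Cd b × L × L | (w.1.1, w.2.1.1, w.2.2.1) ∈ (Stp.dec D).1} := hw
      rw [he] at h5
      exact h5
    have h5 : (Stp.dec z.1.1).1 = (Stp.dec z'.1.1).1 :=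
      Set.Subset.antisymm (fun w hw => h4 _ _ z.2.1 z'.2.1 h1 w hw) (fun w hw => h4 _ _ z'.2.1 z.2.1 h1.symm w hw)
    have h6 : z.1.1 = z'.1.1 := Stp.dec.injective (Subtype.ext h5)
    exact Subtype.ext (Prod.ext h6 h3)
  refine hinj.trans_lt ?_
  have hω := hθ.aleph0_lt.le
  have h1 : #(Cd b × L × L) < θ := by
    rw [mk_prod, mk_prod]
    simp only [lift_id]
    exact mul_lt_of_lt hω hC (mul_lt_of_lt hω hL hL)
  rw [mk_prod, mk_set]
  simp only [lift_id]
  exact mul_lt_of_lt hω (hθ.isStrongLimit.two_power_lt h1) hL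

theorem card_Cd_lt' {θ : Cardinal.{0}} (hθ : θ.IsInaccessible) (a : K) (ha : #(Set.Iio a) < θ) : #(Cd a) < θ := by
  have key : ∀ a : K, #(Set.Iio a) < θ → #(Cd a) < θ := by
    intro a
    refine (wellFounded_lt (α := K)).induction (C := fun a => #(Set.Iio a) < θ → #(Cd a) < θ) a ?_
    intro a ih ha
    have hX : ∀ b : Set.Iio a, #(Option (Xv b.1)) < θ := by
      intro b
      have hb : #(Set.Iio b.1) < θ := (mk_le_mk_of_subset (Set.Iio_subset_Iio (le_of_lt b.2))).trans_lt ha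
      rw [mk_option]
      exact add_lt_of_lt hθ.aleph0_lt.le (card_Xv_lt hθ hb (ih b.1 b.2 hb)) (one_lt_aleph0.trans hθ.aleph0_lt)
    have hex : ∀ (r : Cd a) (b : Set.Iio a), ∃ o : Option (Xv b.1), Option.map Subtype.val o = r.1.1 b.1 :=
      fun r b => sz_opt (cd_ok r.2) b.1
    choose φ hφ using hex
    have hinj : #(Cd a) ≤ #(∀ b : Set.Iio a, Option (Xv b.1)) := by
      refine mk_le_of_injective (f := fun r => φ r) ?_
      intro r r' h
      refine Subtype.ext (Fn.ext (fun b => ?_))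
      by_cases hb : b < a
      · have h1 := hφ r ⟨b, hb⟩
        have h2 := hφ r' ⟨b, hb⟩
        have h3 : φ r ⟨b, hb⟩ = φ r' ⟨b, hb⟩ := congrFun h _
        rw [h3, h2] at h1
        exact h1.symm
      · rw [cd_supp r.2 (not_lt.mp hb), cd_supp r'.2 (not_lt.mp hb)]
    refine hinj.trans_lt ?_
    rw [mk_pi]
    exact inac_prod hθ ha _ hX
  exact key a ha

theorem card_Cd_lt (a : K) : #(Cd a) < #K := card_Cd_lt' (inac_card Stp.inac) a (Stp.inac.seg a)

theorem card_Cd_le (a : K) (ha : Inac (Set.Iio a)) : #(Cd a) ≤ #(Set.Iio a) := by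
  have hθ := inac_card ha
  have h1 : Cd a ⊆ ⋃ b : Set.Iio a, Cd b.1 := by
    intro r hr
    obtain ⟨b, hb, h2⟩ := hr.1 a ha
    refine Set.mem_iUnion.mpr ⟨⟨b, hb⟩, hr.1, fun d D t hd => ?_⟩
    obtain ⟨h3, h4⟩ := hr.2 d D t hd
    exact ⟨h2 d h3 (by rw [hd]; simp), h4⟩
  refine (mk_le_mk_of_subset h1).trans (mk_iUnion_le_sum_mk.trans ?_)
  refine (sum_le_sum _ (fun _ => #(Set.Iio a)) (fun b => ?_)).trans ?_
  · exact (card_Cd_lt' hθ b.1 (iio_lt_iio ha b.2)).le
  · rw [sum_const', mul_eq_self hθ.aleph0_lt.le]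

end Pool.Agent.SplG
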