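import Pool.Agent.SplG.PrepDefs
import Pool.Agent.SplG.Kc
import Pool.Agent.SplG.Cc
import Pool.Agent.SplG.MuB
import Pool.Agent.SplG.Rg
import Pool.Agent.SplG.Pw
import Pool.Agent.SplG.Ap5

set_option autoImplicit false
set_option linter.all false

/-!
# The preparation: the final theorem of the block
-/

namespace Pool.Agent.SplG

open Cardinal Pool.Agent.SplK

theorem prep (K : Type) [LinearOrder K] (h : Inac K) (hsc : SCpt #K) :
    ∃ (R : Type) (_ : Preorder R) (_ : OrderTop R), Prep K R := by
  obtain ⟨hS⟩ := stp_of_inac K h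
  letI := hS
  obtain ⟨W, hW⟩ := hsc K
  exact ⟨RR K, inferInstance, inferInstance,
    { card := card_RR_le
      cc := rr_cc hW
      meas := fun n T P hP hcc hT => meas hsc n P hP hcc hT
      reg := fun T P hP => star_reg P hP
      pw := ⟨FF, FF_lt, FF_inac, fun T P hP => star_pw P hP⟩
      ap := fun T P hP => star_ap hW P hP }⟩

end Pool.Agent.SplG
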