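import Pool.Agent.SplG.St

set_option autoImplicit false
set_option linter.all false

/-!
# Mixing of tails with the same codes
-/

namespace Pool.Agent.SplG

open Cardinal Pool.Agent.SplK

variable {K : Type} [LinearOrder K] [Stp K]

/-- The code of a condition at `c`. -/
def cod (u : RR K) (c : K) : Option K := (u.f.1 c).map Prod.fst

theorem cod_some {u : RR K} {c D t : K} (h : u.f.1 c = some (D, t)) : cod u c = some D := by
  rw [cod, h]; rfl

theorem cod_eq {u : RR K} {c D : K} (h : cod u c = some D) : ∃ t, u.f.1 c = some (D, t) := by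
  unfold cod at h
  rcases hu : u.f.1 c with _ | ⟨D', t⟩
  · rw [hu] at h; cases h
  · rw [hu] at h
    have h1 : D' = D := Option.some.inj h
    exact ⟨t, by rw [h1]⟩

theorem rr_mono (a : K) {s s' : RR K} (h : s' ≤ s) : rr a s' ≤ rr a s := leF_rs h

theorem cr_self (a : K) (u : RR K) : cr a u u = u := RR.ext (ct_self _ _)

theorem rr_cr {a c : K} (h : a ≤ c) (s u : RR K) : rr c (cr a s u) = cr a s (rr c u) :=
  RR.ext (rs_ct_ge h _ _)

theorem rr_cr_self (a : K) (s u : RR K) : rr a (cr a s u) = rr a s := RR.ext (rs_ct le_rfl _ _)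

/-- A condition below `cr a w u` is below `cr a` of itself. -/
theorem le_cr_self {a : K} {x w u : RR K} (h : x ≤ cr a w u) : x ≤ cr a x u := by
  change leF x.f (ct a x.f u.f)
  rw [leF_split (a := a)]
  constructor
  · rw [rs_ct le_rfl]
    exact leF_refl (ok_rs x.ok)
  · intro b hb D t hbt
    rw [ct_ge hb] at hbt
    exact h b D t (by rw [cr_f, ct_ge hb]; exact hbt)

theorem tail_mix3 (a : K) (s u1 u2 : RR K) (hc : ∀ c, a ≤ c → cod u1 c = cod u2 c) :
    ∃ u : RR K, (∀ c, a ≤ c → cod u c = cod u1 c) ∧ cr a s u ≤ cr a s u1 ∧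
      (∀ w, (∀ v, v ≤ rr a w → ¬ v ≤ rr a s) → cr a w u ≤ cr a w u2) ∧
      ∀ u0, cr a s u1 ≤ cr a s u0 → (∀ w, cr a w u2 ≤ cr a w u0) → ∀ w, cr a w u ≤ cr a w u0 := by
  classical
  obtain ⟨G, hG⟩ : ∃ G : RR K, G = cr a s u1 := ⟨_, rfl⟩
  have hGge : ∀ c, a ≤ c → G.f.1 c = u1.f.1 c := fun c h => by rw [hG, cr_f, ct_ge h]
  -- values
  have key : ∀ c : K, ∃ o : Option (K × K), (o ≠ none → u1.f.1 c ≠ none) ∧
      ∀ D t1, a ≤ c → u1.f.1 c = some (D, t1) → ∃ t2 t'', u2.f.1 c = some (D, t2) ∧ o = some (D, t'') ∧ t'' ∈ und D ∧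
        (∀ w ∈ Cd c, leF w (rs c G.f) → leD D w t'' t1 ∧ leD D w t1 t'') ∧
        ∀ w ∈ Cd c, (∀ w' ∈ Cd c, leF w' w → ¬ leF w' (rs c G.f)) → leD D w t'' t2 ∧ leD D w t2 t'' := by
    intro c
    by_cases hac : a ≤ c
    · rcases h1 : u1.f.1 c with _ | ⟨D, t1⟩
      · refine ⟨none, fun hne => (hne rfl).elim, fun D t' _ he => ?_⟩
        cases he
      · obtain ⟨hVal, ht1⟩ := u1.ok.2 c D t1 h1
        have V := val_iff.mp hVal
        obtain ⟨t2, h2⟩ := cod_eq ((hc c hac).symm.trans (cod_some h1))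
        obtain ⟨t'', ht'', hA, hB⟩ := V.mix {w | w ∈ Cd c ∧ leF w (rs c G.f)} (fun w hw => hw.1)
          (fun w hw w' hw' hle => ⟨hw', leF_trans (cd_ok hw') (cd_ok hw.1) hle hw.2⟩) t1 ht1 t2 (u2.ok.2 c D t2 h2).2
        refine ⟨some (D, t''), fun _ => by simp, fun D1 t1' _ he => ?_⟩
        have he' := Option.some.inj he
        obtain ⟨hD1, ht1⟩ := Prod.mk.inj he'
        subst hD1
        subst ht1
        exact ⟨t2, t'', h2, rfl, ht'', fun w hw hle => hA w ⟨hw, hle⟩,
          fun w hw hno => hB w hw (fun w' hw' hle hmem => hno w' hw' hle hmem.2)⟩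
    · exact ⟨none, fun hne => (hne rfl).elim, fun D t' h1 _ => (hac h1).elim⟩
  choose g hg1 hg2 using key
  have hgb : ∃ b, ∀ c, g c ≠ none → c < b := by
    obtain ⟨b, hb⟩ := u1.f.2
    exact ⟨b, fun c hc => hb c (hg1 c hc)⟩
  obtain ⟨gF, hgF⟩ : ∃ gF : Fn K, ∀ c, gF.1 c = g c := ⟨⟨g, hgb⟩, fun _ => rfl⟩
  obtain ⟨uf, huf⟩ : ∃ uf : Fn K, uf = ct a emp gF := ⟨_, rfl⟩
  have hge : ∀ c, a ≤ c → uf.1 c = g c := fun c hc => by rw [huf, ct_ge hc, hgF]
  have hlt : ∀ c, c < a → uf.1 c = none := fun c hc => by rw [huf, ct_lt hc]; rfl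
  have hne : ∀ c, uf.1 c ≠ none → u1.f.1 c ≠ none := by
    intro c hc
    by_cases hac : a ≤ c
    · rw [hge c hac] at hc
      exact hg1 c hc
    · exact (hc (hlt c (not_le.mp hac))).elim
  have hval : ∀ c D t, uf.1 c = some (D, t) → ∃ t', a ≤ c ∧ u1.f.1 c = some (D, t') ∧ t ∈ und D := by
    intro c D t hc
    have hac : a ≤ c := by
      by_contra hac
      rw [hlt c (not_le.mp hac)] at hc
      cases hc
    have hne : u1.f.1 c ≠ none := hne c (by rw [hc]; simp)
    obtain ⟨⟨D1, t1⟩, h1⟩ := Option.ne_none_iff_exists'.mp hne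
    obtain ⟨t2, t'', -, h3, h4, -⟩ := hg2 c D1 t1 hac h1
    rw [hge c hac, h3] at hc
    obtain ⟨hD, ht⟩ := Prod.mk.inj (Option.some.inj hc)
    subst hD
    subst ht
    exact ⟨t1, hac, h1, h4⟩
  have hok : Ok uf := by
    constructor
    · intro c hc
      obtain ⟨b, hb, hb2⟩ := u1.ok.1 c hc
      exact ⟨b, hb, fun d hd hn => hb2 d hd (hne d hn)⟩
    · intro c D t hc
      obtain ⟨t', hac, h1, h2⟩ := hval c D t hc
      exact ⟨(u1.ok.2 c D t' h1).1, h2⟩
  obtain ⟨u, hu⟩ : ∃ u : RR K, u = ⟨uf, hok⟩ := ⟨_, rfl⟩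
  have huge : ∀ c, a ≤ c → u.f.1 c = g c := fun c hc => by rw [hu]; exact hge c hc
  -- the codes
  have hcod : ∀ c, a ≤ c → cod u c = cod u1 c := by
    intro c hac
    rcases h1 : u1.f.1 c with _ | ⟨D, t1⟩
    · have h2 : u.f.1 c = none := by
        by_contra h2
        rw [hu] at h2
        exact hne c h2 h1
      rw [cod, cod, h1, h2]
    · obtain ⟨t2, t'', -, h3, -⟩ := hg2 c D t1 hac h1
      rw [cod_some h1]
      exact cod_some ((huge c hac).trans h3)
  -- (i)
  have hi : cr a s u ≤ cr a s u1 := by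
    rw [← hG]
    have main : ∀ c : K, ∀ D t', G.f.1 c = some (D, t') → ∃ t'', (cr a s u).f.1 c = some (D, t'') ∧
        leD D (rs c (cr a s u).f) t'' t' := by
      intro c
      induction c using (wellFounded_lt (α := K)).induction with
      | _ c ih =>
        intro D t' hct
        by_cases hac : a ≤ c
        · have h1' : u1.f.1 c = some (D, t') := by rw [← hGge c hac]; exact hct
          obtain ⟨t2, t'', -, e1, e2, e3, e4⟩ := hg2 c D t' hac h1'
          refine ⟨t'', by rw [cr_f, ct_ge hac, huge c hac, e1], ?_⟩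
          refine (e3 _ (rs_mem (cr a s u).ok) ?_).1
          intro d D2 t2 hd
          have hdc : d < c := by
            by_contra hdc
            rw [rs_ge (not_lt.mp hdc)] at hd
            cases hd
          rw [rs_lt hdc] at hd
          obtain ⟨t3, h3, h4⟩ := ih d hdc D2 t2 hd
          refine ⟨t3, by rw [rs_lt hdc]; exact h3, ?_⟩
          rw [rs_rs hdc.le]
          exact h4
        · have h1' : s.f.1 c = some (D, t') := by rw [hG, cr_f, ct_lt (not_le.mp hac)] at hct; exact hct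
          refine ⟨t', by rw [cr_f, ct_lt (not_le.mp hac)]; exact h1', ?_⟩
          exact (val_iff.mp (s.ok.2 c D t' h1').1).refl _ (rs_mem (cr a s u).ok) t' (s.ok.2 c D t' h1').2
    exact fun c D t' hc => main c D t' hc
  -- (ii)
  have hii : ∀ w, (∀ v, v ≤ rr a w → ¬ v ≤ rr a s) → cr a w u ≤ cr a w u2 := by
    intro w hw c D t2 hct
    by_cases hac : a ≤ c
    · rw [cr_f, ct_ge hac] at hct
      obtain ⟨t1, h1⟩ := cod_eq ((hc c hac).trans (cod_some hct))
      obtain ⟨t2', t'', h2, e1, e2, e3, e4⟩ := hg2 c D t1 hac h1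
      have h3 : t2' = t2 := by
        rw [h2] at hct
        exact (Prod.mk.inj (Option.some.inj hct)).2
      subst h3
      refine ⟨t'', by rw [cr_f, ct_ge hac, huge c hac, e1], ?_⟩
      refine (e4 _ (rs_mem (cr a w u).ok) ?_).1
      intro w' hw' hle hle'
      obtain ⟨w'', hw''⟩ : ∃ w'' : RR K, w''.f = w' := ⟨⟨w', cd_ok hw'⟩, rfl⟩
      subst hw''
      refine hw (rr a w'') ?_ ?_
      · have h4 : rr a w'' ≤ rr a (rr c (cr a w u)) := rr_mono a (s' := w'') (s := rr c (cr a w u)) hle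
        have h5 : rr a (rr c (cr a w u)) = rr a w := by
          rw [rr_cr hac, rr_cr_self]
        rwa [h5] at h4
      · have h4 : rr a w'' ≤ rr a (rr c G) := rr_mono a (s' := w'') (s := rr c G) hle'
        have h5 : rr a (rr c G) = rr a s := by
          rw [hG, rr_cr hac, rr_cr_self]
        rwa [h5] at h4
    · rw [cr_f, ct_lt (not_le.mp hac)] at hct
      refine ⟨t2, by rw [cr_f, ct_lt (not_le.mp hac)]; exact hct, ?_⟩
      exact (val_iff.mp (w.ok.2 c D t2 hct).1).refl _ (rs_mem (cr a w u).ok) t2 (w.ok.2 c D t2 hct).2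
  refine ⟨u, hcod, hi, hii, ?_⟩
  -- (iii)
  intro u0 h1 h2 w c D t hct
  by_cases hac : a ≤ c
  · rw [cr_f, ct_ge hac] at hct
    have hu0 : ∀ x : RR K, (cr a x u0).f.1 c = some (D, t) := fun x => by rw [cr_f, ct_ge hac]; exact hct
    obtain ⟨t1, h3, h4⟩ := h1 c D t (hu0 s)
    rw [cr_f, ct_ge hac] at h3
    obtain ⟨t2, t'', h5, e1, e2, e3, e4⟩ := hg2 c D t1 hac h3
    have V := val_iff.mp (u0.ok.2 c D t hct).1
    have ht : t ∈ und D := (u0.ok.2 c D t hct).2
    refine ⟨t'', by rw [cr_f, ct_ge hac, huge c hac, e1], ?_⟩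
    refine V.dense _ (rs_mem (cr a w u).ok) _ e2 _ ht (fun v' hv' hle => ?_)
    by_cases hb : ∃ v'' ∈ Cd c, leF v'' v' ∧ leF v'' (rs c G.f)
    · obtain ⟨v'', hv1, hv2, hv3⟩ := hb
      refine ⟨v'', hv1, hv2, ?_⟩
      rw [← hG] at h4
      exact V.trans _ _ _ _ (e3 v'' hv1 hv3).1 (V.mono _ (rs_mem G.ok) _ hv1 hv3 _ _ h4)
    · refine ⟨v', hv', leF_refl (cd_ok hv'), ?_⟩
      refine V.trans _ _ _ _ (e4 v' hv' (fun w' hw' hle' hle'' => hb ⟨w', hw', hle', hle''⟩)).1 ?_
      obtain ⟨x, hx⟩ : ∃ x : RR K, x.f = v' := ⟨⟨v', cd_ok hv'⟩, rfl⟩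
      subst hx
      have hxc : rr c x = x := RR.ext (cd_rs hv')
      have hle1 : x ≤ cr a w (rr c u) := by rw [← rr_cr hac]; exact hle
      have hle2 : x ≤ cr a x (rr c u) := le_cr_self hle1
      have hperp : ∀ z, z ≤ rr a x → ¬ z ≤ rr a s := by
        intro z hz1 hz2
        have hza : rr a z ≤ rr a x := by
          have := rr_mono a hz1
          have e : rr a (rr a x) = rr a x := RR.ext (rs_rs le_rfl _)
          rwa [e] at this
        have hzs : rr a z ≤ rr a s := by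
          have := rr_mono a hz2
          have e : rr a (rr a s) = rr a s := RR.ext (rs_rs le_rfl _)
          rwa [e] at this
        apply hb
        refine ⟨(cr a z x).f, ?_, ?_, ?_⟩
        · have h6 : rr c (cr a z x) = cr a z x := by rw [rr_cr hac, hxc]
          have h7 : (rr c (cr a z x)).f ∈ Cd c := rs_mem (cr a z x).ok
          rwa [h6] at h7
        · have h6 : cr a z x ≤ cr a x x := cr_base hza
          rwa [cr_self] at h6
        · have h6 : cr a z x ≤ cr a z (rr c u) := by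
            refine cr_mono (s := x) ?_ hza
            rw [cr_self]
            exact hle2
          have h7 : cr a z (rr c u) ≤ cr a s (rr c u) := cr_base hzs
          have h8 : cr a s (rr c u) ≤ rr c G := by
            rw [← rr_cr hac, hG]
            exact rr_mono c hi
          exact (h6.trans h7).trans h8
      have h6 : cr a x (rr c u) ≤ cr a x (rr c u2) := by
        rw [← rr_cr hac, ← rr_cr hac]
        exact rr_mono c (hii x hperp)
      have h7 : x ≤ rr c (cr a x u2) := by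
        rw [rr_cr hac]
        exact hle2.trans h6
      obtain ⟨t2', h8, h9⟩ := h2 x c D t (hu0 x)
      rw [cr_f, ct_ge hac, h5] at h8
      have h10 : t2 = t2' := (Prod.mk.inj (Option.some.inj h8)).2
      subst h10
      exact V.mono _ (rs_mem (cr a x u2).ok) _ hv' h7 _ _ h9
  · rw [cr_f, ct_lt (not_le.mp hac)] at hct
    refine ⟨t, by rw [cr_f, ct_lt (not_le.mp hac)]; exact hct, ?_⟩
    exact (val_iff.mp (w.ok.2 c D t hct).1).refl _ (rs_mem (cr a w u).ok) t (w.ok.2 c D t hct).2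

end Pool.Agent.SplG
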