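import Pool.Agent.SplG.Ap1

set_option autoImplicit false
set_option linter.all false

/-!
# Ap2: mixing in the two-step iteration
-/

namespace Pool.Agent.SplG

open Cardinal Pool.Agent.SplK

variable {K : Type} [LinearOrder K] [Stp K] {T : Type}

theorem star_mix3 (P : RPos (RR K) T) (a : K) (s : RR K) (m1 m2 m0 : RR K × T)
    (hc : ∀ c, a ≤ c → cod m1.1 c = cod m2.1 c) (h1 : tw P a s m1 ≤ tw P a s m0)
    (h2 : ∀ w, tw P a w m2 ≤ tw P a w m0) :
    ∃ m : RR K × T, (∀ c, a ≤ c → cod m.1 c = cod m1.1 c) ∧ tw P a s m ≤ tw P a s m1 ∧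
      (∀ w, (∀ v, v ≤ rr a w → ¬ v ≤ rr a s) → tw P a w m ≤ tw P a w m2) ∧
      ∀ w, tw P a w m ≤ tw P a w m0 := by
  obtain ⟨u, hu1, hu2, hu3, hu4⟩ := tail_mix3 a s m1.1 m2.1 hc
  obtain ⟨t, ht1, ht2⟩ := P.mix {r | r ≤ cr a s m1.1} (fun r hr r' hr' => hr'.trans hr) m1.2 m2.2
  refine ⟨(u, t), hu1, ⟨hu2, (ht1 _ hu2).1⟩, fun w hw => ⟨hu3 w hw, ?_⟩, fun w => ⟨hu4 m0.1 h1.1 (fun w => (h2 w).1) w, ?_⟩⟩
  · refine (ht2 (cr a w u) (fun r' hr' hm => ?_)).1
    have e1 := rr_mono a hr'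
    have e2 := rr_mono a (show r' ≤ cr a s m1.1 from hm)
    rw [rr_cr_self] at e1 e2
    exact hw (rr a r') e1 e2
  · apply P.dense
    intro r' hr'
    by_cases hb : ∃ r'' ≤ r', r'' ≤ cr a s m1.1
    · obtain ⟨r'', h3, h4⟩ := hb
      exact ⟨r'', h3, P.trans _ _ _ _ (ht1 r'' h4).1 (P.mono _ _ _ _ h4 h1.2)⟩
    · have hno : ∀ r'' ≤ r', r'' ∉ {r | r ≤ cr a s m1.1} := fun r'' h3 h4 => hb ⟨r'', h3, h4⟩
      refine ⟨r', le_rfl, P.trans _ _ _ _ (ht2 r' hno).1 ?_⟩
      have hle : r' ≤ cr a r' u := le_cr_self hr'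
      have hperp : ∀ z, z ≤ rr a r' → ¬ z ≤ rr a s := by
        intro z hz1 hz2
        have hza : rr a z ≤ rr a r' := by
          have := rr_mono a hz1
          have e : rr a (rr a r') = rr a r' := RR.ext (rs_rs le_rfl _)
          rwa [e] at this
        have hzs : rr a z ≤ rr a s := by
          have := rr_mono a hz2
          have e : rr a (rr a s) = rr a s := RR.ext (rs_rs le_rfl _)
          rwa [e] at this
        apply hb
        refine ⟨cr a z r', ?_, ?_⟩
        · have h6 : cr a z r' ≤ cr a r' r' := cr_base hza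
          rwa [cr_self] at h6
        · have h6 : cr a z r' ≤ cr a z u := by
            refine cr_mono (s := r') ?_ hza
            rw [cr_self]
            exact hle
          have h7 : cr a z u ≤ cr a s u := cr_base hzs
          exact (h6.trans h7).trans hu2
      exact P.mono _ _ _ _ (hle.trans (hu3 r' hperp)) (h2 r').2

end Pool.Agent.SplG
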