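import Pool.Agent.SplG.Ik
import Pool.Agent.SplG.Sz

set_option autoImplicit false
set_option linter.all false

/-!
# Module Kd (reflection for conditions) difficulty 2

`Bl a s` means `s.f ∈ Cd a` (s lives below a).
* `cd_large`: the support of s is bounded by some b (`s.f.2`), eventually b < kx k x; then `s.f ∈ Cd (kx k x)` (s is Ok, `Cd` needs support below).
* `cd_const`: let a_x = kx k x. Eventually Inac (Iio a_x) (`kx_inac`), so by Easton support (`(h).1` at c = a_x) there is b_x < a_x with the support of f x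
  below b_x, i.e. `(f x).f ∈ Cd b_x`. `kx_const`: b_x = b constant eventually. The set {s : RR K | s.f ∈ Cd b} has size `#(Cd b) < #K`
  (`card_Cd_lt`, RR.f injective). `nfu_small`.
* `cd_diag`: otherwise eventually there is s = f x with Bl (kx k x) s and ¬ p s x; `cd_const`; contradiction. (RR K is nonempty: ⊤.)
* `cd_inter`: as `nfu_inter`: apply `cd_diag` to p s x := (s ∈ b x ↔ eventually s ∈ b x').
-/

namespace Pool.Agent.SplG

open Cardinal Pool.Agent.SplK

variable {K : Type} [LinearOrder K] [Stp K] {Θ : Type} {W : Ultrafilter (Set Θ)}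

theorem cd_large (hW : NFU #K Θ W) (k : K → Θ) (hk : Function.Injective k) (s : RR K) :
    ∀ᶠ x : Set Θ in (W : Filter (Set Θ)), Bl (kx k x) s := by
  obtain ⟨b, hb⟩ := s.f.2
  filter_upwards [kx_large hW k hk b] with x hx
  exact ⟨s.ok.1, fun c D t hc => ⟨(hb c (by rw [hc]; exact Option.some_ne_none _)).trans hx, s.ok.2 c D t hc⟩⟩

theorem cd_const (hW : NFU #K Θ W) (k : K → Θ) (hk : Function.Injective k) (f : Set Θ → RR K)
    (h : ∀ᶠ x : Set Θ in (W : Filter (Set Θ)), Bl (kx k x) (f x)) :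
    ∃ s, ∀ᶠ x : Set Θ in (W : Filter (Set Θ)), f x = s := by
  classical
  set g : Set Θ → K := fun x => if h : ∃ b < kx k x, (f x).f ∈ Cd b then h.choose else Stp.bt with hg
  have h1 : ∀ᶠ x : Set Θ in (W : Filter (Set Θ)), g x < kx k x ∧ (f x).f ∈ Cd (g x) := by
    filter_upwards [h, kx_inac hW k hk] with x hx hi
    have h2 : ∃ b < kx k x, (f x).f ∈ Cd b := by
      obtain ⟨b, hb, hb'⟩ := (f x).ok.1 (kx k x) hi
      refine ⟨b, hb, (f x).ok.1, fun c D t hc => ?_⟩
      have h3 := hx.2 c D t hc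
      exact ⟨hb' c h3.1 (by rw [hc]; exact Option.some_ne_none _), h3.2⟩
    rw [hg]
    dsimp only
    rw [dif_pos h2]
    exact h2.choose_spec
  obtain ⟨b, hb⟩ := kx_const hW k hk g (h1.mono fun x hx => hx.1)
  have hS : #({s : RR K | s.f ∈ Cd b} : Set (RR K)) < #K := by
    refine lt_of_le_of_lt ?_ (card_Cd_lt b)
    refine mk_le_of_injective (f := fun s : {s : RR K | s.f ∈ Cd b} => (⟨s.1.f, s.2⟩ : Cd b)) ?_
    intro s s' hss
    have := congrArg Subtype.val hss
    exact Subtype.ext (RR.ext this)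
  obtain ⟨s, -, hs⟩ := nfu_small hW {s : RR K | s.f ∈ Cd b} hS f (by
    filter_upwards [h1, hb] with x hx hx'
    rw [hx'] at hx
    exact hx.2)
  exact ⟨s, hs⟩

theorem cd_diag (hW : NFU #K Θ W) (k : K → Θ) (hk : Function.Injective k) (p : RR K → Set Θ → Prop)
    (h : ∀ s, ∀ᶠ x : Set Θ in (W : Filter (Set Θ)), p s x) :
    ∀ᶠ x : Set Θ in (W : Filter (Set Θ)), ∀ s, Bl (kx k x) s → p s x := by
  classical
  by_contra hc
  rw [← Ultrafilter.eventually_not] at hc
  set f : Set Θ → RR K := fun x => if h : ∃ s, Bl (kx k x) s ∧ ¬ p s x then h.choose else ⊤ with hf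
  have h1 : ∀ᶠ x : Set Θ in (W : Filter (Set Θ)), Bl (kx k x) (f x) ∧ ¬ p (f x) x := by
    filter_upwards [hc] with x hx
    push Not at hx
    have h2 : ∃ s, Bl (kx k x) s ∧ ¬ p s x := hx
    rw [hf]
    dsimp only
    rw [dif_pos h2]
    exact h2.choose_spec
  obtain ⟨s, hs⟩ := cd_const hW k hk f (h1.mono fun x hx => hx.1)
  have h3 : ∀ᶠ x : Set Θ in (W : Filter (Set Θ)), False := by
    filter_upwards [h1, hs, h s] with x hx hx' hp
    rw [hx'] at hx
    exact hx.2 hp
  exact (Filter.eventually_false_iff_eq_bot.mp h3 ▸ W.neBot').ne rfl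

theorem cd_inter (hW : NFU #K Θ W) (k : K → Θ) (hk : Function.Injective k) (b : Set Θ → Set (RR K)) :
    ∀ᶠ x : Set Θ in (W : Filter (Set Θ)), ∀ s, Bl (kx k x) s →
      (s ∈ b x ↔ ∀ᶠ x' : Set Θ in (W : Filter (Set Θ)), s ∈ b x') := by
  refine cd_diag hW k hk (fun s x => (s ∈ b x ↔ ∀ᶠ x' : Set Θ in (W : Filter (Set Θ)), s ∈ b x')) ?_
  intro s
  by_cases h : ∀ᶠ x' : Set Θ in (W : Filter (Set Θ)), s ∈ b x'
  · filter_upwards [h] with x hx
    exact ⟨fun _ => h, fun _ => hx⟩
  · have h' := Ultrafilter.eventually_not.mpr h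
    filter_upwards [h'] with x hx
    exact ⟨fun h2 => (hx h2).elim, fun h2 => (h h2).elim⟩

end Pool.Agent.SplG
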