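import Pool.Agent.SplG.RDefs2

set_option autoImplicit false
set_option linter.all false

/-!
# Module Tm (mixing in the tails) difficulty 3

Given `h : cr a s u' ≤ cr a s u`. Define u'' : for c < a: none. For c ≥ a with u'.f c = none: none (then u.f c = none too). For c ≥ a with
u'.f c = some (D, t'): let t := the value of u at c if `u.f c = some (D, t)` (same D by h), and t := bt if `u.f c = none`. Let V := val_iff.mp (Val c D) and
b := {w | w ∈ Cd c ∧ leF w (rs c (ct a s u'.f))} (a downward closed subset of Cd c by leF_trans). By V.mix choose t'' ∈ und D with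
(∀ w ∈ b, leD D w t'' t' ∧ leD D w t' t'') and (∀ w ∈ Cd c without extension in b, leD D w t'' t ∧ leD D w t t''). Put u''.f c = some (D, t'').
The support of u'' is the support of u' from a on: u'' is Ok (Easton and bounded support from u').
(i) For every w : RR K: `cr a w u'' ≤ cr a w u`: below a refl (value of w, `rs`). At c ≥ a with u.f c = some (D, t): the context is
  v := rs c (ct a w u'') ∈ Cd c. By V.dense it is enough: every v' ≤ v in Cd c has v'' ≤ v' in Cd c with leD D v'' t'' t. If v' has an extension v'' ∈ b: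
  leD D v'' t'' t' and leD D v'' t' t (from h at c: leD D (rs c (cr a s u').f) t' t, and mono since v'' ≤ rs c (ct a s u'.f)). Otherwise v'' = v' and the second clause.
(ii) `cr a s u'' ≤ cr a s u'`: by wellfounded induction on c: leF (rs c (ct a s u'')) (rs c (ct a s u')); at c ≥ a with u'.f c = some (D, t') the
  context rs c (ct a s u'') is ∈ b by the induction hypothesis, so leD D _ t'' t'. (leF of the restrictions at c for all smaller stages; use rs_rs, rs_ct_ge.)
-/

namespace Pool.Agent.SplG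

open Cardinal Pool.Agent.SplK

variable {K : Type} [LinearOrder K] [Stp K]

theorem tail_mix (a : K) (s u u' : RR K) (h : cr a s u' ≤ cr a s u) :
    ∃ u'' : RR K, (∀ w, cr a w u'' ≤ cr a w u) ∧ cr a s u'' ≤ cr a s u' := by
  classical
  have hF : leF (ct a s.f u'.f) (ct a s.f u.f) := h
  obtain ⟨G, hG⟩ : ∃ G : Fn K, G = ct a s.f u'.f := ⟨_, rfl⟩
  have hGok : Ok G := by rw [hG]; exact ok_ct s.ok u'.ok
  -- values
  have key : ∀ c : K, ∃ o : Option (K × K), (o ≠ none → u'.f.1 c ≠ none) ∧
      ∀ D t', a ≤ c → u'.f.1 c = some (D, t') → ∃ t'', o = some (D, t'') ∧ t'' ∈ und D ∧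
        (∀ w ∈ Cd c, leF w (rs c G) → leD D w t'' t' ∧ leD D w t' t'') ∧
        ∀ t, u.f.1 c = some (D, t) → ∀ w ∈ Cd c, (∀ w' ∈ Cd c, leF w' w → ¬ leF w' (rs c G)) →
          leD D w t'' t ∧ leD D w t t'' := by
    intro c
    by_cases hac : a ≤ c
    · rcases hc : u'.f.1 c with _ | ⟨D, t'⟩
      · refine ⟨none, fun hne => (hne rfl).elim, fun D t' _ he => ?_⟩
        cases he
      · obtain ⟨hVal, ht'⟩ := u'.ok.2 c D t' hc
        have V := val_iff.mp hVal
        obtain ⟨tu, htu, htu2⟩ : ∃ tu ∈ und D, ∀ t, u.f.1 c = some (D, t) → t = tu := by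
          rcases huc : u.f.1 c with _ | ⟨D2, t2⟩
          · exact ⟨Stp.bt, V.bot, fun t ht => by cases ht⟩
          · obtain ⟨t3, h3, h4⟩ := hF c D2 t2 (by rw [ct_ge hac]; exact huc)
            rw [ct_ge hac, hc] at h3
            have hD : D = D2 := by
              have := Option.some.inj h3
              exact (Prod.mk.inj this).1
            subst hD
            refine ⟨t2, (u.ok.2 c D t2 huc).2, fun t ht => ?_⟩
            have := Option.some.inj ht
            exact ((Prod.mk.inj this).2).symm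
        obtain ⟨t'', ht'', hA, hB⟩ := V.mix {w | w ∈ Cd c ∧ leF w (rs c G)} (fun w hw => hw.1)
          (fun w hw w' hw' hle => ⟨hw', leF_trans (cd_ok hw') (cd_ok hw.1) hle hw.2⟩) t' ht' tu htu
        refine ⟨some (D, t''), fun _ => by simp, fun D1 t1 _ he => ?_⟩
        have he' := Option.some.inj he
        obtain ⟨hD1, ht1⟩ := Prod.mk.inj he'
        subst hD1
        subst ht1
        refine ⟨t'', rfl, ht'', fun w hw hle => hA w ⟨hw, hle⟩, fun t ht w hw hno => ?_⟩
        rw [htu2 t ht]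
        exact hB w hw (fun w' hw' hle hmem => hno w' hw' hle hmem.2)
    · exact ⟨none, fun hne => (hne rfl).elim, fun D t' h1 _ => (hac h1).elim⟩
  choose g hg1 hg2 using key
  have hgb : ∃ b, ∀ c, g c ≠ none → c < b := by
    obtain ⟨b, hb⟩ := u'.f.2
    exact ⟨b, fun c hc => hb c (hg1 c hc)⟩
  -- only from `a` on
  obtain ⟨gF, hgF⟩ : ∃ gF : Fn K, ∀ c, gF.1 c = g c := ⟨⟨g, hgb⟩, fun _ => rfl⟩
  obtain ⟨u2, hu2⟩ : ∃ u2 : Fn K, u2 = ct a emp gF := ⟨_, rfl⟩
  have hu2ge : ∀ c, a ≤ c → u2.1 c = g c := fun c hc => by rw [hu2, ct_ge hc, hgF]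
  have hu2lt : ∀ c, c < a → u2.1 c = none := fun c hc => by rw [hu2, ct_lt hc]; rfl
  have hu2ne : ∀ c, u2.1 c ≠ none → u'.f.1 c ≠ none := by
    intro c hc
    by_cases hac : a ≤ c
    · rw [hu2ge c hac] at hc
      exact hg1 c hc
    · exact (hc (hu2lt c (not_le.mp hac))).elim
  have hval : ∀ c D t, u2.1 c = some (D, t) → ∃ t', a ≤ c ∧ u'.f.1 c = some (D, t') ∧ t ∈ und D := by
    intro c D t hc
    have hac : a ≤ c := by
      by_contra hac
      rw [hu2lt c (not_le.mp hac)] at hc
      cases hc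
    have hne : u'.f.1 c ≠ none := hu2ne c (by rw [hc]; simp)
    obtain ⟨⟨D1, t1⟩, h1⟩ := Option.ne_none_iff_exists'.mp hne
    obtain ⟨t2, h2, h3, _⟩ := hg2 c D1 t1 hac h1
    rw [hu2ge c hac, h2] at hc
    obtain ⟨hD, ht⟩ := Prod.mk.inj (Option.some.inj hc)
    subst hD
    subst ht
    exact ⟨t1, hac, h1, h3⟩
  have hok : Ok u2 := by
    constructor
    · intro c hc
      obtain ⟨b, hb, hb2⟩ := u'.ok.1 c hc
      exact ⟨b, hb, fun d hd hne => hb2 d hd (hu2ne d hne)⟩
    · intro c D t hc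
      obtain ⟨t', hac, h1, h2⟩ := hval c D t hc
      exact ⟨(u'.ok.2 c D t' h1).1, h2⟩
  refine ⟨⟨u2, hok⟩, ?_, ?_⟩
  · intro w
    change leF (ct a w.f u2) (ct a w.f u.f)
    have hokw : Ok (ct a w.f u2) := ok_ct w.ok hok
    intro c D t hct
    by_cases hac : a ≤ c
    · rw [ct_ge hac] at hct
      obtain ⟨t', h1, h2⟩ := hF c D t (by rw [ct_ge hac]; exact hct)
      have h1' : u'.f.1 c = some (D, t') := by rw [ct_ge hac] at h1; exact h1
      obtain ⟨t'', e1, e2, e3, e4⟩ := hg2 c D t' hac h1'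
      refine ⟨t'', by rw [ct_ge hac, hu2ge c hac, e1], ?_⟩
      have V := val_iff.mp (u.ok.2 c D t hct).1
      rw [← hG] at h2
      refine V.dense _ (rs_mem hokw) _ e2 _ (u.ok.2 c D t hct).2 (fun v' hv' hle => ?_)
      by_cases hb : ∃ v'' ∈ Cd c, leF v'' v' ∧ leF v'' (rs c G)
      · obtain ⟨v'', hv1, hv2, hv3⟩ := hb
        refine ⟨v'', hv1, hv2, ?_⟩
        exact V.trans _ _ _ _ (e3 v'' hv1 hv3).1 (V.mono _ (rs_mem hGok) _ hv1 hv3 _ _ h2)
      · refine ⟨v', hv', leF_refl (cd_ok hv'), ?_⟩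
        exact (e4 t hct v' hv' (fun w' hw' hle' hle'' => hb ⟨w', hw', hle', hle''⟩)).1
    · rw [ct_lt (not_le.mp hac)] at hct
      refine ⟨t, by rw [ct_lt (not_le.mp hac)]; exact hct, ?_⟩
      exact (val_iff.mp (w.ok.2 c D t hct).1).refl _ (rs_mem hokw) t (w.ok.2 c D t hct).2
  · change leF (ct a s.f u2) (ct a s.f u'.f)
    rw [← hG]
    have hoks : Ok (ct a s.f u2) := ok_ct s.ok hok
    have main : ∀ c : K, ∀ D t', G.1 c = some (D, t') → ∃ t'', (ct a s.f u2).1 c = some (D, t'') ∧
        leD D (rs c (ct a s.f u2)) t'' t' := by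
      intro c
      induction c using (wellFounded_lt (α := K)).induction with
      | _ c ih =>
        intro D t' hct
        by_cases hac : a ≤ c
        · have h1' : u'.f.1 c = some (D, t') := by rw [hG, ct_ge hac] at hct; exact hct
          obtain ⟨t'', e1, e2, e3, e4⟩ := hg2 c D t' hac h1'
          refine ⟨t'', by rw [ct_ge hac, hu2ge c hac, e1], ?_⟩
          refine (e3 _ (rs_mem hoks) ?_).1
          intro d D2 t2 hd
          have hdc : d < c := by
            by_contra hdc
            rw [rs_ge (not_lt.mp hdc)] at hd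
            cases hd
          rw [rs_lt hdc] at hd
          obtain ⟨t3, h3, h4⟩ := ih d hdc D2 t2 hd
          refine ⟨t3, by rw [rs_lt hdc]; exact h3, ?_⟩
          rw [rs_rs hdc.le]
          exact h4
        · rw [hG, ct_lt (not_le.mp hac)] at hct
          refine ⟨t', by rw [ct_lt (not_le.mp hac)]; exact hct, ?_⟩
          exact (val_iff.mp (s.ok.2 c D t' hct).1).refl _ (rs_mem hoks) t' (s.ok.2 c D t' hct).2
    exact fun c D t' hc => main c D t' hc

end Pool.Agent.SplG
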