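import Pool.Agent.SplG.Tc
import Pool.Agent.SplG.Tm

set_option autoImplicit false
set_option linter.all false

/-!
# Module St (the tails of the two-step iteration) difficulty 2

`tw P a w m = ⟨cr a w m.1, m.2⟩ : Star P`; `star_le`: x ≤ y ↔ x.r ≤ y.r ∧ P.le x.r x.t y.t.
* `cr_mono`: from `cr a s u' ≤ cr a s u` and `rr a w ≤ rr a s` (leF (rs a w.f) (rs a s.f)) get `cr a w u' ≤ cr a w u`, and
  `cr a w u ≤ cr a s u`: use `leF_ct` (RDefs): with w' := w, r' := (cr a s u').f; note `ct_ct_right` and `rs_ct`.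
  For `cr a w u ≤ cr a s u`: `leF_split`: below a: hypothesis; from a on: same values, refl.
* `tw_mono`: first coordinate by cr_mono; second: P.mono along `cr a w m'.1 ≤ cr a s m'.1`.
* `tw_base`: same with the other inequality.
* `tw_split`: z ≤ tw P a w m: put w' := rr a z.r; then Bl a w', w' ≤ rr a w, `z = tw P a w' (z.r, z.t)` (`ct_rs`, `ct_self`) and
  `z ≤ tw P a w' m` (below a refl; from a on as z.r ≤ cr a w m.1; second coordinate the same).
* `star_lb`: `tail_lb` for the first coordinates gives u; put r := cr a s u. Then P.Closed #K for the family (f i).2 and the condition r: for i, j, r' ≤ r take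
  r'' = r' and k: `P.le (cr a s (f k).1) (f k).2 (f i).2` and P.mono along r' ≤ r ≤ cr a s (f k).1. Get t with P.le r t (f i).2.
* `star_mix`: `tail_mix` for the first coordinates gives u''. b := {r | r ≤ cr a s m'.1} (down closed). P.mix b gives t'' with t'' equivalent to m'.2 on b
  and to m.2 at conditions without extension in b. For all w: `tw P a w (u'', t'') ≤ tw P a w m`: second coordinate by P.dense at cr a w u'': below any r' there
  is either r'' ∈ b (then t'' ≤ m'.2 ≤ m.2 at r'': from h and mono) or r' itself has no extension in b. `tw P a s (u'', t'') ≤ tw P a s m'`: cr a s u'' ∈ b.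
-/

namespace Pool.Agent.SplG

open Cardinal Pool.Agent.SplK

variable {K : Type} [LinearOrder K] [Stp K] {T : Type}

theorem cr_mono {a : K} {s w u u' : RR K} (h : cr a s u' ≤ cr a s u) (hw : rr a w ≤ rr a s) :
    cr a w u' ≤ cr a w u := by
  have h1 : leF w.f (rs a (ct a s.f u'.f)) := by
    rw [rs_ct le_rfl]
    exact leF_trans w.ok (ok_rs w.ok) (leF_rs_self a w.ok) hw
  have h2 := leF_ct (a := a) w.ok (ok_ct s.ok u'.ok) h h1
  rw [cr_f, ct_ct_right, ct_ct_right] at h2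
  exact h2

theorem cr_base {a : K} {s w u : RR K} (hw : rr a w ≤ rr a s) : cr a w u ≤ cr a s u := by
  change leF (ct a w.f u.f) (ct a s.f u.f)
  rw [leF_split (a := a)]
  constructor
  · rw [rs_ct le_rfl, rs_ct le_rfl]
    exact hw
  · intro b hb D t hbt
    rw [ct_ge hb] at hbt
    refine ⟨t, by rw [ct_ge hb]; exact hbt, ?_⟩
    exact (val_iff.mp (u.ok.2 b D t hbt).1).refl _ (rs_mem (ok_ct w.ok u.ok)) _ (u.ok.2 b D t hbt).2

theorem tw_mono (P : RPos (RR K) T) {a : K} {s w : RR K} {m m' : RR K × T} (h : tw P a s m' ≤ tw P a s m)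
    (hw : rr a w ≤ rr a s) : tw P a w m' ≤ tw P a w m := by
  exact ⟨cr_mono h.1 hw, P.mono _ _ _ _ (cr_base hw) h.2⟩

theorem tw_base (P : RPos (RR K) T) {a : K} {s w : RR K} {m : RR K × T} (hw : rr a w ≤ rr a s) :
    tw P a w m ≤ tw P a s m := by
  exact ⟨cr_base hw, P.refl _ _⟩

theorem tw_split (P : RPos (RR K) T) {a : K} {w : RR K} {m : RR K × T} {z : Star P} (h : z ≤ tw P a w m) :
    Bl a (rr a z.r) ∧ rr a z.r ≤ rr a w ∧ z = tw P a (rr a z.r) (z.r, z.t) ∧ z ≤ tw P a (rr a z.r) m := by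
  have h1 : leF z.r.f (ct a w.f m.1.f) := h.1
  refine ⟨rs_mem z.r.ok, ?_, ?_, ?_⟩
  · have h2 := leF_rs (a := a) h1
    rw [rs_ct le_rfl] at h2
    exact h2
  · obtain ⟨r, t⟩ := z
    have e : cr a (rr a r) r = r := by
      apply RR.ext
      rw [cr_f, rr_f, ct_rs, ct_self]
    unfold tw
    dsimp only
    rw [e]
  · refine ⟨?_, h.2⟩
    change leF z.r.f (ct a (rs a z.r.f) m.1.f)
    rw [leF_split (a := a)]
    constructor
    · rw [rs_ct le_rfl, rs_rs le_rfl]
      exact leF_refl (ok_rs z.r.ok)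
    · intro b hb D t hbt
      rw [ct_ge hb] at hbt
      exact h1 b D t (by rw [ct_ge hb]; exact hbt)

theorem star_lb (P : RPos (RR K) T) (hP : P.Closed #K) (a : K) (s : RR K) {ι : Type} (hι : Big a #ι) (hK : #ι < #K)
    (f : ι → RR K × T) (hf : ∀ i j, ∃ k, tw P a s (f k) ≤ tw P a s (f i) ∧ tw P a s (f k) ≤ tw P a s (f j)) :
    ∃ m : RR K × T, ∀ i, tw P a s m ≤ tw P a s (f i) := by
  obtain ⟨u, hu⟩ := tail_lb a s hι hK (fun i => (f i).1) (fun i j => by
    obtain ⟨k, h1, h2⟩ := hf i j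
    exact ⟨k, h1.1, h2.1⟩)
  obtain ⟨t, ht⟩ := hP ι (fun i => (f i).2) (cr a s u) hK (fun i j r' hr' => by
    obtain ⟨k, h1, h2⟩ := hf i j
    exact ⟨r', le_rfl, k, P.mono _ _ _ _ (hr'.trans (hu k)) h1.2, P.mono _ _ _ _ (hr'.trans (hu k)) h2.2⟩)
  exact ⟨(u, t), fun i => ⟨hu i, ht i⟩⟩

theorem star_mix (P : RPos (RR K) T) (a : K) (s : RR K) (m m' : RR K × T) (h : tw P a s m' ≤ tw P a s m) :
    ∃ m'' : RR K × T, (∀ w, tw P a w m'' ≤ tw P a w m) ∧ tw P a s m'' ≤ tw P a s m' := by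
  obtain ⟨u, hu1, hu2⟩ := tail_mix a s m.1 m'.1 h.1
  obtain ⟨t, ht1, ht2⟩ := P.mix {r | r ≤ cr a s m'.1} (fun r hr r' hr' => hr'.trans hr) m'.2 m.2
  refine ⟨(u, t), fun w => ⟨hu1 w, ?_⟩, ⟨hu2, (ht1 _ hu2).1⟩⟩
  apply P.dense
  intro r' hr'
  by_cases hb : ∃ r'' ≤ r', r'' ≤ cr a s m'.1
  · obtain ⟨r'', h1, h2⟩ := hb
    exact ⟨r'', h1, P.trans _ _ _ _ (ht1 r'' h2).1 (P.mono _ _ _ _ h2 h.2)⟩
  · push Not at hb
    exact ⟨r', le_rfl, (ht2 r' (fun r'' hr'' hm => hb r'' hr'' hm)).1⟩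

end Pool.Agent.SplG
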