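import Pool.Agent.SplG.Kd
import Pool.Agent.SplG.St
import Pool.Agent.SplG.Ex
import Pool.Agent.SplG.MDefs

set_option autoImplicit false
set_option linter.all false

/-!
# Module MuA (the measure) difficulty 3

a_x := kx k x, x_T := {t | g t ∈ x}, D x, c x, m x as in hM. For p = ⟨s, t⟩ : Star P put `z x p := tw P (sx a_x) (ex a_x (D x) s (c x t)) (m x)`.
  μ X := {p | eventually Frc (X a_x) (z x p)}.
Eventually (for fixed p): Bl a_x p.r (`cd_large`), g p.t ∈ x (fine), so z x p ≤ p by (MData.le). For p' ≤ p eventually z x p' ≤ z x p: `ex_le_iff` (rr a p'.r ≤ rr a p.r, and leD from Rfl.le and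
P.le p'.r p'.t p.t; for Bl a s: rr a s = s), then `tw_base` (rr (sx a) of both).
* down: Frc.mono. * cons: eventually Frc (X a_x) (z x p) and Frc (SplK.Neg (X a_x)) (z x p): contradiction (`frc_neg_false`). (W is not ⊥.)
* dec: p ∉ μ X: eventually ¬ Frc (X a_x) (z x p), so there is y = y_x ≤ z x p with y ∈ SplK.Neg (X a_x) (`frc_or_neg`). Eventually j X ∈ x. Let w := ex a_x D p.r (c p.t), w1 := rr (sx a_x) y.r: by `tw_split` Bl (sx a_x) w1,
  w1 ≤ rr (sx a_x) w = w ≤ ex a_x D ⊤ bt (`ex_le_iff`), y = tw P (sx a_x) w1 (y.r, y.t) and y ≤ tw P (sx a_x) w1 (m x). By MData.dec for Z = X, w1: w' ≤ w1 with Bl (sx a_x) w' and z1 := tw P (sx a_x) w' (m x) satisfies Frc (X a_x) z1 or z1 ∈ SplK.Neg (X a_x).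
  Frc is impossible: z2 := tw P (sx a_x) w' (y.r, y.t) ≤ z1 (`tw_mono` from y ≤ tw P _ w1 (m x)) and z2 ≤ y (`tw_base`), so z2 ∈ SplK.Neg (X a_x): `frc_neg_false`. So z1 ∈ SplK.Neg (X a_x), hence Frc (SplK.Neg (X a_x)) z1.
  By `ex_surj` w' = ex a_x D (rr a_x w') t' with t' ∈ und D, t' = c x τ, τ ∈ x_T. Put s'_x := rr a_x w' (Bl), t'_x := τ: z x ⟨s'_x, t'_x⟩ = z1. And ⟨s'_x, t'_x⟩ ≤ p from w' ≤ w: `ex_le_iff` and Rfl.le. By `cd_const` and
  `nfu_const` s'_x = s', t'_x = t' constant eventually; q := ⟨s', t'⟩ ≤ p and q ∈ μ (fun a => SplK.Neg (X a)).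
* mono: eventually z x p ≤ p, so Frc (X a_x) (z x p) → Frc (Y a_x) (z x p).
* complete: `nfu_all`: eventually for all i: Frc (X i a_x) (z x p). Then every r ≤ z x p is in {q | ∀ i, Frc (X i a_x) q} (Frc.mono).
* tail: eventually a₀ < a_x (`kx_large`).
-/

namespace Pool.Agent.SplG

open Cardinal Pool.Agent.SplK

variable {K : Type} [LinearOrder K] [Stp K] {Θ : Type} {W : Ultrafilter (Set Θ)} {T : Type}

theorem muA_bl_rr {K : Type} [LinearOrder K] [Stp K] {a : K} {s : RR K} (h : Bl a s) : rr a s = s := by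
  apply RR.ext
  exact cd_rs h

theorem muA_rr_mono {K : Type} [LinearOrder K] [Stp K] (a : K) {s s' : RR K} (h : s' ≤ s) : rr a s' ≤ rr a s :=
  leF_rs h

theorem muA_rr_bl {K : Type} [LinearOrder K] [Stp K] (a : K) (s : RR K) : Bl a (rr a s) := rs_mem s.ok

theorem muA_mem {K : Type} [LinearOrder K] [Stp K] {T : Type} {P : RPos (RR K) T} {x : Set T}
    {X : Set (K → Set (Star P))} {a D : K} {c : T → K} {m : RR K × T} (h : MData P x X a D c m) {t : T}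
    (ht : t ∈ x) : c t ∈ und D := by
  rw [h.rfl.und]
  exact ⟨t, ht, rfl⟩

theorem muA_le {K : Type} [LinearOrder K] [Stp K] {T : Type} {P : RPos (RR K) T} {x : Set T}
    {X : Set (K → Set (Star P))} {a D : K} {c : T → K} {m : RR K × T} (h : MData P x X a D c m) {p p' : Star P}
    (hp : Bl a p.r) (hp' : Bl a p'.r) (ht : p.t ∈ x) (ht' : p'.t ∈ x) (hle : p' ≤ p) :
    tw P (sx a) (ex a D p'.r (c p'.t)) m ≤ tw P (sx a) (ex a D p.r (c p.t)) m := by
  apply tw_base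
  apply muA_rr_mono
  rw [ex_le_iff h.rfl.val (muA_mem h ht) (muA_mem h ht')]
  refine ⟨muA_rr_mono a hle.1, ?_⟩
  rw [muA_bl_rr hp', h.rfl.le p'.r hp' p'.t ht' p.t ht]
  exact hle.2

theorem muA_dec {K : Type} [LinearOrder K] [Stp K] {T : Type} {P : RPos (RR K) T} {x : Set T}
    {X : Set (K → Set (Star P))} {a D : K} {c : T → K} {m : RR K × T} (h : MData P x X a D c m) {p : Star P}
    (hp : Bl a p.r) (ht : p.t ∈ x) {Z : K → Set (Star P)} (hZ : Z ∈ X)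
    (hn : ¬ Frc (Z a) (tw P (sx a) (ex a D p.r (c p.t)) m)) :
    ∃ (s : RR K) (τ : T), Bl a s ∧ τ ∈ x ∧ (⟨s, τ⟩ : Star P) ≤ p ∧
      tw P (sx a) (ex a D s (c τ)) m ∈ SplK.Neg (Z a) := by
  rcases frc_or_neg (Z a) (tw P (sx a) (ex a D p.r (c p.t)) m) with h1 | ⟨y, hy, hyN⟩
  · exact absurd h1 hn
  obtain ⟨hb1, hb2, hb3, hb4⟩ := tw_split P hy
  have hwb : Bl (sx a) (ex a D p.r (c p.t)) := ex_bl h.rfl.val (muA_mem h ht) p.r
  rw [muA_bl_rr hwb] at hb2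
  have hbt : (Stp.bt : K) ∈ und D := (val_iff.mp h.rfl.val).bot
  have hwt : ex a D p.r (c p.t) ≤ ex a D ⊤ Stp.bt := by
    rw [ex_le_iff h.rfl.val hbt (muA_mem h ht)]
    exact ⟨muA_rr_mono a le_top, (val_iff.mp h.rfl.val).le_top _ (muA_rr_bl a p.r) _ (muA_mem h ht)⟩
  obtain ⟨w', hw1, hw2, hw3⟩ := h.dec Z hZ (rr (sx a) y.r) hb1 (hb2.trans hwt)
  have hw2' : rr (sx a) w' ≤ rr (sx a) (rr (sx a) y.r) := muA_rr_mono _ hw2
  have hz1 : tw P (sx a) w' m ∈ SplK.Neg (Z a) := by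
    rcases hw3 with h2 | h2
    · exfalso
      have h3 : tw P (sx a) w' (y.r, y.t) ≤ tw P (sx a) w' m := by
        apply tw_mono P (s := rr (sx a) y.r) _ hw2'
        rw [← hb3]
        exact hb4
      have h4 : tw P (sx a) w' (y.r, y.t) ≤ y := by
        have h5 : tw P (sx a) w' (y.r, y.t) ≤ tw P (sx a) (rr (sx a) y.r) (y.r, y.t) := tw_base P hw2'
        rwa [← hb3] at h5
      exact frc_neg_false h2 h3 (SplK.Neg.mono hyN h4)
    · exact h2
  obtain ⟨t', ht', hw'⟩ := ex_surj h.rfl.val hw1 ((hw2.trans hb2).trans hwt)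
  have ht'' := ht'
  rw [h.rfl.und] at ht''
  obtain ⟨τ, hτ, hτ'⟩ := ht''
  have hs : Bl a (rr a w') := muA_rr_bl a w'
  refine ⟨rr a w', τ, hs, hτ, ?_, ?_⟩
  · have h6 : ex a D (rr a w') t' ≤ ex a D p.r (c p.t) := by
      rw [← hw']
      exact hw2.trans hb2
    rw [ex_le_iff h.rfl.val (muA_mem h ht) ht', muA_bl_rr hs, muA_bl_rr hp, ← hτ',
      h.rfl.le _ hs _ hτ _ ht] at h6
    exact ⟨h6.1, h6.2⟩
  · rw [hτ', ← hw']
    exact hz1

theorem bmeas_of_mdata (hW : NFU #K Θ W) (k : K → Θ) (hk : Function.Injective k) (g : T → Θ)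
    (hg : Function.Injective g) (P : RPos (RR K) T) (j : (K → Set (Star P)) → Θ) (hj : Function.Injective j)
    (hM : ∀ᶠ x : Set Θ in (W : Filter (Set Θ)), ∃ (D : K) (c : T → K) (m : RR K × T),
      MData P {t | g t ∈ x} {Z | j Z ∈ x} (kx k x) D c m) : ∃ μ, BMeas K (Star P) μ := by
  classical
  have h0 : ∀ x : Set Θ, ∃ (D : K) (c : T → K) (m : RR K × T),
      (∃ (D : K) (c : T → K) (m : RR K × T), MData P {t | g t ∈ x} {Z | j Z ∈ x} (kx k x) D c m) →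
      MData P {t | g t ∈ x} {Z | j Z ∈ x} (kx k x) D c m := by
    intro x
    by_cases h : ∃ (D : K) (c : T → K) (m : RR K × T), MData P {t | g t ∈ x} {Z | j Z ∈ x} (kx k x) D c m
    · obtain ⟨D, c, m, h1⟩ := h
      exact ⟨D, c, m, fun _ => h1⟩
    · exact ⟨Stp.bt, fun _ => Stp.bt, (⊤, P.top), fun h2 => absurd h2 h⟩
  choose D c m hDcm using h0
  have hM' : ∀ᶠ x : Set Θ in (W : Filter (Set Θ)),
      MData P {t | g t ∈ x} {Z | j Z ∈ x} (kx k x) (D x) (c x) (m x) := hM.mono fun x h => hDcm x h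
  let z : Set Θ → Star P → Star P := fun x p => tw P (sx (kx k x)) (ex (kx k x) (D x) p.r (c x p.t)) (m x)
  have hbl : ∀ s : RR K, ∀ᶠ x : Set Θ in (W : Filter (Set Θ)), Bl (kx k x) s := cd_large hW k hk
  have hzp : ∀ p : Star P, ∀ᶠ x : Set Θ in (W : Filter (Set Θ)), z x p ≤ p := by
    intro p
    filter_upwards [hM', hbl p.r, hW.fine (g p.t)] with x h1 h2 h3
    exact h1.le p.r h2 p.t h3
  have hzm : ∀ p p' : Star P, p' ≤ p → ∀ᶠ x : Set Θ in (W : Filter (Set Θ)), z x p' ≤ z x p := by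
    intro p p' hle
    filter_upwards [hM', hbl p.r, hbl p'.r, hW.fine (g p.t), hW.fine (g p'.t)] with x h1 h2 h3 h4 h5
    exact muA_le h1 h2 h3 h4 h5 hle
  refine ⟨fun X => {p | ∀ᶠ x : Set Θ in (W : Filter (Set Θ)), Frc (X (kx k x)) (z x p)}, ?_⟩
  constructor
  · intro X p q hp hq
    filter_upwards [hp, hzm p q hq] with x h1 h2
    exact h1.mono h2
  · intro X p hp
    have hp' : ∀ᶠ x : Set Θ in (W : Filter (Set Θ)), ¬ Frc (X (kx k x)) (z x p) := by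
      rw [Ultrafilter.eventually_not]
      exact hp
    have hex : ∀ᶠ x : Set Θ in (W : Filter (Set Θ)), ∃ y : RR K × T, Bl (kx k x) y.1 ∧ g y.2 ∈ x ∧
        (⟨y.1, y.2⟩ : Star P) ≤ p ∧
        tw P (sx (kx k x)) (ex (kx k x) (D x) y.1 (c x y.2)) (m x) ∈ SplK.Neg (X (kx k x)) := by
      filter_upwards [hM', hbl p.r, hW.fine (g p.t), hW.fine (j X), hp'] with x h1 h2 h3 h4 h5
      obtain ⟨s, τ, h6, h7, h8, h9⟩ := muA_dec h1 h2 h3 (Z := X) h4 h5
      exact ⟨(s, τ), h6, h7, h8, h9⟩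
    have h1 : ∀ x : Set Θ, ∃ y : RR K × T, (∃ y : RR K × T, Bl (kx k x) y.1 ∧ g y.2 ∈ x ∧
        (⟨y.1, y.2⟩ : Star P) ≤ p ∧
        tw P (sx (kx k x)) (ex (kx k x) (D x) y.1 (c x y.2)) (m x) ∈ SplK.Neg (X (kx k x))) →
        Bl (kx k x) y.1 ∧ g y.2 ∈ x ∧
        (⟨y.1, y.2⟩ : Star P) ≤ p ∧
        tw P (sx (kx k x)) (ex (kx k x) (D x) y.1 (c x y.2)) (m x) ∈ SplK.Neg (X (kx k x)) := by
      intro x
      by_cases h : ∃ y : RR K × T, Bl (kx k x) y.1 ∧ g y.2 ∈ x ∧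
        (⟨y.1, y.2⟩ : Star P) ≤ p ∧
        tw P (sx (kx k x)) (ex (kx k x) (D x) y.1 (c x y.2)) (m x) ∈ SplK.Neg (X (kx k x))
      · obtain ⟨y, hy⟩ := h
        exact ⟨y, fun _ => hy⟩
      · exact ⟨(⊤, P.top), fun h2 => absurd h2 h⟩
    choose y hy using h1
    have hy' := hex.mono fun x h => hy x h
    obtain ⟨s, hs⟩ := cd_const hW k hk (fun x => (y x).1) (hy'.mono fun x h => h.1)
    obtain ⟨τ, hτ⟩ := nfu_const hW g hg (fun x => (y x).2) (hy'.mono fun x h => h.2.1)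
    refine ⟨⟨s, τ⟩, ?_, ?_⟩
    · obtain ⟨x, h1, h2, h3⟩ := (hy'.and (hs.and hτ)).exists
      have h4 := h1.2.2.1
      rw [h2, h3] at h4
      exact h4
    · filter_upwards [hy', hs, hτ] with x h1 h2 h3
      have h4 := h1.2.2.2
      rw [h2, h3] at h4
      intro q hq
      exact ⟨q, le_rfl, SplK.Neg.mono h4 hq⟩
  · intro X p hp hp'
    obtain ⟨x, h1, h2⟩ := (Filter.Eventually.and hp hp').exists
    obtain ⟨r, hr, hrN⟩ := h2 _ le_rfl
    exact frc_neg_false h1 hr hrN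
  · intro X Y p hp h
    filter_upwards [hp, hzp p] with x h1 h2
    exact h _ _ h2 h1
  · intro ι X p hι hp
    have h1 := nfu_all hW hι (fun i x => Frc (X i (kx k x)) (z x p)) hp
    filter_upwards [h1] with x h2
    intro q hq
    exact ⟨q, le_rfl, fun i => (h2 i).mono hq⟩
  · intro a₀ p
    filter_upwards [kx_large hW k hk a₀] with x h1
    intro q _
    exact ⟨q, le_rfl, h1⟩

end Pool.Agent.SplG
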