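import Pool.Agent.SplK.Defs

set_option autoImplicit false
set_option linter.all false

/-!
# The preparation: definitions
-/

namespace Pool.Agent.SplG

open Cardinal Pool.Agent.SplK

/-- Partial functions from `K` to `K × K` with bounded support. -/
def Fn (K : Type) [LinearOrder K] : Type := {f : K → Option (K × K) // ∃ b, ∀ a, f a ≠ none → a < b}

/-- The setting: an inaccessible wellordered set with a coding of its small sets of triples. -/
class Stp (K : Type) [LinearOrder K] where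
  inac : Inac K
  /-- the least element -/
  bt : K
  bt_le : ∀ a, bt ≤ a
  /-- the coding -/
  dec : K ≃ {S : Set (Fn K × K × K) // #S < #K}

variable {K : Type} [LinearOrder K] [Stp K]

instance instWFStp : WellFoundedLT K := Stp.inac.wf

/-! ### Partial functions -/

theorem Fn.ext {f g : Fn K} (h : ∀ a, f.1 a = g.1 a) : f = g := Subtype.ext (funext h)

/-- The function equal to `s` below `a` and to `u` from `a` on. -/
def ct (a : K) (s u : Fn K) : Fn K := ⟨fun b => if b < a then s.1 b else u.1 b, by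
  obtain ⟨b1, h1⟩ := s.2
  obtain ⟨b2, h2⟩ := u.2
  refine ⟨max b1 b2, fun c hc => ?_⟩
  dsimp only at hc
  by_cases h : c < a
  · rw [if_pos h] at hc
    exact (h1 c hc).trans_le (le_max_left _ _)
  · rw [if_neg h] at hc
    exact (h2 c hc).trans_le (le_max_right _ _)⟩

/-- The empty function. -/
def emp : Fn K := ⟨fun _ => none, ⟨Stp.bt, fun a h => (h rfl).elim⟩⟩

/-- The restriction to the elements below `a`. -/
def rs (a : K) (r : Fn K) : Fn K := ct a r emp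

lemma ct_lt {a b : K} {s u : Fn K} (h : b < a) : (ct a s u).1 b = s.1 b := if_pos h
lemma ct_ge {a b : K} {s u : Fn K} (h : a ≤ b) : (ct a s u).1 b = u.1 b := if_neg (not_lt.mpr h)
lemma rs_lt {a b : K} {s : Fn K} (h : b < a) : (rs a s).1 b = s.1 b := if_pos h
lemma rs_ge {a b : K} {s : Fn K} (h : a ≤ b) : (rs a s).1 b = none := if_neg (not_lt.mpr h)
@[simp] lemma emp_apply (b : K) : (emp : Fn K).1 b = none := rfl
@[simp] lemma ct_self (a : K) (s : Fn K) : ct a s s = s := Fn.ext (fun b => by simp [ct])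
@[simp] lemma rs_emp (a : K) : rs a (emp : Fn K) = emp := ct_self _ _
lemma rs_ct {a b : K} (h : b ≤ a) (s u : Fn K) : rs b (ct a s u) = rs b s := Fn.ext (fun c => by
  by_cases hc : c < b
  · rw [rs_lt hc, rs_lt hc, ct_lt (hc.trans_le h)]
  · rw [rs_ge (not_lt.mp hc), rs_ge (not_lt.mp hc)])
lemma rs_rs {a b : K} (h : b ≤ a) (s : Fn K) : rs b (rs a s) = rs b s := rs_ct h s emp
lemma rs_rs' {a b : K} (h : a ≤ b) (s : Fn K) : rs b (rs a s) = rs a s := Fn.ext (fun c => by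
  by_cases hc : c < a
  · rw [rs_lt (hc.trans_le h)]
  · rw [rs_ge (not_lt.mp hc)]
    by_cases hb : c < b
    · rw [rs_lt hb, rs_ge (not_lt.mp hc)]
    · rw [rs_ge (not_lt.mp hb)])
lemma ct_rs (a : K) (s u : Fn K) : ct a (rs a s) u = ct a s u := Fn.ext (fun c => by
  by_cases hc : c < a
  · rw [ct_lt hc, ct_lt hc, rs_lt hc]
  · rw [ct_ge (not_lt.mp hc), ct_ge (not_lt.mp hc)])
lemma ct_ct_left (a : K) (s u v : Fn K) : ct a (ct a s u) v = ct a s v := Fn.ext (fun c => by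
  by_cases hc : c < a
  · rw [ct_lt hc, ct_lt hc, ct_lt hc]
  · rw [ct_ge (not_lt.mp hc), ct_ge (not_lt.mp hc)])
lemma ct_ct_right (a : K) (s u v : Fn K) : ct a s (ct a u v) = ct a s v := Fn.ext (fun c => by
  by_cases hc : c < a
  · rw [ct_lt hc, ct_lt hc]
  · rw [ct_ge (not_lt.mp hc), ct_ge (not_lt.mp hc), ct_ge (not_lt.mp hc)])
/-- The restriction of `ct a s u` above `a`. -/
lemma rs_ct_ge {a b : K} (h : a ≤ b) (s u : Fn K) : rs b (ct a s u) = ct a s (rs b u) := Fn.ext (fun c => by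
  by_cases hc : c < a
  · rw [rs_lt (hc.trans_le h), ct_lt hc, ct_lt hc]
  · rw [ct_ge (not_lt.mp hc)]
    by_cases hb : c < b
    · rw [rs_lt hb, rs_lt hb, ct_ge (not_lt.mp hc)]
    · rw [rs_ge (not_lt.mp hb), rs_ge (not_lt.mp hb)])

/-! ### Codes of names of preorders -/

/-- The relation coded by `D`. -/
def leD (D : K) (s : Fn K) (t' t : K) : Prop := (s, t', t) ∈ (Stp.dec D).1

/-- The underlying set. -/
def und (D : K) : Set K := {t | leD D emp t t}

/-- The order of the conditions. -/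
def leF (r' r : Fn K) : Prop := ∀ a D t, r.1 a = some (D, t) → ∃ t', r'.1 a = some (D, t') ∧ leD D (rs a r') t' t

/-- Easton support. -/
def Eas (r : Fn K) : Prop := ∀ c : K, Inac (Set.Iio c) → ∃ b < c, ∀ a < c, r.1 a ≠ none → a < b

/-- The code `D` is a name of a directed closed preorder for the set of conditions `C`, such that the two-step
iteration has the chain condition. -/
structure ValC (a : K) (C : Set (Fn K)) (D : K) : Prop where
  act : Inac (Set.Iio a)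
  siz : ∃ l, und D = Set.Iio l ∧ ∃ n, #(Set.Iio l) ≤ pl (2 ^ #(Set.Iio a)) n
  bot : Stp.bt ∈ und D
  sub : ∀ s t' t, leD D s t' t → s ∈ C ∧ t' ∈ und D ∧ t ∈ und D
  refl : ∀ s ∈ C, ∀ t ∈ und D, leD D s t t
  trans : ∀ s t₁ t₂ t₃, leD D s t₁ t₂ → leD D s t₂ t₃ → leD D s t₁ t₃
  le_top : ∀ s ∈ C, ∀ t ∈ und D, leD D s t Stp.bt
  mono : ∀ s ∈ C, ∀ s' ∈ C, leF s' s → ∀ t' t, leD D s t' t → leD D s' t' t
  dense : ∀ s ∈ C, ∀ t' ∈ und D, ∀ t ∈ und D,
    (∀ s' ∈ C, leF s' s → ∃ s'' ∈ C, leF s'' s' ∧ leD D s'' t' t) → leD D s t' t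
  mix : ∀ b ⊆ C, (∀ s ∈ b, ∀ s' ∈ C, leF s' s → s' ∈ b) → ∀ t ∈ und D, ∀ t' ∈ und D, ∃ t'' ∈ und D,
    (∀ s ∈ b, leD D s t'' t ∧ leD D s t t'') ∧
    ∀ s ∈ C, (∀ s' ∈ C, leF s' s → s' ∉ b) → leD D s t'' t' ∧ leD D s t' t''
  clo : ∀ (ι : Type) (f : ι → K) (s : Fn K), s ∈ C → #ι < #(Set.Iio a) → (∀ i, f i ∈ und D) →
    (∀ i j, ∀ s' ∈ C, leF s' s → ∃ s'' ∈ C, leF s'' s' ∧ ∃ k, leD D s'' (f k) (f i) ∧ leD D s'' (f k) (f j)) →
    ∃ t ∈ und D, ∀ i, leD D s t (f i)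
  cc : ∀ A : Set (Fn K × K), (∀ x ∈ A, x.1 ∈ C ∧ x.2 ∈ und D) →
    (∀ x ∈ A, ∀ y ∈ A, (∃ s ∈ C, ∃ t ∈ und D, leF s x.1 ∧ leF s y.1 ∧ leD D s t x.2 ∧ leD D s t y.2) → x = y) →
    #A ≤ #(Set.Iio a)

/-- The code `D` is valid at the stage `a`. -/
def Val : K → K → Prop :=
  (wellFounded_lt (α := K)).fix (fun a ih D =>
    ValC a {r | Eas r ∧ ∀ b D' t, r.1 b = some (D', t) → ∃ h : b < a, ih b h D' ∧ t ∈ und D'} D)

/-- The conditions below the stage `a`. -/
def Cd (a : K) : Set (Fn K) := {r | Eas r ∧ ∀ b D t, r.1 b = some (D, t) → b < a ∧ Val b D ∧ t ∈ und D}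

theorem val_iff {a D : K} : Val a D ↔ ValC a (Cd a) D := by
  have h1 : Val a = fun D => ValC a {r | Eas r ∧ ∀ b D' t, r.1 b = some (D', t) →
      ∃ _ : b < a, Val b D' ∧ t ∈ und D'} D := by
    unfold Val
    rw [WellFounded.fix_eq]
  rw [h1]
  have h2 : {r : Fn K | Eas r ∧ ∀ b D' t, r.1 b = some (D', t) → ∃ _ : b < a, Val b D' ∧ t ∈ und D'} = Cd a := by
    ext r
    constructor
    · rintro ⟨h, h'⟩
      exact ⟨h, fun b D' t hb => by obtain ⟨h3, h4⟩ := h' b D' t hb; exact ⟨h3, h4⟩⟩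
    · rintro ⟨h, h'⟩
      exact ⟨h, fun b D' t hb => by obtain ⟨h3, h4⟩ := h' b D' t hb; exact ⟨h3, h4⟩⟩
  show ValC a _ D ↔ _
  rw [h2]

/-- Valid conditions. -/
def Ok (r : Fn K) : Prop := Eas r ∧ ∀ b D t, r.1 b = some (D, t) → Val b D ∧ t ∈ und D

lemma cd_ok {a : K} {r : Fn K} (h : r ∈ Cd a) : Ok r := ⟨h.1, fun b D t hb => (h.2 b D t hb).2⟩
lemma cd_supp {a b : K} {r : Fn K} (h : r ∈ Cd a) (hb : a ≤ b) : r.1 b = none := by
  by_contra hne
  obtain ⟨⟨D, t⟩, hDt⟩ := Option.ne_none_iff_exists'.mp hne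
  exact absurd (h.2 b D t hDt).1 (not_lt.mpr hb)
lemma cd_rs {a : K} {r : Fn K} (h : r ∈ Cd a) : rs a r = r := Fn.ext (fun b => by
  by_cases hb : b < a
  · rw [rs_lt hb]
  · rw [rs_ge (not_lt.mp hb), cd_supp h (not_lt.mp hb)])
lemma cd_mono {a b : K} (hab : a ≤ b) {r : Fn K} (h : r ∈ Cd a) : r ∈ Cd b :=
  ⟨h.1, fun c D t hc => ⟨(h.2 c D t hc).1.trans_le hab, (h.2 c D t hc).2⟩⟩

lemma eas_ct {a : K} {s u : Fn K} (hs : Eas s) (hu : Eas u) : Eas (ct a s u) := by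
  intro c hc
  obtain ⟨b1, h1, h2⟩ := hs c hc
  obtain ⟨b2, h3, h4⟩ := hu c hc
  refine ⟨max b1 b2, max_lt h1 h3, fun d hd hne => ?_⟩
  by_cases h : d < a
  · rw [ct_lt h] at hne
    exact (h2 d hd hne).trans_le (le_max_left _ _)
  · rw [ct_ge (not_lt.mp h)] at hne
    exact (h4 d hd hne).trans_le (le_max_right _ _)

lemma inac_bt {c : K} (h : Inac (Set.Iio c)) : (Stp.bt : K) < c := by
  have h1 := h.unc
  have h2 : Nonempty (Set.Iio c) := by
    rw [← mk_ne_zero_iff]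
    exact (aleph0_pos.trans h1).ne'
  obtain ⟨x, hx⟩ := h2
  exact (Stp.bt_le x).trans_lt hx

lemma eas_emp : Eas (emp : Fn K) := fun c hc => ⟨Stp.bt, inac_bt hc, fun a _ h => (h rfl).elim⟩

lemma ok_emp : Ok (emp : Fn K) := ⟨eas_emp, fun b D t h => by simp at h⟩

lemma ok_ct {a : K} {s u : Fn K} (hs : Ok s) (hu : Ok u) : Ok (ct a s u) := by
  refine ⟨eas_ct hs.1 hu.1, fun b D t hb => ?_⟩
  by_cases h : b < a
  · rw [ct_lt h] at hb
    exact hs.2 b D t hb
  · rw [ct_ge (not_lt.mp h)] at hb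
    exact hu.2 b D t hb

lemma ok_rs {a : K} {s : Fn K} (hs : Ok s) : Ok (rs a s) := ok_ct hs ok_emp

lemma rs_mem {a : K} {s : Fn K} (hs : Ok s) : rs a s ∈ Cd a := by
  refine ⟨(ok_rs hs).1, fun b D t hb => ?_⟩
  by_cases h : b < a
  · exact ⟨h, (ok_rs hs).2 b D t hb⟩
  · rw [rs_ge (not_lt.mp h)] at hb
    cases hb

lemma mem_Cd {a : K} {s : Fn K} : s ∈ Cd a ↔ Ok s ∧ rs a s = s :=
  ⟨fun h => ⟨cd_ok h, cd_rs h⟩, fun h => h.2 ▸ rs_mem h.1⟩

lemma emp_mem (a : K) : (emp : Fn K) ∈ Cd a := mem_Cd.mpr ⟨ok_emp, rs_emp a⟩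

/-! ### The order -/

lemma leF_refl {r : Fn K} (h : Ok r) : leF r r := fun a D t hat =>
  ⟨t, hat, (val_iff.mp (h.2 a D t hat).1).refl _ (rs_mem h) t (h.2 a D t hat).2⟩

lemma leF_emp (r : Fn K) : leF r emp := fun a D t h => by simp at h

lemma leF_rs {a : K} {r' r : Fn K} (h : leF r' r) : leF (rs a r') (rs a r) := by
  intro b D t hb
  have hba : b < a := by
    by_contra hba
    rw [rs_ge (not_lt.mp hba)] at hb
    cases hb
  rw [rs_lt hba] at hb
  obtain ⟨t', h1, h2⟩ := h b D t hb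
  exact ⟨t', by rw [rs_lt hba]; exact h1, by rw [rs_rs hba.le]; exact h2⟩

lemma leF_trans {r'' r' r : Fn K} (h'' : Ok r'') (h' : Ok r') (h1 : leF r'' r') (h2 : leF r' r) : leF r'' r := by
  intro a D t hat
  obtain ⟨t', ht', h3⟩ := h2 a D t hat
  obtain ⟨t'', ht'', h4⟩ := h1 a D t' ht'
  have hV := val_iff.mp (h'.2 a D t' ht').1
  exact ⟨t'', ht'', hV.trans _ _ _ _ h4 (hV.mono _ (rs_mem h') _ (rs_mem h'') (leF_rs h1) _ _ h3)⟩

/-- The order below `a` and from `a` on. -/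
lemma leF_split {a : K} {r' r : Fn K} : leF r' r ↔ leF (rs a r') (rs a r) ∧
    ∀ b, a ≤ b → ∀ D t, r.1 b = some (D, t) → ∃ t', r'.1 b = some (D, t') ∧ leD D (rs b r') t' t := by
  constructor
  · exact fun h => ⟨leF_rs h, fun b _ D t hb => h b D t hb⟩
  · rintro ⟨h1, h2⟩ b D t hb
    by_cases hba : b < a
    · obtain ⟨t', h3, h4⟩ := h1 b D t (by rw [rs_lt hba]; exact hb)
      rw [rs_lt hba] at h3
      rw [rs_rs hba.le] at h4
      exact ⟨t', h3, h4⟩
    · exact h2 b (not_lt.mp hba) D t hb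

/-- A condition extends its restrictions. -/
lemma leF_rs_self (a : K) {r : Fn K} (h : Ok r) : leF r (rs a r) := by
  intro b D t hb
  have hba : b < a := by
    by_contra hba
    rw [rs_ge (not_lt.mp hba)] at hb
    cases hb
  rw [rs_lt hba] at hb
  exact leF_refl h b D t hb

/-- Changing the first part. -/
lemma leF_ct {a : K} {w' r' r : Fn K} (hw : Ok w') (hr' : Ok r') (h : leF r' r) (hw' : leF w' (rs a r')) :
    leF (ct a w' r') (ct a w' r) := by
  have hok := ok_ct (a := a) hw hr'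
  rw [leF_split (a := a)]
  constructor
  · rw [rs_ct le_rfl, rs_ct le_rfl]
    exact leF_refl (ok_rs hw)
  · intro b hb D t hbt
    rw [ct_ge hb] at hbt
    obtain ⟨t', h1, h2⟩ := h b D t hbt
    refine ⟨t', by rw [ct_ge hb]; exact h1, ?_⟩
    have hV := val_iff.mp (hr'.2 b D t' h1).1
    refine hV.mono _ (rs_mem hr') _ (rs_mem hok) ?_ _ _ h2
    rw [leF_split (a := a)]
    constructor
    · rw [rs_rs hb, rs_ct le_rfl, rs_rs hb]
      exact leF_trans (ok_rs hw) (ok_rs hr') (by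
        have := leF_rs (a := a) hw'
        rwa [rs_rs le_rfl] at this) (leF_refl (ok_rs hr'))
    · intro c hc D' t'' hct
      have hcb : c < b := by
        by_contra hcb
        rw [rs_ge (not_lt.mp hcb)] at hct
        cases hct
      rw [rs_lt hcb] at hct
      refine ⟨t'', by rw [rs_lt hcb, ct_ge hc]; exact hct, ?_⟩
      rw [rs_rs hcb.le]
      exact (val_iff.mp (hr'.2 c D' t'' hct).1).refl _ (rs_mem hok) _ (hr'.2 c D' t'' hct).2

/-- The preparation. -/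
@[ext] structure RR (K : Type) [LinearOrder K] [Stp K] where
  /-- the function -/
  f : Fn K
  ok : Ok f

instance : Preorder (RR K) where
  le r' r := leF r'.f r.f
  le_refl r := leF_refl r.ok
  le_trans r s t h1 h2 := leF_trans r.ok s.ok h1 h2

lemma rr_le {r' r : RR K} : r' ≤ r ↔ leF r'.f r.f := Iff.rfl

instance : OrderTop (RR K) where
  top := ⟨emp, ok_emp⟩
  le_top r := leF_emp r.f

/-- The condition equal to `s` below `a` and to `u` from `a` on. -/
def cr (a : K) (s u : RR K) : RR K := ⟨ct a s.f u.f, ok_ct s.ok u.ok⟩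
/-- The restriction. -/
def rr (a : K) (r : RR K) : RR K := ⟨rs a r.f, ok_rs r.ok⟩

@[simp] lemma cr_f (a : K) (s u : RR K) : (cr a s u).f = ct a s.f u.f := rfl
@[simp] lemma rr_f (a : K) (s : RR K) : (rr a s).f = rs a s.f := rfl
@[simp] lemma top_f : (⊤ : RR K).f = emp := rfl

end Pool.Agent.SplG
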