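import Pool.Agent.SplG.RDefs2

set_option autoImplicit false
set_option linter.all false

/-!
# Module Tc (closure of the tails) difficulty 3

f is a family of conditions, directed above a in the context s: for all i j there is k with `cr a s (f k) ≤ cr a s (f i), cr a s (f j)` (the parts from a on
matter). `Big a #ι`: all active stages c ≥ a have `#ι < #(Iio c)`.
(1) D is unique: if `(f i).f c = some (D, t)`, `(f j).f c = some (D', t')`, c ≥ a, then D = D' (both equal the D of f k at c).
(2) Define u : K → Option (K × K) by wellfounded recursion: u c = none if c < a or no f i is defined at c. Otherwise let D be the common code,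
  I_c := {i // (f i).f c ≠ none}, t_i the value, and choose t ∈ und D with `∀ i ∈ I_c, leD D (ct a s u|c) t t_i` if there is such a t (else bt), where
  u|c is the function equal to u below c and none from c on. Support: contained in ⋃ supports, bounded in K because `#ι < #K` and `Inac.reg`
  (the bounds of the supports form a set of size ≤ #ι). So u is an element of Fn K, `rs c u = u|c`.
(3) By induction on c: ct a s (rs c u) is Ok (so u is Ok as its part below a is empty) and for all i: `leF (ct a s (rs c u)) (ct a s (rs c (f i).f))`.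
  Easton: let d be regular (Inac (Iio d)). If d ≤ a the support of u below d is empty. If d > a: if there is an active stage e with a ≤ e < d and some f i defined at e, then #ι < #(Iio e) ≤
  #(Iio d), so the bounds (< d) of the supports of the f i below d are bounded below d by `Inac.reg` of Iio d (a set of size ≤ #ι); otherwise no f i is defined in
  [a, d) (a stage in the support is active: `Val` gives `act`), so the support of u below d is empty (bound: bt, `inac_bt`).
  Step at c ≥ a where some f i is defined: `Val c D` (from Ok (f i)), w := ct a s (rs c u) ∈ Cd c (it is Ok with support below c). Use clo of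
  `val_iff.mp (Val c D)` for the index type I_c (size ≤ #ι < #(Iio c), Big), the family t_i and the condition w: given i, j ∈ I_c and w' ≤ w in Cd c take
  w'' = w' (leF_refl) and k from the hypothesis: k ∈ I_c and `leD D (rs c (ct a s (f k).f)) t_k t_i` and same for j; since w' ≤ w ≤ rs c (ct a s (f k).f)
  (induction hypothesis), mono gives `leD D w' t_k t_i`. So the t chosen in (2) exists and has the property. For the order at c+: `leF_split`-like.
  (It may be easier to prove: for all c, if the chosen values below c have the property, then w is Ok, and so on.)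
(4) u : RR K; `cr a s u ≤ cr a s (f i)`: at b < a the value is that of s (refl); at c ≥ a from (3).
-/

namespace Pool.Agent.SplG

open Cardinal Pool.Agent.SplK

variable {K : Type} [LinearOrder K] [Stp K]

theorem tail_lb (a : K) (s : RR K) {ι : Type} (hι : Big a #ι) (hK : #ι < #K) (f : ι → RR K)
    (hf : ∀ i j, ∃ k, cr a s (f k) ≤ cr a s (f i) ∧ cr a s (f k) ≤ cr a s (f j)) :
    ∃ u : RR K, ∀ i, cr a s u ≤ cr a s (f i) := by
  classical
  -- the codes agree, and the values are directed
  have hdir : ∀ c, a ≤ c → ∀ i j D t D' t', (f i).f.1 c = some (D, t) → (f j).f.1 c = some (D', t') →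
      D = D' ∧ ∃ k t'', (f k).f.1 c = some (D, t'') ∧ leD D (rs c (ct a s.f (f k).f)) t'' t ∧
        leD D (rs c (ct a s.f (f k).f)) t'' t' := by
    intro c hac i j D t D' t' h1 h2
    obtain ⟨k, hk1, hk2⟩ := hf i j
    rw [rr_le, cr_f, cr_f] at hk1 hk2
    obtain ⟨u1, h3, h4⟩ := hk1 c D t (by rw [ct_ge hac]; exact h1)
    obtain ⟨u2, h5, h6⟩ := hk2 c D' t' (by rw [ct_ge hac]; exact h2)
    rw [ct_ge hac] at h3 h5
    rw [h3] at h5
    obtain ⟨rfl, rfl⟩ : D = D' ∧ u1 = u2 := by simpa using h5
    exact ⟨rfl, k, u1, h3, h4, h6⟩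
  -- the recursion
  let wfn : (c : K) → ((b : K) → b < c → Option (K × K)) → Fn K := fun c ih =>
    ct a s.f ⟨fun b => if h : b < c then ih b h else none, c, fun b hb => by
      by_contra hbc
      exact hb (dif_neg hbc)⟩
  let Q : K → Fn K → K × K → Prop := fun c w z => z.2 ∈ und z.1 ∧ (∃ i t, (f i).f.1 c = some (z.1, t)) ∧
    ∀ i t, (f i).f.1 c = some (z.1, t) → leD z.1 w z.2 t
  let G : (c : K) → ((b : K) → b < c → Option (K × K)) → Option (K × K) := fun c ih =>
    if h : a ≤ c ∧ ∃ z, Q c (wfn c ih) z then some h.2.choose else none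
  let u0 : K → Option (K × K) := (wellFounded_lt (α := K)).fix G
  have hu0 : ∀ c, u0 c = G c (fun b _ => u0 b) := fun c => WellFounded.fix_eq _ _ _
  have hsup : ∀ c, u0 c ≠ none → a ≤ c ∧ ∃ i, (f i).f.1 c ≠ none := by
    intro c hc
    rw [hu0] at hc
    by_cases h : a ≤ c ∧ ∃ z, Q c (wfn c (fun b _ => u0 b)) z
    · obtain ⟨h1, z, -, ⟨i, t, hit⟩, -⟩ := h
      exact ⟨h1, i, by rw [hit]; exact Option.some_ne_none _⟩
    · exact (hc (dif_neg h)).elim
  choose B hB using fun i => (f i).f.2
  obtain ⟨β, hβ⟩ := (Stp.inac (K := K)).reg (Set.range B) (mk_range_le.trans_lt hK)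
  let u : Fn K := ⟨u0, β, fun c hc => by
    obtain ⟨-, i, hi⟩ := hsup c hc
    exact (hB i c hi).trans (hβ _ ⟨i, rfl⟩)⟩
  have hu : ∀ c, u.1 c = u0 c := fun c => rfl
  have hwfn : ∀ c, a ≤ c → wfn c (fun b _ => u0 b) = rs c (ct a s.f u) := by
    intro c hac
    rw [rs_ct_ge hac]
    show ct a s.f _ = ct a s.f _
    congr 1
  have hu1 : ∀ c z, u.1 c = some z → a ≤ c ∧ Q c (rs c (ct a s.f u)) z := by
    intro c z hz
    rw [hu, hu0] at hz
    by_cases h : a ≤ c ∧ ∃ z, Q c (wfn c (fun b _ => u0 b)) z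
    · have h1 : G c (fun b _ => u0 b) = some h.2.choose := dif_pos h
      have h2 := h.2.choose_spec
      rw [h1] at hz
      rw [← hwfn c h.1]
      have h3 : h.2.choose = z := by simpa using hz
      rw [h3] at h2
      exact ⟨h.1, h2⟩
    · have h1 : G c (fun b _ => u0 b) = none := dif_neg h
      rw [h1] at hz
      cases hz
  have hu2 : ∀ c, a ≤ c → ∀ z, Q c (rs c (ct a s.f u)) z → ∃ z', u.1 c = some z' := by
    intro c hac z hz
    rw [← hwfn c hac] at hz
    have h : a ≤ c ∧ ∃ z, Q c (wfn c (fun b _ => u0 b)) z := ⟨hac, z, hz⟩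
    refine ⟨h.2.choose, ?_⟩
    rw [hu, hu0]
    exact dif_pos h
  have hEas : Eas u := by
    intro d hd
    by_cases hex : ∃ e, a ≤ e ∧ e < d ∧ u.1 e ≠ none
    · obtain ⟨e, hae, hed, he⟩ := hex
      obtain ⟨-, i, hi⟩ := hsup e he
      obtain ⟨⟨D, t⟩, hDt⟩ := Option.ne_none_iff_exists'.mp hi
      have hact : Inac (Set.Iio e) := (val_iff.mp ((f i).ok.2 e D t hDt).1).act
      have h1 : #ι < #(Set.Iio e) := hι e hae hact
      have h2 : #(Set.Iio e) ≤ #(Set.Iio d) := mk_le_mk_of_subset (Set.Iio_subset_Iio hed.le)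
      choose b hb1 hb2 using fun i => (f i).ok.1 d hd
      obtain ⟨b0, hb0⟩ := hd.reg (Set.range (fun i => (⟨b i, hb1 i⟩ : Set.Iio d)))
        (mk_range_le.trans_lt (h1.trans_le h2))
      refine ⟨b0.1, b0.2, fun x hx hne => ?_⟩
      obtain ⟨-, j, hj⟩ := hsup x hne
      exact (hb2 j x hx hj).trans (hb0 ⟨b j, hb1 j⟩ ⟨j, rfl⟩)
    · refine ⟨Stp.bt, inac_bt hd, fun x hx hne => ?_⟩
      exact (hex ⟨x, (hsup x hne).1, hx, hne⟩).elim
  have hOku : Ok u := by
    refine ⟨hEas, fun b D t hb => ?_⟩
    obtain ⟨-, h1, ⟨i, t', hi⟩, -⟩ := hu1 b (D, t) hb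
    exact ⟨((f i).ok.2 b D t' hi).1, h1⟩
  have hU : Ok (ct a s.f u) := ok_ct s.ok hOku
  have main : ∀ c, a ≤ c → ∀ i D t, (f i).f.1 c = some (D, t) →
      ∃ t', u.1 c = some (D, t') ∧ leD D (rs c (ct a s.f u)) t' t := by
    intro c
    induction c using (wellFounded_lt (α := K)).induction with
    | _ c ih =>
      intro hac i D t hit
      have hV := val_iff.mp ((f i).ok.2 c D t hit).1
      have hord : ∀ k, leF (rs c (ct a s.f u)) (rs c (ct a s.f (f k).f)) := by
        intro k b D' t' hb
        have hbc : b < c := by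
          by_contra h
          rw [rs_ge (not_lt.mp h)] at hb
          cases hb
        rw [rs_lt hbc] at hb
        by_cases hba : b < a
        · rw [ct_lt hba] at hb
          refine ⟨t', ?_, ?_⟩
          · rw [rs_lt hbc, ct_lt hba]
            exact hb
          · exact (val_iff.mp (s.ok.2 b D' t' hb).1).refl _ (rs_mem (ok_rs hU)) t' (s.ok.2 b D' t' hb).2
        · have hba' := not_lt.mp hba
          rw [ct_ge hba'] at hb
          obtain ⟨t'', h1, h2⟩ := ih b hbc hba' k D' t' hb
          refine ⟨t'', ?_, ?_⟩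
          · rw [rs_lt hbc, ct_ge hba']
            exact h1
          · rw [rs_rs hbc.le]
            exact h2
      obtain ⟨τ, hτ, hτ'⟩ := hV.clo {z : ι × K // (f z.1).f.1 c = some (D, z.2)} (fun z => z.1.2)
        (rs c (ct a s.f u)) (rs_mem hU) (by
          refine lt_of_le_of_lt ?_ (hι c hac hV.act)
          refine mk_le_of_injective (f := fun z => z.1.1) ?_
          rintro ⟨⟨i1, t1⟩, h1⟩ ⟨⟨i2, t2⟩, h2⟩ h12
          dsimp only at h1 h2 h12
          subst h12
          rw [h1] at h2
          obtain rfl : t1 = t2 := by simpa using h2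
          rfl) (fun z => ((f z.1.1).ok.2 c D z.1.2 z.2).2) (by
          intro z z' s' hs' hle
          obtain ⟨-, k, t'', h1, h2, h3⟩ := hdir c hac z.1.1 z'.1.1 D z.1.2 D z'.1.2 z.2 z'.2
          refine ⟨s', hs', leF_refl (cd_ok hs'), ⟨(k, t''), h1⟩, ?_, ?_⟩
          · exact hV.mono _ (rs_mem (ok_ct s.ok (f k).ok)) _ hs'
              (leF_trans (cd_ok hs') (ok_rs hU) hle (hord k)) _ _ h2
          · exact hV.mono _ (rs_mem (ok_ct s.ok (f k).ok)) _ hs'
              (leF_trans (cd_ok hs') (ok_rs hU) hle (hord k)) _ _ h3)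
      obtain ⟨⟨D', t'⟩, hz'⟩ := hu2 c hac (D, τ) ⟨hτ, ⟨i, t, hit⟩, fun j t1 hj => hτ' ⟨(j, t1), hj⟩⟩
      obtain ⟨-, h1, ⟨j, t1, hj⟩, h2⟩ := hu1 c (D', t') hz'
      obtain ⟨rfl, -⟩ := hdir c hac i j D t D' t1 hit hj
      exact ⟨t', hz', h2 i t hit⟩
  refine ⟨⟨u, hOku⟩, fun i => ?_⟩
  rw [rr_le, cr_f, cr_f]
  intro b D t hb
  by_cases hba : b < a
  · rw [ct_lt hba] at hb
    refine ⟨t, ?_, ?_⟩
    · rw [ct_lt hba]
      exact hb
    · exact (val_iff.mp (s.ok.2 b D t hb).1).refl _ (rs_mem hU) t (s.ok.2 b D t hb).2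
  · have hba' := not_lt.mp hba
    rw [ct_ge hba'] at hb
    obtain ⟨t'', h1, h2⟩ := main b hba' i D t hb
    refine ⟨t'', ?_, h2⟩
    rw [ct_ge hba']
    exact h1

end Pool.Agent.SplG
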